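import Pool.Agent.Lib.NOreP.NoeF

/-!
# NOreP/Bi: bigraded algebras over a regular algebra of dimension three
-/

set_option autoImplicit false

namespace Pool.Agent.Lib.NOreP

variable {σ : Type} [Fintype σ] {k R : Type*} [Field k] [Ring R] [Algebra k R]

theorem sum3 {α β γ M : Type*} [Fintype α] [Fintype β] [Fintype γ] [AddCommMonoid M]
    (f : α → β → γ → M) : ∑ a, ∑ b, ∑ c, f a b c = ∑ b, ∑ c, ∑ a, f a b c := by
  rw [Finset.sum_comm]
  exact Finset.sum_congr rfl fun b _ => Finset.sum_comm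

theorem sum4 {α β γ δ M : Type*} [Fintype α] [Fintype β] [Fintype γ] [Fintype δ]
    [AddCommMonoid M] (f : α → β → γ → δ → M) :
    ∑ a, ∑ b, ∑ c, ∑ d, f a b c d = ∑ c, ∑ d, ∑ a, ∑ b, f a b c d := by
  have h : ∀ a, ∑ b, ∑ c, ∑ d, f a b c d = ∑ c, ∑ d, ∑ b, f a b c d := fun a => sum3 (f a)
  simp only [h]
  exact sum3 (fun a c d => ∑ b, f a b c d)

namespace Pl

variable (P : Pl σ k R) {Mo : Type*} [AddCommGroup Mo] [Module R Mo] [Module k Mo]
  [IsScalarTower k R Mo]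

/-- the space generated by a space in the next degree -/
def XM (F : Submodule k Mo) : Submodule k Mo :=
  Submodule.span k {n | ∃ i, ∃ m ∈ F, n = P.x i • m}

theorem x_mem_XM {F : Submodule k Mo} (i : σ) {m : Mo} (hm : m ∈ F) : P.x i • m ∈ P.XM F :=
  Submodule.subset_span ⟨i, m, hm, rfl⟩

theorem mem_XM {F : Submodule k Mo} {n : Mo} :
    n ∈ P.XM F ↔ ∃ z : σ → Mo, (∀ i, z i ∈ F) ∧ n = ∑ i, P.x i • z i := by
  classical
  constructor
  · intro hn
    refine Submodule.span_induction ?_ ?_ ?_ ?_ hn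
    · rintro _ ⟨i, m, hm, rfl⟩
      refine ⟨Pi.single i m, fun i' => ?_, ?_⟩
      · by_cases h : i' = i
        · rw [h, Pi.single_eq_same]
          exact hm
        · rw [Pi.single_eq_of_ne h]
          exact Submodule.zero_mem _
      · rw [Finset.sum_eq_single i]
        · rw [Pi.single_eq_same]
        · intro i' _ h
          rw [Pi.single_eq_of_ne h, smul_zero]
        · intro h
          exact absurd (Finset.mem_univ _) h
    · exact ⟨0, fun _ => Submodule.zero_mem _, by simp⟩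
    · rintro n m _ _ ⟨b, hb, rfl⟩ ⟨b', hb', rfl⟩
      exact ⟨b + b', fun s => Submodule.add_mem _ (hb s) (hb' s), by
        simp only [Pi.add_apply, smul_add, Finset.sum_add_distrib]⟩
    · rintro c n _ ⟨b, hb, rfl⟩
      exact ⟨c • b, fun s => Submodule.smul_mem _ c (hb s), by
        simp only [Pi.smul_apply, smul_smul_comm', Finset.smul_sum]⟩
  · rintro ⟨z, hz, rfl⟩
    exact Submodule.sum_mem _ fun i _ => P.x_mem_XM i (hz i)

theorem G0_iff {X : ℤ → Submodule k Mo} {a : ℤ} : P.G0 X a ↔ X (a + 1) ≤ P.XM (X a) := by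
  constructor
  · intro h n hn
    exact P.mem_XM.2 (h n hn)
  · intro h n hn
    exact P.mem_XM.1 (h hn)

end Pl

/-- a double extension of a regular algebra of dimension three -/
structure Bi (P : Pl σ k R) where
  U : ℕ → ℤ → Submodule k R
  v : Fin 2 → R
  u : Fin 2 → R
  U0 : ∀ a, U 0 a = P.A a
  hv : ∀ s, v s ∈ U 1 0
  hu : ∀ s, u s ∈ U 1 0
  uspan : ∀ y ∈ U 1 0, ∃ c : Fin 2 → k, y = ∑ s, c s • u s
  vspan : ∀ y ∈ U 1 0, ∃ c : Fin 2 → k, y = ∑ s, c s • v s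
  mul : ∀ i j : ℕ, ∀ a b : ℤ, ∀ y ∈ U i a, ∀ z ∈ U j b, y * z ∈ U (i + j) (a + b)
  genV : ∀ j a, ∀ y ∈ U (j + 1) a, ∃ z : Fin 2 → R, (∀ s, z s ∈ U j a) ∧ y = ∑ s, v s * z s
  genA : ∀ j : ℕ, ∀ a : ℤ, 0 ≤ a → ∀ y ∈ U j (a + 1),
    ∃ z : σ → R, (∀ i, z i ∈ U j a) ∧ y = ∑ i, P.x i * z i
  relV : ∑ s, v s * u s = 0
  exV : ∀ (j : ℕ) (a : ℤ) (b : Fin 2 → R), (∀ s, b s ∈ U (j + 1) a) → ∑ s, v s * b s = 0 →
    ∃ z ∈ U j a, ∀ s, b s = u s * z
  torV : ∀ (j : ℕ) (a : ℤ), ∀ z ∈ U j a, (∀ s, v s * z = 0) → z = 0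
  genU : ∀ (i j a b : ℕ), U (i + j) ((a : ℤ) + b) ≤ U i a * U j b
  bas : ∀ j : ℕ, ∃ C : Fin (j + 1) → R, (∀ β, C β ∈ U j 0) ∧
    (∀ a, ∀ y ∈ U j a, ∃ z : Fin (j + 1) → R, (∀ β, z β ∈ P.A a) ∧ y = ∑ β, z β * C β) ∧
    ∀ (a : ℤ) (z : Fin (j + 1) → R), (∀ β, z β ∈ P.A a) → ∑ β, z β * C β = 0 → ∀ β, z β = 0

namespace Bi

variable {P : Pl σ k R} (B : Bi P)

theorem amul {j : ℕ} {a b : ℤ} {y z : R} (hy : y ∈ P.A a) (hz : z ∈ B.U j b) :
    y * z ∈ B.U j (a + b) := by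
  rw [← B.U0] at hy
  have h1 := B.mul 0 j a b y hy z hz
  rwa [zero_add] at h1

theorem vmul {j : ℕ} {b : ℤ} {y z : R} (hy : y ∈ B.U 1 0) (hz : z ∈ B.U j b) :
    y * z ∈ B.U (j + 1) b := by
  have h1 := B.mul 1 j 0 b y hy z hz
  rwa [zero_add, add_comm] at h1

theorem Ustb (j : ℕ) : P.Stb (B.U j) := by
  intro a n hn i
  have h1 := B.amul (P.hx i) hn
  rwa [add_comm] at h1

/-- the presentation of `U j` by a free family -/
theorem pres (j : ℕ) : ∃ C : Fin (j + 1) → R,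
    (∀ a, ∀ y ∈ P.Fr (fun _ => 0) a, Pl.pr (k := k) C y ∈ B.U j a) ∧
    (∀ a, ∀ m ∈ B.U j a, ∃ y ∈ P.Fr (fun _ => 0) a, Pl.pr (k := k) C y = m) ∧
    ∀ a, ∀ y ∈ P.Fr (fun _ => 0) a, Pl.pr (k := k) C y = 0 → y = 0 := by
  obtain ⟨C, h0, h1, h2⟩ := B.bas j
  refine ⟨C, fun a y hy => ?_, fun a m hm => ?_, fun a y hy h => ?_⟩
  · rw [Pl.pr_apply]
    refine Submodule.sum_mem _ fun β _ => ?_
    have h3 := hy β
    rw [sub_zero] at h3
    have h4 := B.amul h3 (h0 β)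
    rwa [add_zero] at h4
  · obtain ⟨z, hz, rfl⟩ := h1 a m hm
    exact ⟨z, fun β => by rw [sub_zero]; exact hz β, rfl⟩
  · funext β
    exact h2 a y (fun β => by have h3 := hy β; rwa [sub_zero] at h3) h β

theorem U_neg (j : ℕ) {a : ℤ} (ha : a < 0) : B.U j a = ⊥ := by
  obtain ⟨C, -, h1, -⟩ := B.pres j
  rw [eq_bot_iff]
  intro m hm
  obtain ⟨y, hy, rfl⟩ := h1 a m hm
  have h2 : y = 0 := funext fun β => by
    have h3 := hy β
    rwa [sub_zero, P.neg a ha, Submodule.mem_bot] at h3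
  rw [h2, map_zero]
  exact Submodule.zero_mem _

/-- the linear equivalence of degree pieces -/
theorem fin_U (j : ℕ) (a : ℤ) : Module.Finite k (B.U j a) := by
  obtain ⟨C, h0, h1, -⟩ := B.pres j
  have := P.Fr_fin (fun _ : Fin (j + 1) => 0) a
  have h2 : B.U j a = (P.Fr (fun _ : Fin (j + 1) => 0) a).map (Pl.pr (k := k) C) := by
    ext m
    rw [Submodule.mem_map]
    exact ⟨fun h => h1 a m h, fun ⟨y, hy, h⟩ => h ▸ h0 a y hy⟩
  rw [h2]
  infer_instance

theorem U_H1 (j : ℕ) (a : ℤ) : P.H1 (B.U j) a := by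
  obtain ⟨C, h0, h1, h2⟩ := B.pres j
  intro n hn h
  choose y hy hyn using fun i => h1 _ _ (hn i)
  have h3 : ∑ i, P.x i • y i = 0 := h2 (a + 1) _
    (Submodule.sum_mem _ fun i _ => P.Fr_stb _ _ _ (hy i) i) (by
      rw [Pl.pr_sum]
      simp only [hyn]
      exact h)
  obtain ⟨m, hm, hym⟩ := P.Fr_H1 _ a y hy h3
  refine ⟨fun j => Pl.pr (k := k) C (m j), fun j => h0 _ _ (hm j), fun i => ?_⟩
  rw [← Pl.pr_sum, ← hym i, hyn]

theorem U_H2 (j : ℕ) (a : ℤ) : P.H2 (B.U j) a := by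
  obtain ⟨C, h0, h1, h2⟩ := B.pres j
  intro n hn h
  choose y hy hyn using fun i => h1 _ _ (hn i)
  have h3 : ∀ i, ∑ j, P.M i j • y j = 0 := fun i => h2 (P.l - 2 + a) _
    (Submodule.sum_mem _ fun j _ => (P.Fr_stb _).smul_mem (P := P) (P.hM i j) (hy j)) (by
      rw [Pl.pr_sum]
      simp only [hyn]
      exact h i)
  obtain ⟨e, he, hye⟩ := P.Fr_H2 _ a y hy h3
  refine ⟨Pl.pr (k := k) C e, h0 _ _ he, fun j => ?_⟩
  rw [← Pl.pr_smul, ← hye j, hyn]

theorem U_H3 (j : ℕ) (a : ℤ) : P.H3 (B.U j) a := by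
  obtain ⟨C, h0, h1, h2⟩ := B.pres j
  intro e he h
  obtain ⟨y, hy, rfl⟩ := h1 _ _ he
  have h3 : y = 0 := by
    funext β
    have h4 := hy β
    refine P.w_tor h4 fun i => ?_
    have h5 : P.w i • y = 0 := h2 (1 + a) _ ((P.Fr_stb _).smul_mem (P := P) (P.hw i) hy) (by
      rw [Pl.pr_smul]
      exact h i)
    exact congrFun h5 β
  rw [h3, map_zero]

/-- families which are saturated in the first direction -/
structure SatV (N : ℕ → ℤ → Submodule k R) : Prop where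
  le : ∀ j a, N j a ≤ B.U j a
  vst : ∀ j a, ∀ n ∈ N j a, ∀ s, B.v s * n ∈ N (j + 1) a
  satV : ∀ j a, ∀ n ∈ B.U j a, (∀ s, B.v s * n ∈ N (j + 1) a) → n ∈ N j a

/-- saturated families of left ideals -/
structure Sat (N : ℕ → ℤ → Submodule k R) : Prop extends B.SatV N where
  stb : ∀ j, P.Stb (N j)
  satA : ∀ j a, ∀ n ∈ B.U j a, (∀ i, P.x i * n ∈ N j (a + 1)) → n ∈ N j a

/-- `V N` -/
def VN (N : ℕ → ℤ → Submodule k R) (j : ℕ) (a : ℤ) : Submodule k R :=
  Submodule.span k {n | ∃ s, ∃ m ∈ N j a, n = B.v s * m}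

theorem mem_VN {N : ℕ → ℤ → Submodule k R} {j : ℕ} {a : ℤ} {n : R} :
    n ∈ B.VN N j a ↔ ∃ b : Fin 2 → R, (∀ s, b s ∈ N j a) ∧ n = ∑ s, B.v s * b s := by
  constructor
  · intro hn
    refine Submodule.span_induction ?_ ?_ ?_ ?_ hn
    · rintro _ ⟨s, m, hm, rfl⟩
      refine ⟨Pi.single s m, fun s' => ?_, ?_⟩
      · by_cases h : s' = s
        · rw [h, Pi.single_eq_same]
          exact hm
        · rw [Pi.single_eq_of_ne h]
          exact Submodule.zero_mem _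
      · rw [Finset.sum_eq_single s]
        · rw [Pi.single_eq_same]
        · intro s' _ h
          rw [Pi.single_eq_of_ne h, mul_zero]
        · intro h
          exact absurd (Finset.mem_univ _) h
    · exact ⟨0, fun _ => Submodule.zero_mem _, by simp⟩
    · rintro n m _ _ ⟨b, hb, rfl⟩ ⟨b', hb', rfl⟩
      exact ⟨b + b', fun s => Submodule.add_mem _ (hb s) (hb' s), by
        simp only [Pi.add_apply, mul_add, Finset.sum_add_distrib]⟩
    · rintro c n _ ⟨b, hb, rfl⟩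
      exact ⟨c • b, fun s => Submodule.smul_mem _ c (hb s), by
        simp only [Pi.smul_apply, mul_smul_comm, Finset.smul_sum]⟩
  · rintro ⟨b, hb, rfl⟩
    exact Submodule.sum_mem _ fun s _ => Submodule.subset_span ⟨s, b s, hb s, rfl⟩

variable {B}

namespace SatV

variable {N : ℕ → ℤ → Submodule k R} (S : B.SatV N)
include S

theorem V1 {j : ℕ} {a : ℤ} {t n : R} (ht : t ∈ B.U 1 0) (hn : n ∈ N j a) :
    t * n ∈ N (j + 1) a := by
  obtain ⟨c, rfl⟩ := B.vspan t ht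
  rw [Finset.sum_mul]
  refine Submodule.sum_mem _ fun s _ => ?_
  rw [smul_mul_assoc]
  exact Submodule.smul_mem _ _ (S.vst j a n hn s)

theorem VNle (j : ℕ) (a : ℤ) : B.VN N j a ≤ N (j + 1) a := by
  intro n hn
  obtain ⟨b, hb, rfl⟩ := B.mem_VN.1 hn
  exact Submodule.sum_mem _ fun s _ => S.vst j a _ (hb s) s

theorem V1mem {j : ℕ} {a : ℤ} {t n : R} (ht : t ∈ B.U 1 0) (hn : n ∈ N j a) :
    t * n ∈ B.VN N j a := by
  obtain ⟨c, rfl⟩ := B.vspan t ht
  rw [Finset.sum_mul]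
  refine Submodule.sum_mem _ fun s _ => ?_
  rw [smul_mul_assoc]
  exact Submodule.smul_mem _ _ (Submodule.subset_span ⟨s, n, hn, rfl⟩)

theorem neg (j : ℕ) {a : ℤ} (ha : a < 0) : N j a = ⊥ := by
  rw [eq_bot_iff, ← B.U_neg j ha]
  exact S.le j a

theorem fin (j : ℕ) (a : ℤ) : Module.Finite k (N j a) := by
  have := B.fin_U j a
  exact Submodule.finiteDimensional_of_le (S.le j a)

end SatV

namespace Sat

variable {N : ℕ → ℤ → Submodule k R} (S : B.Sat N)
include S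

theorem H2 (j : ℕ) (a : ℤ) : P.H2 (N j) a := by
  intro m hm h
  obtain ⟨e, he, hme⟩ := B.U_H2 j a m (fun i => S.le _ _ (hm i)) h
  refine ⟨e, S.satA j _ e he fun i => ?_, hme⟩
  obtain ⟨c, hc⟩ := P.wspan _ (P.hx i)
  rw [hc, Finset.sum_mul, sub_add_cancel]
  refine Submodule.sum_mem _ fun j' _ => ?_
  rw [smul_mul_assoc]
  have h1 := hme j'
  rw [smul_eq_mul] at h1
  rw [← h1]
  exact Submodule.smul_mem _ _ (hm j')

theorem H3 (j : ℕ) (a : ℤ) : P.H3 (N j) a := fun e he h => B.U_H3 j a e (S.le _ _ he) h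

theorem VN_stb (j : ℕ) : P.Stb (B.VN N j) := by
  intro a n hn i
  obtain ⟨b, hb, rfl⟩ := B.mem_VN.1 hn
  rw [smul_eq_mul, Finset.mul_sum]
  refine Submodule.sum_mem _ fun s _ => ?_
  have h1 := B.amul (P.hx i) (B.hv s)
  obtain ⟨z, hz, h2⟩ := B.genV 0 (1 + 0) _ h1
  rw [← mul_assoc, h2, Finset.sum_mul]
  refine Submodule.sum_mem _ fun s' _ => ?_
  rw [mul_assoc]
  refine Submodule.subset_span ⟨s', _, ?_, rfl⟩
  have h3 := hz s'
  rw [B.U0] at h3
  have h4 := (S.stb j).smul_mem (P := P) h3 (hb s)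
  rwa [show (1 : ℤ) + 0 + a = a + 1 by ring] at h4

theorem vx (s : Fin 2) (i : σ) :
    ∃ t : σ → R, (∀ i', t i' ∈ B.U 1 0) ∧ B.v s * P.x i = ∑ i', P.x i' * t i' := by
  refine B.genA 1 0 le_rfl _ ?_
  have hx := P.hx i
  rw [← B.U0] at hx
  exact B.mul 1 0 0 1 _ (B.hv s) _ hx

theorem VN_G0 {j : ℕ} {a : ℤ} (h : P.G0 (N j) a) : P.G0 (B.VN N j) a := by
  rw [P.G0_iff]
  refine Submodule.span_le.2 ?_
  rintro _ ⟨s, m, hm, rfl⟩
  obtain ⟨z, hz, rfl⟩ := h m hm
  rw [SetLike.mem_coe, Finset.mul_sum]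
  refine Submodule.sum_mem _ fun i _ => ?_
  obtain ⟨t, ht, hvt⟩ := S.vx s i
  rw [smul_eq_mul, ← mul_assoc, hvt, Finset.sum_mul]
  refine Submodule.sum_mem _ fun i' _ => ?_
  rw [mul_assoc]
  exact P.x_mem_XM i' (S.V1mem (ht i') (hz i))

/-- the relations of `V N` -/
theorem VN_H1 {j : ℕ} {a : ℤ} (h0 : P.G0 (N j) a) (h1 : P.H1 (N (j + 1)) a) :
    P.H1 (B.VN N (j + 1)) a := by
  classical
  have hl := P.l_pos
  intro n hn hrel
  choose θ hθ hvx using fun s i => S.vx s i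
  -- the elements `θ` span
  have hspan : ∀ (s : Fin 2) (i : σ), ∃ c : Fin 2 → σ → k, ∀ i' : σ,
      ∑ s', ∑ l, c s' l • θ s' l i' = if i' = i then B.v s else 0 := by
    intro s i
    have hxv : P.x i * B.v s ∈ B.U 1 1 := by
      have h2 := B.amul (P.hx i) (B.hv s)
      rwa [add_zero] at h2
    obtain ⟨z, hz, hxz⟩ := B.genV 0 1 _ hxv
    have h2 : ∀ s', ∃ c : σ → k, z s' = ∑ l, c l • P.x l := by
      intro s'
      have h3 := hz s'
      rw [B.U0] at h3
      obtain ⟨y, hy, hzy⟩ := P.gen 0 le_rfl (z s') (by simpa using h3)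
      choose c hc using fun l => P.scalar (hy l)
      refine ⟨c, ?_⟩
      rw [hzy]
      refine Finset.sum_congr rfl fun l _ => ?_
      rw [hc, mul_smul_comm, mul_one]
    choose c hc using h2
    refine ⟨c, ?_⟩
    have h4 : ∑ i', P.x i' • (∑ s', ∑ l, c s' l • θ s' l i' - if i' = i then B.v s else 0) = 0 := by
      simp only [smul_sub, Finset.sum_sub_distrib]
      rw [sub_eq_zero]
      have h5 : ∑ i', P.x i' • (if i' = i then B.v s else 0) = P.x i * B.v s := by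
        rw [Finset.sum_eq_single i]
        · rw [if_pos rfl, smul_eq_mul]
        · intro i' _ h
          rw [if_neg h, smul_zero]
        · intro h
          exact absurd (Finset.mem_univ _) h
      have h6 : ∀ s', B.v s' * z s' = ∑ l, ∑ i', c s' l • (P.x i' * θ s' l i') := by
        intro s'
        rw [hc, Finset.mul_sum]
        refine Finset.sum_congr rfl fun l _ => ?_
        rw [mul_smul_comm, hvx, Finset.smul_sum]
      rw [h5, hxz]
      simp only [h6, smul_eq_mul, Finset.mul_sum, mul_smul_comm]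
      rw [Finset.sum_comm]
      refine Finset.sum_congr rfl fun s' _ => ?_
      rw [Finset.sum_comm]
    obtain ⟨m, hm, h5⟩ := B.U_H1 1 0 _ (fun i' => Submodule.sub_mem _
      (Submodule.sum_mem _ fun s' _ => Submodule.sum_mem _ fun l _ =>
        Submodule.smul_mem _ _ (hθ s' l i')) (by
      split_ifs
      · exact B.hv s
      · exact Submodule.zero_mem _)) h4
    intro i'
    have h6 := h5 i'
    have h8 : ∑ j', P.M i' j' • m j' = 0 := Finset.sum_eq_zero fun j' _ => by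
      have h7 := hm j'
      rw [B.U_neg 1 (by omega), Submodule.mem_bot] at h7
      rw [h7, smul_zero]
    rw [h8] at h6
    exact sub_eq_zero.1 h6
  choose c hc using hspan
  choose b hb hnb using fun i => B.mem_VN.1 (hn i)
  -- new coordinates
  let b' : Fin 2 → σ → R := fun s' l => ∑ s, ∑ i, c s i s' l • b i s
  have hb' : ∀ s' l, b' s' l ∈ N (j + 1) a := fun s' l => Submodule.sum_mem _ fun s _ =>
    Submodule.sum_mem _ fun i _ => Submodule.smul_mem _ _ (hb i s)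
  have hnb' : ∀ i', n i' = ∑ s', ∑ l, θ s' l i' * b' s' l := by
    intro i'
    have h2 : ∀ s' l, θ s' l i' * b' s' l = ∑ s, ∑ i, (c s i s' l • θ s' l i') * b i s := by
      intro s' l
      simp only [b', Finset.mul_sum, mul_smul_comm, smul_mul_assoc]
    simp only [h2]
    have h3 : ∑ s', ∑ l, ∑ s, ∑ i, (c s i s' l • θ s' l i') * b i s =
        ∑ s, ∑ i, (∑ s', ∑ l, c s i s' l • θ s' l i') * b i s := by
      simp only [Finset.sum_mul]
      exact sum4 _
    rw [h3]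
    simp only [hc]
    rw [hnb i']
    refine Finset.sum_congr rfl fun s _ => ?_
    rw [Finset.sum_eq_single i']
    · rw [if_pos rfl]
    · intro i _ h
      rw [if_neg (Ne.symm h), zero_mul]
    · intro h
      exact absurd (Finset.mem_univ _) h
  -- the relation in the new coordinates
  have hrel' : ∑ s', B.v s' * ∑ l, P.x l * b' s' l = 0 := by
    rw [← hrel]
    simp only [hnb', smul_eq_mul, Finset.mul_sum, ← mul_assoc, hvx, Finset.sum_mul]
    exact (sum3 _).symm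
  obtain ⟨z, hz, huz⟩ := B.exV j (a + 1) (fun s' => ∑ l, P.x l * b' s' l) (fun s' =>
    S.le _ _ (Submodule.sum_mem _ fun l _ => S.stb _ _ _ (hb' s' l) l)) hrel'
  have hzN : z ∈ N j (a + 1) := by
    refine S.satV _ _ z hz fun s => ?_
    obtain ⟨e, he⟩ := B.uspan _ (B.hv s)
    rw [he, Finset.sum_mul]
    refine Submodule.sum_mem _ fun s' _ => ?_
    rw [smul_mul_assoc, ← huz s']
    exact Submodule.smul_mem _ _ (Submodule.sum_mem _ fun l _ => S.stb _ _ _ (hb' s' l) l)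
  obtain ⟨y, hy, rfl⟩ := h0 z hzN
  have hux : ∀ s i, ∃ t : σ → R, (∀ i', t i' ∈ B.U 1 0) ∧ B.u s * P.x i = ∑ i', P.x i' * t i' := by
    intro s i
    refine B.genA 1 0 le_rfl _ ?_
    have hx := P.hx i
    rw [← B.U0] at hx
    exact B.mul 1 0 0 1 _ (B.hu s) _ hx
  choose t ht hut using hux
  have hm : ∀ s', ∃ m : σ → R, (∀ j', m j' ∈ N (j + 1) (a - (P.l - 2))) ∧
      ∀ l, b' s' l - ∑ i, t s' i l * y i = ∑ j', P.M l j' * m j' := by
    intro s'
    refine h1 _ (fun l => Submodule.sub_mem _ (hb' s' l) (Submodule.sum_mem _ fun i _ =>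
      S.V1 (ht s' i l) (hy i))) ?_
    simp only [smul_eq_mul, mul_sub, Finset.sum_sub_distrib]
    rw [huz s']
    simp only [smul_eq_mul, Finset.mul_sum, ← mul_assoc, hut, Finset.sum_mul]
    rw [Finset.sum_comm, sub_self]
  choose m hm hbm using hm
  have hφ : ∀ i' i, ∑ s', ∑ l, θ s' l i' * t s' i l = 0 := by
    intro i' i
    obtain ⟨q, hq, h5⟩ := B.U_H1 2 0 (fun i' => ∑ s', ∑ l, θ s' l i' * t s' i l) (fun i' =>
      Submodule.sum_mem _ fun s' _ => Submodule.sum_mem _ fun l _ => by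
        have h6 := B.mul 1 1 0 0 _ (hθ s' l i') _ (ht s' i l)
        exact h6) (by
      have h6 : ∑ s', B.v s' * (B.u s' * P.x i) = 0 := by
        simp only [← mul_assoc]
        rw [← Finset.sum_mul, B.relV, zero_mul]
      rw [← h6]
      simp only [smul_eq_mul, hut, Finset.mul_sum, ← mul_assoc, hvx, Finset.sum_mul]
      exact sum3 _)
    rw [h5 i']
    refine Finset.sum_eq_zero fun j' _ => ?_
    have h7 := hq j'
    rw [B.U_neg 2 (by omega), Submodule.mem_bot] at h7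
    rw [h7, smul_zero]
  have hlam : ∀ s' j', ∃ lam : σ → R, (∀ j'', lam j'' ∈ B.U 1 0) ∧
      ∀ i, ∑ l, θ s' l i * P.M l j' = ∑ j'', P.M i j'' * lam j'' := by
    intro s' j'
    obtain ⟨q, hq, h5⟩ := B.U_H1 1 (P.l - 2) (fun i => ∑ l, θ s' l i * P.M l j') (fun i =>
      Submodule.sum_mem _ fun l _ => by
        have h6 := P.hM l j'
        rw [← B.U0] at h6
        have h7 := B.mul 1 0 0 _ _ (hθ s' l i) _ h6
        rwa [zero_add] at h7) (by
      have h6 : B.v s' * ∑ l, P.x l * P.M l j' = 0 := by rw [P.rel1, mul_zero]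
      rw [← h6]
      simp only [smul_eq_mul, Finset.mul_sum, ← mul_assoc, hvx, Finset.sum_mul]
      rw [Finset.sum_comm])
    refine ⟨q, fun j'' => ?_, h5⟩
    have h6 := hq j''
    rwa [show P.l - 2 - (P.l - 2) = 0 by ring] at h6
  choose lam hlam hle using hlam
  refine ⟨fun j'' => ∑ s', ∑ j', lam s' j' j'' * m s' j', fun j'' => Submodule.sum_mem _ fun s' _ =>
    Submodule.sum_mem _ fun j' _ => S.V1mem (hlam s' j' j'') (hm s' j'), fun i => ?_⟩
  have h8 : ∀ s' l, b' s' l = ∑ i', t s' i' l * y i' + ∑ j', P.M l j' * m s' j' := by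
    intro s' l
    rw [← hbm s' l]
    abel
  have h9 : ∑ s', ∑ l, θ s' l i * ∑ i', t s' i' l * y i' = 0 := by
    have h10 : ∑ s', ∑ l, θ s' l i * ∑ i', t s' i' l * y i' =
        ∑ i', (∑ s', ∑ l, θ s' l i * t s' i' l) * y i' := by
      simp only [Finset.mul_sum, ← mul_assoc, Finset.sum_mul]
      exact (sum3 _).symm
    rw [h10]
    exact Finset.sum_eq_zero fun i' _ => by rw [hφ, zero_mul]
  have h11 : ∀ s', ∑ l, θ s' l i * ∑ j', P.M l j' * m s' j' =
      ∑ j', ∑ j'', P.M i j'' * lam s' j' j'' * m s' j' := by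
    intro s'
    simp only [Finset.mul_sum, ← mul_assoc]
    rw [Finset.sum_comm]
    refine Finset.sum_congr rfl fun j' _ => ?_
    rw [← Finset.sum_mul, hle s' j' i, Finset.sum_mul]
  rw [hnb' i]
  simp only [h8, mul_add, Finset.sum_add_distrib]
  rw [h9, zero_add, Finset.sum_congr rfl fun s' _ => h11 s']
  simp only [smul_eq_mul, Finset.mul_sum, ← mul_assoc]
  exact (sum3 fun j'' s' j' => P.M i j'' * lam s' j' j'' * m s' j').symm

end Sat

end Bi

end Pool.Agent.Lib.NOreP
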