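import Mathlib

/-!
# NOreP/Defs: double extensions of regular algebras of dimension three, and their deformations
-/

set_option autoImplicit false

namespace Pool.Agent.Lib.NOreP

variable {k G : Type*} [Field k] [Ring G] [Algebra k G]

/-- the component of integral degree `z`, zero if `z` is negative -/
def zd (A : ℕ → Submodule k G) (z : ℤ) : Submodule k G := if 0 ≤ z then A z.toNat else ⊥

/-- The family `A` of subspaces of `G` is the family of components of a regular algebra of
dimension three generated in degree one, with generators `x` and the matrix `M` of its relations: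
either three generators and quadratic relations (entries of `M` of degree `d = 1`) or two generators
and cubic relations (`d = 2`); the row vector `x` times `M` and `M` times the column vector `x`
vanish, and the two Koszul complexes (left and right multiplications) are exact. -/
structure IsRegThree (A : ℕ → Submodule k G) (r d : ℕ) (x : Fin r → G) (M : Fin r → Fin r → G) :
    Prop where
  typ : (r = 3 ∧ d = 1) ∨ (r = 2 ∧ d = 2)
  one_ne : (1 : G) ≠ 0
  zero : A 0 = 1
  mul : ∀ m n, A m * A n = A (m + n)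
  gen : A 1 = Submodule.span k (Set.range x)
  mat : ∀ i j, M i j ∈ A d
  relL : ∀ j, ∑ i, x i * M i j = 0
  relR : ∀ i, ∑ j, M i j * x j = 0
  exL1 : ∀ (a : ℕ) (n : Fin r → G), (∀ i, n i ∈ A a) → ∑ i, x i * n i = 0 →
    ∃ m : Fin r → G, (∀ j, m j ∈ zd A (a - d)) ∧ ∀ i, n i = ∑ j, M i j * m j
  exL2 : ∀ (a : ℕ) (m : Fin r → G), (∀ j, m j ∈ A a) → (∀ i, ∑ j, M i j * m j = 0) →
    ∃ e ∈ zd A (a - 1), ∀ j, m j = x j * e
  exR1 : ∀ (a : ℕ) (n : Fin r → G), (∀ j, n j ∈ A a) → ∑ j, n j * x j = 0 →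
    ∃ m : Fin r → G, (∀ i, m i ∈ zd A (a - d)) ∧ ∀ j, n j = ∑ i, m i * M i j
  exR2 : ∀ (a : ℕ) (m : Fin r → G), (∀ i, m i ∈ A a) → (∀ j, ∑ i, m i * M i j = 0) →
    ∃ e ∈ zd A (a - 1), ∀ i, m i = e * x i

/-- `A` has no zero divisors and its graded left and right ideals are finitely generated. -/
structure IsNoethDomain (A : ℕ → Submodule k G) : Prop where
  dom : ∀ m n, ∀ y ∈ A m, ∀ z ∈ A n, y * z = 0 → y = 0 ∨ z = 0
  left : ∀ X : ℕ → Submodule k G, (∀ a, X a ≤ A a) → (∀ a, A 1 * X a ≤ X (a + 1)) →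
    ∃ s, ∀ a, s ≤ a → X (a + 1) ≤ A 1 * X a
  right : ∀ X : ℕ → Submodule k G, (∀ a, X a ≤ A a) → (∀ a, X a * A 1 ≤ X (a + 1)) →
    ∃ s, ∀ a, s ≤ a → X (a + 1) ≤ X a * A 1

/-- `G` is bigraded with components `U j a`; the algebra `U 0` is regular of dimension three, and
`G` is a twisted tensor product of `U 0` and the algebra with the components `U j 0`, which is
regular of dimension two: `U i a * U j b = U (i + j) (a + b)`, the dimension of `U j a` is `j + 1`
times that of `U 0 a`, and the products of nonzero elements of `U 1 0` are not zero. -/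
structure IsDoubleExt (U : ℕ → ℕ → Submodule k G) (r d : ℕ) (x : Fin r → G)
    (M : Fin r → Fin r → G) : Prop where
  reg : IsRegThree (U 0) r d x M
  noe : IsNoethDomain (U 0)
  mul : ∀ i j a b, U i a * U j b = U (i + j) (a + b)
  dim : ∀ j a, Module.finrank k (U j a) = (j + 1) * Module.finrank k (U 0 a)
  two : ∀ u ∈ U 1 0, ∀ w ∈ U 1 0, u * w = 0 → u = 0 ∨ w = 0

variable {R : Type*} [Ring R] [Algebra k R]

/-- the sum of the `F m` with `m ≺ n` -/
def lowP (lt : ℕ × ℕ → ℕ × ℕ → Prop) (F : ℕ × ℕ → Submodule k R) (n : ℕ × ℕ) :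
    Submodule k R := ⨆ m : ℕ × ℕ, ⨆ _ : lt m n, F m

/-- `R` is filtered by the subspaces `F n`, with associated graded algebra the bigraded algebra
with the components `U j a`; the isomorphism is given by the symbol maps `θ n`. -/
structure IsDeformation (U : ℕ → ℕ → Submodule k G) (lt : ℕ × ℕ → ℕ × ℕ → Prop)
    (F : ℕ × ℕ → Submodule k R) (θ : ∀ n, F n →ₗ[k] G) : Prop where
  mono : ∀ m n, lt m n → F m ≤ F n
  exh : ∀ y : R, ∃ n, y ∈ F n
  mul : ∀ m n, ∀ y ∈ F m, ∀ z ∈ F n, y * z ∈ F (m + n)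
  range : ∀ n, LinearMap.range (θ n) = U n.1 n.2
  ker : ∀ n (y : F n), θ n y = 0 ↔ (y : R) ∈ lowP lt F n
  symb : ∀ m n (y : F m) (z : F n) (w : F (m + n)), (w : R) = y * z → θ (m + n) w = θ m y * θ n z

end Pool.Agent.Lib.NOreP
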