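import Pool.Agent.Lib.NOreP.Fs

/-!
# NOreP/Dst: uniform regularity passes to saturated families with bounded quotient
-/

set_option autoImplicit false

namespace Pool.Agent.Lib.NOreP

namespace Pl

variable {σ : Type} [Fintype σ] {k R : Type*} [Field k] [Ring R] [Algebra k R] (P : Pl σ k R)
variable {Mo : Type*} [AddCommGroup Mo] [Module R Mo] [Module k Mo] [IsScalarTower k R Mo]

/-- finite coverings by free families -/
theorem cover {N : ℤ → Submodule k Mo} (hf : ∀ a, Module.Finite k (N a))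
    (hneg : ∀ a, a < 0 → N a = ⊥) (s : ℕ) :
    ∃ (ι : Type) (_ : Fintype ι) (c : ι → ℤ) (g : ι → Mo), (∀ i, c i < s) ∧
      (∀ i, g i ∈ N (c i)) ∧ ∀ a : ℤ, a < s → ∀ m ∈ N a, ∃ y ∈ P.Fr c a, ∑ i, y i • g i = m := by
  induction s with
  | zero =>
    refine ⟨Fin 0, inferInstance, Fin.elim0, Fin.elim0, fun i => i.elim0, fun i => i.elim0,
      fun a ha m hm => ⟨0, Submodule.zero_mem _, ?_⟩⟩
    rw [hneg a (by exact_mod_cast ha), Submodule.mem_bot] at hm
    rw [hm]
    simp
  | succ s ih =>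
    obtain ⟨ι, _, c, g, h1, h2, h3⟩ := ih
    have := hf s
    let b := Module.finBasis k (N s)
    refine ⟨ι ⊕ Fin (Module.finrank k (N s)), inferInstance, Sum.elim c fun _ => (s : ℤ),
      Sum.elim g fun i => (b i : Mo), ?_, ?_, fun a ha m hm => ?_⟩
    · rintro (i | i)
      · have := h1 i
        simp only [Sum.elim_inl]
        push_cast
        omega
      · simp only [Sum.elim_inr]
        push_cast
        omega
    · rintro (i | i)
      · exact h2 i
      · exact (b i).2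
    · rcases lt_or_ge a (s : ℤ) with h4 | h4
      · obtain ⟨y, hy, hym⟩ := h3 a h4 m hm
        refine ⟨Sum.elim y fun _ => 0, ?_, ?_⟩
        · rintro (i | i)
          · exact hy i
          · exact Submodule.zero_mem _
        · rw [Fintype.sum_sum_type]
          simp [hym]
      · obtain rfl : a = s := by push_cast at ha; omega
        refine ⟨Sum.elim (fun _ => 0) fun i => (b.repr ⟨m, hm⟩ i) • (1 : R), ?_, ?_⟩
        · rintro (i | i)
          · exact Submodule.zero_mem _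
          · simp only [Sum.elim_inr, sub_self]
            exact Submodule.smul_mem _ _ P.one
        · rw [Fintype.sum_sum_type]
          simp only [Sum.elim_inl, Sum.elim_inr, zero_smul, Finset.sum_const_zero, zero_add,
            smul_assoc, one_smul]
          have h5 := congrArg Subtype.val (b.sum_repr ⟨m, hm⟩)
          simpa only [Submodule.coe_sum, Submodule.coe_smul] using h5

/-- the presentation map -/
noncomputable def pr {ι : Type} [Fintype ι] (g : ι → Mo) : (ι → R) →ₗ[k] Mo :=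
  (Fintype.linearCombination R g).restrictScalars k

theorem pr_apply {ι : Type} [Fintype ι] (g : ι → Mo) (y : ι → R) :
    pr (k := k) g y = ∑ i, y i • g i := rfl

theorem pr_smul {ι : Type} [Fintype ι] (g : ι → Mo) (z : R) (y : ι → R) :
    pr (k := k) g (z • y) = z • pr (k := k) g y :=
  (Fintype.linearCombination R g).map_smul z y

theorem pr_sum {ι : Type} [Fintype ι] {τ : Type} [Fintype τ] (g : ι → Mo) (z : τ → R)
    (y : τ → ι → R) :
    pr (k := k) g (∑ t, z t • y t) = ∑ t, z t • pr (k := k) g (y t) := by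
  rw [map_sum]
  exact Finset.sum_congr rfl fun t _ => pr_smul g _ _

/-- the kernel of a presentation -/
noncomputable def Kr {ι : Type} [Fintype ι] (c : ι → ℤ) (g : ι → Mo) (a : ℤ) :
    Submodule k (ι → R) := P.Fr c a ⊓ LinearMap.ker (pr (k := k) g)

/-- the preimage of a family under a presentation -/
noncomputable def Pre {ι : Type} [Fintype ι] (c : ι → ℤ) (g : ι → Mo) (N : ℤ → Submodule k Mo)
    (a : ℤ) : Submodule k (ι → R) := P.Fr c a ⊓ (N a).comap (pr (k := k) g)

section Pres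

variable {ι : Type} [Fintype ι] {c : ι → ℤ} {g : ι → Mo}

theorem mem_Kr {a : ℤ} {y : ι → R} :
    y ∈ P.Kr c g a ↔ y ∈ P.Fr c a ∧ pr (k := k) g y = 0 := by
  rw [Kr, Submodule.mem_inf, LinearMap.mem_ker]

theorem mem_Pre {N : ℤ → Submodule k Mo} {a : ℤ} {y : ι → R} :
    y ∈ P.Pre c g N a ↔ y ∈ P.Fr c a ∧ pr (k := k) g y ∈ N a := by
  rw [Pre, Submodule.mem_inf, Submodule.mem_comap]

theorem Kr_stb : P.Stb (P.Kr c g) := by
  intro a n hn i
  rw [mem_Kr] at hn ⊢
  exact ⟨P.Fr_stb c a n hn.1 i, by rw [pr_smul, hn.2, smul_zero]⟩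

theorem Pre_stb {N : ℤ → Submodule k Mo} (hN : P.Stb N) : P.Stb (P.Pre c g N) := by
  intro a n hn i
  rw [mem_Pre] at hn ⊢
  exact ⟨P.Fr_stb c a n hn.1 i, by
    rw [pr_smul]
    exact hN _ _ hn.2 i⟩

theorem Kr_H1 {N : ℤ → Submodule k Mo} (hgN : ∀ a, ∀ y ∈ P.Fr c a, pr (k := k) g y ∈ N a)
    (hs : ∀ a, ∀ m ∈ N a, ∃ y ∈ P.Fr c a, pr (k := k) g y = m) (h2 : ∀ a, P.H2 N a) (a : ℤ) :
    P.H1 (P.Kr c g) a := by
  intro n hn h
  obtain ⟨m, hm, hnm⟩ := P.Fr_H1 c a n (fun i => ((P.mem_Kr).1 (hn i)).1) h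
  obtain ⟨e, he, hme⟩ := h2 (a - (P.l - 2)) (fun j => pr (k := k) g (m j))
    (fun j => hgN _ _ (hm j)) (fun i => by
      rw [← pr_sum, ← hnm i]
      exact ((P.mem_Kr).1 (hn i)).2)
  obtain ⟨f, hf, rfl⟩ := hs _ e he
  refine ⟨fun j => m j - P.w j • f, fun j => (P.mem_Kr).2 ⟨Submodule.sub_mem _ (hm j) ?_, ?_⟩,
    fun i => ?_⟩
  · have h3 := (P.Fr_stb c).smul_mem (P := P) (P.hw j) hf
    rwa [show 1 + (a - (P.l - 2) - 1) = a - (P.l - 2) by ring] at h3
  · rw [map_sub, pr_smul, hme j, sub_self]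
  · rw [hnm i]
    simp only [smul_sub, Finset.sum_sub_distrib, ← mul_smul]
    rw [← Finset.sum_smul, P.rel2, zero_smul, sub_zero]

theorem Kr_G0 {N : ℤ → Submodule k Mo} (hgN : ∀ a, ∀ y ∈ P.Fr c a, pr (k := k) g y ∈ N a)
    (hs : ∀ a, ∀ m ∈ N a, ∃ y ∈ P.Fr c a, pr (k := k) g y = m) {a : ℤ} (hc : ∀ i, c i ≤ a)
    (h1 : P.H1 N a) : P.G0 (P.Kr c g) a := by
  intro n hn
  rw [mem_Kr] at hn
  obtain ⟨z, hz, hnz⟩ := P.Fr_gen c a (fun i => by have := hc i; omega) n hn.1
  obtain ⟨m, hm, hzm⟩ := h1 (fun i => pr (k := k) g (z i)) (fun i => hgN _ _ (hz i)) (by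
    rw [← pr_sum, ← hnz, hn.2])
  choose f hf hfm using fun j => hs _ _ (hm j)
  refine ⟨fun i => z i - ∑ j, P.M i j • f j, fun i => (P.mem_Kr).2
    ⟨Submodule.sub_mem _ (hz i) (Submodule.sum_mem _ fun j _ => ?_), ?_⟩, ?_⟩
  · have h3 := (P.Fr_stb c).smul_mem (P := P) (P.hM i j) (hf j)
    rwa [show P.l - 2 + (a - (P.l - 2)) = a by ring] at h3
  · rw [map_sub, pr_sum, hzm i]
    simp only [hfm, sub_self]
  · rw [hnz]
    simp only [smul_sub, Finset.sum_sub_distrib, Finset.smul_sum, ← mul_smul]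
    have h4 : ∑ i, ∑ j, (P.x i * P.M i j) • f j = 0 := by
      rw [Finset.sum_comm]
      refine Finset.sum_eq_zero fun j _ => ?_
      rw [← Finset.sum_smul, P.rel1, zero_smul]
    rw [h4, sub_zero]

/-- dimensions in a presentation -/
theorem pres_dim {N N' : ℤ → Submodule k Mo} (hN' : ∀ a, N' a ≤ N a)
    (hgN : ∀ a, ∀ y ∈ P.Fr c a, pr (k := k) g y ∈ N a)
    (hs : ∀ a, ∀ m ∈ N a, ∃ y ∈ P.Fr c a, pr (k := k) g y = m) (a : ℤ) :
    Module.finrank k (P.Fr c a) + Module.finrank k (N' a) =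
      Module.finrank k (P.Pre c g N' a) + Module.finrank k (N a) := by
  have := P.Fr_fin c a
  have hfin : Module.Finite k (P.Pre c g N' a) :=
    Submodule.finiteDimensional_of_le (inf_le_left)
  have key : ∀ (E : Submodule k (ι → R)) (F : Submodule k Mo), Module.Finite k E →
      (P.Kr c g a ≤ E) → E ≤ P.Fr c a → (E.map (pr (k := k) g) = F) →
      Module.finrank k E = Module.finrank k F + Module.finrank k (P.Kr c g a) := by
    intro E F hE hK hle hmap
    have h1 := LinearMap.finrank_range_add_finrank_ker ((pr (k := k) g).domRestrict E)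
    have h2 : LinearMap.range ((pr (k := k) g).domRestrict E) = F := by
      rw [← hmap]
      ext m
      simp [Submodule.mem_map]
    have h3 : (LinearMap.ker ((pr (k := k) g).domRestrict E)).map E.subtype = P.Kr c g a := by
      ext y
      rw [Submodule.mem_map]
      constructor
      · rintro ⟨⟨z, hz⟩, h4, rfl⟩
        exact (P.mem_Kr).2 ⟨hle hz, LinearMap.mem_ker.1 h4⟩
      · intro h4
        exact ⟨⟨y, hK h4⟩, LinearMap.mem_ker.2 ((P.mem_Kr).1 h4).2, rfl⟩
    have h4 := (Submodule.equivMapOfInjective E.subtype Subtype.val_injective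
      (LinearMap.ker ((pr (k := k) g).domRestrict E))).finrank_eq
    rw [h3] at h4
    rw [h2] at h1
    omega
  have e1 := key (P.Fr c a) (N a) (P.Fr_fin c a) inf_le_left le_rfl (by
    ext m
    rw [Submodule.mem_map]
    exact ⟨fun ⟨y, hy, h⟩ => h ▸ hgN a y hy, fun h => hs a m h⟩)
  have e2 := key (P.Pre c g N' a) (N' a) hfin (fun y hy => (P.mem_Pre).2
    ⟨((P.mem_Kr).1 hy).1, by rw [((P.mem_Kr).1 hy).2]; exact Submodule.zero_mem _⟩) inf_le_left (by
    ext m
    rw [Submodule.mem_map]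
    constructor
    · rintro ⟨y, hy, rfl⟩
      exact ((P.mem_Pre).1 hy).2
    · intro h
      obtain ⟨y, hy, rfl⟩ := hs a m (hN' a h)
      exact ⟨y, (P.mem_Pre).2 ⟨hy, h⟩, rfl⟩)
  omega

end Pres

end Pl

end Pool.Agent.Lib.NOreP
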