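import Pool.Agent.Lib.NOreP.Fam

/-!
# NOreP/Eul: the Euler characteristic of the Koszul complex
-/

set_option autoImplicit false

namespace Pool.Agent.Lib.NOreP

namespace Pl

variable {σ : Type} [Fintype σ] {k R : Type*} [Field k] [Ring R] [Algebra k R] (P : Pl σ k R)
variable {Mo : Type*} [AddCommGroup Mo] [Module R Mo] [Module k Mo] [IsScalarTower k R Mo]

/-- the third Koszul homology vanishes -/
def H3 (X : ℤ → Submodule k Mo) (a : ℤ) : Prop := ∀ e ∈ X a, (∀ j, P.w j • e = 0) → e = 0

/-- the dimension function of a family -/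
noncomputable def dm (X : ℤ → Submodule k Mo) (a : ℤ) : ℤ := (Module.finrank k (X a) : ℤ)

/-- multiplication as a linear map -/
noncomputable def mulL (Mo : Type*) [AddCommGroup Mo] [Module R Mo] [Module k Mo]
    [IsScalarTower k R Mo] (y : R) : Mo →ₗ[k] Mo := Algebra.lsmul k k Mo y

theorem mulL_apply (y : R) (n : Mo) : mulL (k := k) Mo y n = y • n := rfl

theorem euler {X : ℤ → Submodule k Mo} (hX : P.Stb X) (hf : ∀ a, Module.Finite k (X a)) {a : ℤ}
    (g0 : P.G0 X (a - 1)) (h1 : P.H1 X (a - 1)) (h2 : P.H2 X (a - (P.l - 1)))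
    (h3 : P.H3 X (a - P.l)) : Th (Fintype.card σ) P.l (dm X) a = 0 := by
  classical
  have := fun a => hf a
  let f1 : (σ → X (a - 1)) →ₗ[k] Mo :=
    ∑ i, (mulL Mo (P.x i)) ∘ₗ (X (a - 1)).subtype ∘ₗ LinearMap.proj i
  let inc : (σ → X (a - 1)) →ₗ[k] (σ → Mo) :=
    LinearMap.pi fun i => (X (a - 1)).subtype ∘ₗ LinearMap.proj i
  let f2 : (σ → X (a - (P.l - 1))) →ₗ[k] (σ → Mo) := LinearMap.pi fun i =>
    ∑ j, (mulL Mo (P.M i j)) ∘ₗ (X (a - (P.l - 1))).subtype ∘ₗ LinearMap.proj j
  let inc2 : (σ → X (a - (P.l - 1))) →ₗ[k] (σ → Mo) :=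
    LinearMap.pi fun i => (X (a - (P.l - 1))).subtype ∘ₗ LinearMap.proj i
  let f3 : X (a - P.l) →ₗ[k] (σ → Mo) := LinearMap.pi fun j =>
    (mulL Mo (P.w j)) ∘ₗ (X (a - P.l)).subtype
  have e1 : ∀ n : σ → X (a - 1), f1 n = ∑ i, P.x i • (n i : Mo) := by
    intro n
    simp only [f1, LinearMap.sum_apply, LinearMap.comp_apply, LinearMap.proj_apply,
      Submodule.subtype_apply, mulL_apply]
  have e2 : ∀ (m : σ → X (a - (P.l - 1))) (i : σ), f2 m i = ∑ j, P.M i j • (m j : Mo) := by
    intro m i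
    simp only [f2, LinearMap.pi_apply, LinearMap.sum_apply, LinearMap.comp_apply,
      LinearMap.proj_apply, Submodule.subtype_apply, mulL_apply]
  have e3 : ∀ (e : X (a - P.l)) (j : σ), f3 e j = P.w j • (e : Mo) := fun _ _ => rfl
  have hinc : Function.Injective inc := by
    intro p q hpq
    funext i
    exact Subtype.ext (congrFun hpq i)
  have hinc2 : Function.Injective inc2 := by
    intro p q hpq
    funext i
    exact Subtype.ext (congrFun hpq i)
  have r1 : LinearMap.range f1 = X a := by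
    apply le_antisymm
    · rintro _ ⟨n, rfl⟩
      rw [e1]
      refine Submodule.sum_mem _ fun i _ => ?_
      have h5 := hX (a - 1) _ (n i).2 i
      rwa [sub_add_cancel] at h5
    · intro n hn
      obtain ⟨z, hz, hnz⟩ := g0 n (by rwa [sub_add_cancel])
      exact ⟨fun i => ⟨z i, hz i⟩, by rw [e1, hnz]⟩
  have r2 : LinearMap.range f2 = (LinearMap.ker f1).map inc := by
    apply le_antisymm
    · rintro _ ⟨m, rfl⟩
      have h5 : ∀ i, f2 m i ∈ X (a - 1) := by
        intro i
        rw [e2]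
        refine Submodule.sum_mem _ fun j _ => ?_
        have h6 := hX.smul_mem (P := P) (P.hM i j) (m j).2
        rwa [show P.l - 2 + (a - (P.l - 1)) = a - 1 by ring] at h6
      refine ⟨fun i => ⟨f2 m i, h5 i⟩, ?_, rfl⟩
      rw [SetLike.mem_coe, LinearMap.mem_ker, e1]
      simp only [e2, Finset.smul_sum, ← mul_smul]
      rw [Finset.sum_comm]
      refine Finset.sum_eq_zero fun j _ => ?_
      rw [← Finset.sum_smul, P.rel1, zero_smul]
    · rintro _ ⟨n, hn, rfl⟩
      rw [SetLike.mem_coe, LinearMap.mem_ker, e1] at hn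
      obtain ⟨m, hm, hnm⟩ := h1 _ (fun i => (n i).2) hn
      have h5 : ∀ j, m j ∈ X (a - (P.l - 1)) := by
        intro j
        have h6 := hm j
        rwa [show a - 1 - (P.l - 2) = a - (P.l - 1) by ring] at h6
      refine ⟨fun j => ⟨m j, h5 j⟩, ?_⟩
      funext i
      rw [e2]
      exact (hnm i).symm
  have r3 : LinearMap.range f3 = (LinearMap.ker f2).map inc2 := by
    apply le_antisymm
    · rintro _ ⟨e, rfl⟩
      have h5 : ∀ j, f3 e j ∈ X (a - (P.l - 1)) := by
        intro j
        rw [e3]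
        have h6 := hX.smul_mem (P := P) (P.hw j) e.2
        rwa [show 1 + (a - P.l) = a - (P.l - 1) by ring] at h6
      refine ⟨fun i => ⟨f3 e i, h5 i⟩, ?_, rfl⟩
      rw [SetLike.mem_coe, LinearMap.mem_ker]
      funext i
      rw [e2]
      simp only [e3, ← mul_smul]
      rw [← Finset.sum_smul, P.rel2, zero_smul]
      rfl
    · rintro _ ⟨m, hm, rfl⟩
      rw [SetLike.mem_coe, LinearMap.mem_ker] at hm
      obtain ⟨e, he, hme⟩ := h2 (fun j => (m j : Mo)) (fun j => (m j).2) (fun i => by
        rw [← e2, hm]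
        rfl)
      refine ⟨⟨e, by rwa [show a - P.l = a - (P.l - 1) - 1 by ring]⟩, ?_⟩
      funext j
      rw [e3]
      exact (hme j).symm
  have k3 : LinearMap.ker f3 = ⊥ := by
    rw [LinearMap.ker_eq_bot']
    intro e he
    exact Subtype.ext (h3 _ e.2 fun j => by
      rw [← e3, he]
      rfl)
  have d1 := LinearMap.finrank_range_add_finrank_ker f1
  have d2 := LinearMap.finrank_range_add_finrank_ker f2
  have d3 := LinearMap.finrank_range_add_finrank_ker f3
  rw [r1, Module.finrank_pi_fintype] at d1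
  rw [r2, (Submodule.equivMapOfInjective inc hinc _).symm.finrank_eq,
    Module.finrank_pi_fintype] at d2
  rw [r3, (Submodule.equivMapOfInjective inc2 hinc2 _).symm.finrank_eq, k3, finrank_bot] at d3
  simp only [Finset.sum_const, Finset.card_univ, smul_eq_mul] at d1 d2
  unfold Th dm
  zify at d1 d2 d3
  linarith

/-- the Euler characteristic of the algebra itself -/
theorem theta (a : ℤ) : Th (Fintype.card σ) P.l P.h a = if a = 0 then 1 else 0 := by
  have hl := P.l_pos
  rcases lt_trichotomy a 0 with h1 | h1 | h1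
  · rw [if_neg (by omega)]
    unfold Th
    rw [P.h_neg h1, P.h_neg (by omega), P.h_neg (by omega), P.h_neg (by omega)]
    ring
  · subst h1
    rw [if_pos rfl]
    unfold Th
    rw [P.h_neg (show (0 : ℤ) - 1 < 0 by omega), P.h_neg (show 0 - (P.l - 1) < 0 by omega),
      P.h_neg (show 0 - P.l < 0 by omega)]
    unfold h
    rw [P.zero]
    norm_num
  · rw [if_neg (by omega)]
    refine P.euler (X := P.A) (fun b n hn i => ?_) P.fin ?_ ?_ ?_ ?_
    · have h2 := P.mul 1 b _ (P.hx i) _ hn
      rwa [add_comm] at h2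
    · exact fun n hn => P.gen _ (by omega) n hn
    · exact fun n hn h => P.ex1 _ n hn h
    · exact fun m hm h => P.ex2 _ m hm h
    · exact fun e he h => P.w_tor he h

theorem gro : Gro P.l P.h := gro_of_theta P.typ (fun _ h => P.h_neg h) P.theta

end Pl

end Pool.Agent.Lib.NOreP
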