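import Pool.Agent.Lib.NOreP.NumC

/-!
# NOreP/Fam: graded families over a regular algebra of dimension three
-/

set_option autoImplicit false

namespace Pool.Agent.Lib.NOreP

variable (σ : Type) [Fintype σ] (k R : Type*) [Field k] [Ring R] [Algebra k R]

/-- a regular algebra of dimension three which is generated in degree one: graded pieces `A a`,
generators `x`, the matrix `M` of the relations (entries of degree `l - 2`), the second basis `w` -/
structure Pl where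
  A : ℤ → Submodule k R
  x : σ → R
  w : σ → R
  M : σ → σ → R
  l : ℤ
  typ : Typ (Fintype.card σ) l
  neg : ∀ a, a < 0 → A a = ⊥
  fin : ∀ a, Module.Finite k (A a)
  zero : Module.finrank k (A 0) = 1
  one : (1 : R) ∈ A 0
  mul : ∀ m n : ℤ, ∀ y ∈ A m, ∀ z ∈ A n, y * z ∈ A (m + n)
  hx : ∀ i, x i ∈ A 1
  hw : ∀ i, w i ∈ A 1
  hM : ∀ i j, M i j ∈ A (l - 2)
  gen : ∀ a : ℤ, 0 ≤ a → ∀ y ∈ A (a + 1), ∃ z : σ → R, (∀ i, z i ∈ A a) ∧ y = ∑ i, x i * z i
  wspan : ∀ y ∈ A 1, ∃ c : σ → k, y = ∑ j, c j • w j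
  dom : ∀ m n : ℤ, ∀ y ∈ A m, ∀ z ∈ A n, y * z = 0 → y = 0 ∨ z = 0
  rel1 : ∀ j, ∑ i, x i * M i j = 0
  rel2 : ∀ i, ∑ j, M i j * w j = 0
  ex1 : ∀ (a : ℤ) (n : σ → R), (∀ i, n i ∈ A a) → ∑ i, x i * n i = 0 →
    ∃ m : σ → R, (∀ j, m j ∈ A (a - (l - 2))) ∧ ∀ i, n i = ∑ j, M i j * m j
  ex2 : ∀ (a : ℤ) (m : σ → R), (∀ j, m j ∈ A a) → (∀ i, ∑ j, M i j * m j = 0) →
    ∃ e ∈ A (a - 1), ∀ j, m j = w j * e

variable {σ k R}

namespace Pl

variable (P : Pl σ k R)

/-- the Hilbert function -/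
noncomputable def h (a : ℤ) : ℤ := (Module.finrank k (P.A a) : ℤ)

theorem h_neg {a : ℤ} (ha : a < 0) : P.h a = 0 := by
  unfold h
  rw [P.neg a ha, finrank_bot]
  rfl

theorem l_pos : 3 ≤ P.l := by
  rcases P.typ with ⟨-, h⟩ | ⟨-, h⟩ <;> omega

include P in
theorem one_ne : (1 : R) ≠ 0 := by
  intro h1
  have h2 : P.A 0 = ⊥ := by
    rw [eq_bot_iff]
    intro y _
    rw [Submodule.mem_bot, ← mul_one y, h1, mul_zero]
  have h3 := P.zero
  rw [h2, finrank_bot] at h3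
  exact zero_ne_one h3

theorem x_ne (i : σ) : P.x i ≠ 0 := by
  classical
  intro h1
  have hl := P.l_pos
  obtain ⟨m, hm, h2⟩ := P.ex1 0 (fun i' => if i' = i then 1 else 0) (fun i' => by
    split_ifs
    · exact P.one
    · exact Submodule.zero_mem _) (by
    refine Finset.sum_eq_zero fun i' _ => ?_
    split_ifs with h3
    · rw [h3, h1, zero_mul]
    · rw [mul_zero])
  have h3 := h2 i
  rw [if_pos rfl] at h3
  have h4 : ∀ j, m j = 0 := fun j => by
    have h5 := hm j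
    rwa [P.neg _ (by omega), Submodule.mem_bot] at h5
  rw [Finset.sum_eq_zero fun j _ => by rw [h4, mul_zero]] at h3
  exact P.one_ne h3

theorem exists_w : ∃ j, P.w j ≠ 0 := by
  have h0 : 0 < Fintype.card σ := by
    rcases P.typ with ⟨h, -⟩ | ⟨h, -⟩ <;> omega
  obtain ⟨i⟩ := Fintype.card_pos_iff.1 h0
  by_contra h1
  push Not at h1
  obtain ⟨c, hc⟩ := P.wspan _ (P.hx i)
  apply P.x_ne i
  rw [hc]
  exact Finset.sum_eq_zero fun j _ => by rw [h1, smul_zero]

theorem w_tor {a : ℤ} {e : R} (he : e ∈ P.A a) (h : ∀ j, P.w j * e = 0) : e = 0 := by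
  obtain ⟨j, hj⟩ := P.exists_w
  rcases P.dom 1 a _ (P.hw j) _ he (h j) with h1 | h1
  · exact absurd h1 hj
  · exact h1

variable {Mo : Type*} [AddCommGroup Mo] [Module R Mo] [Module k Mo] [IsScalarTower k R Mo]

/-- stable families -/
def Stb (X : ℤ → Submodule k Mo) : Prop := ∀ a, ∀ n ∈ X a, ∀ i, P.x i • n ∈ X (a + 1)

/-- generated in degree `a + 1` -/
def G0 (X : ℤ → Submodule k Mo) (a : ℤ) : Prop :=
  ∀ n ∈ X (a + 1), ∃ z : σ → Mo, (∀ i, z i ∈ X a) ∧ n = ∑ i, P.x i • z i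

/-- the first Koszul homology vanishes -/
def H1 (X : ℤ → Submodule k Mo) (a : ℤ) : Prop :=
  ∀ n : σ → Mo, (∀ i, n i ∈ X a) → ∑ i, P.x i • n i = 0 →
    ∃ m : σ → Mo, (∀ j, m j ∈ X (a - (P.l - 2))) ∧ ∀ i, n i = ∑ j, P.M i j • m j

/-- the second Koszul homology vanishes -/
def H2 (X : ℤ → Submodule k Mo) (a : ℤ) : Prop :=
  ∀ m : σ → Mo, (∀ j, m j ∈ X a) → (∀ i, ∑ j, P.M i j • m j = 0) →
    ∃ e ∈ X (a - 1), ∀ j, m j = P.w j • e

theorem scalar {y : R} (hy : y ∈ P.A 0) : ∃ c : k, y = c • (1 : R) := by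
  by_cases h3 : (1 : R) = 0
  · refine ⟨0, ?_⟩
    rw [zero_smul, ← mul_one y, h3, mul_zero]
  · have h4 := (finrank_eq_one_iff_of_nonzero' (⟨1, P.one⟩ : P.A 0)
      (fun h5 => h3 (congrArg Subtype.val h5))).1 P.zero ⟨y, hy⟩
    obtain ⟨c, hc⟩ := h4
    exact ⟨c, (congrArg Subtype.val hc).symm⟩

/-- products with homogeneous elements -/
theorem Stb.smul_mem {X : ℤ → Submodule k Mo} (hX : P.Stb X) {m : ℤ} {y : R} (hy : y ∈ P.A m)
    {a : ℤ} {n : Mo} (hn : n ∈ X a) : y • n ∈ X (m + a) := by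
  rcases lt_or_ge m 0 with h1 | h1
  · rw [P.neg m h1, Submodule.mem_bot] at hy
    rw [hy, zero_smul]
    exact Submodule.zero_mem _
  obtain ⟨t, rfl⟩ := Int.eq_ofNat_of_zero_le h1
  induction t generalizing y with
  | zero =>
    obtain ⟨c, hc⟩ := P.scalar hy
    rw [hc, smul_assoc, one_smul]
    rw [Nat.cast_zero, zero_add]
    exact (X a).smul_mem c hn
  | succ t ih =>
    have h2 : ((t + 1 : ℕ) : ℤ) = (t : ℤ) + 1 := by push_cast; ring
    rw [h2] at hy
    obtain ⟨z, hz, hyz⟩ := P.gen t (Int.natCast_nonneg t) y hy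
    rw [hyz, Finset.sum_smul]
    refine Submodule.sum_mem _ fun i _ => ?_
    rw [mul_smul]
    have h3 := hX _ _ (ih (hz i) (Int.natCast_nonneg t)) i
    have h4 : ((t : ℤ) + a) + 1 = ((t + 1 : ℕ) : ℤ) + a := by push_cast; ring
    rw [← h4]
    exact h3

section Free

variable {ι : Type}

/-- the free family with generators in degrees `d` -/
def Fr (d : ι → ℤ) (a : ℤ) : Submodule k (ι → R) where
  carrier := {f | ∀ i, f i ∈ P.A (a - d i)}
  add_mem' := fun hf hg i => Submodule.add_mem _ (hf i) (hg i)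
  zero_mem' := fun _ => Submodule.zero_mem _
  smul_mem' := fun c _ hf i => Submodule.smul_mem _ c (hf i)

theorem mem_Fr {d : ι → ℤ} {a : ℤ} {f : ι → R} : f ∈ P.Fr d a ↔ ∀ i, f i ∈ P.A (a - d i) :=
  Iff.rfl

theorem Fr_stb (d : ι → ℤ) : P.Stb (P.Fr d) := by
  intro a n hn i t
  have h1 := P.mul 1 (a - d t) _ (P.hx i) _ (hn t)
  rw [show a + 1 - d t = 1 + (a - d t) by ring]
  exact h1

theorem Fr_H1 (d : ι → ℤ) (a : ℤ) : P.H1 (P.Fr d) a := by
  intro n hn h
  have h1 : ∀ t : ι, ∃ m : σ → R, (∀ j, m j ∈ P.A (a - d t - (P.l - 2))) ∧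
      ∀ i, n i t = ∑ j, P.M i j * m j := by
    intro t
    refine P.ex1 (a - d t) (fun i => n i t) (fun i => hn i t) ?_
    have h2 := congrFun h t
    rw [Finset.sum_apply] at h2
    exact h2
  choose m hm1 hm2 using h1
  refine ⟨fun j t => m t j, fun j t => ?_, fun i => ?_⟩
  · rw [show a - (P.l - 2) - d t = a - d t - (P.l - 2) by ring]
    exact hm1 t j
  · funext t
    rw [Finset.sum_apply]
    exact hm2 t i

theorem Fr_H2 (d : ι → ℤ) (a : ℤ) : P.H2 (P.Fr d) a := by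
  intro m hm h
  have h1 : ∀ t : ι, ∃ e ∈ P.A (a - d t - 1), ∀ j, m j t = P.w j * e := by
    intro t
    refine P.ex2 (a - d t) (fun j => m j t) (fun j => hm j t) ?_
    intro i
    have h2 := congrFun (h i) t
    rw [Finset.sum_apply] at h2
    exact h2
  choose e he1 he2 using h1
  refine ⟨e, fun t => ?_, fun j => ?_⟩
  · rw [show a - 1 - d t = a - d t - 1 by ring]
    exact he1 t
  · funext t
    exact he2 t j

/-- the free family is generated outside of the degrees of the generators -/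
theorem Fr_gen (d : ι → ℤ) (a : ℤ) (ha : ∀ i, d i ≠ a + 1) : P.G0 (P.Fr d) a := by
  intro n hn
  have h1 : ∀ t : ι, ∃ z : σ → R, (∀ i, z i ∈ P.A (a - d t)) ∧ n t = ∑ i, P.x i * z i := by
    intro t
    have h2 := hn t
    rcases lt_or_ge (a - d t) 0 with h3 | h3
    · have h4 : a + 1 - d t < 0 := by
        have := ha t
        omega
      rw [P.neg _ h4, Submodule.mem_bot] at h2
      refine ⟨0, fun _ => Submodule.zero_mem _, ?_⟩
      rw [h2]
      simp
    · rw [show a + 1 - d t = a - d t + 1 by ring] at h2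
      exact P.gen _ h3 _ h2
  choose z hz1 hz2 using h1
  refine ⟨fun i t => z t i, fun i t => hz1 t i, ?_⟩
  funext t
  rw [Finset.sum_apply]
  exact hz2 t

variable [Fintype ι]

theorem Fr_equiv (d : ι → ℤ) (a : ℤ) : Nonempty (P.Fr d a ≃ₗ[k] (∀ i, P.A (a - d i))) :=
  ⟨{ toFun := fun f i => ⟨f.1 i, f.2 i⟩
     invFun := fun g => ⟨fun i => (g i : R), fun i => (g i).2⟩
     map_add' := fun _ _ => rfl
     map_smul' := fun _ _ => rfl
     left_inv := fun _ => rfl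
     right_inv := fun _ => rfl }⟩

theorem Fr_fin (d : ι → ℤ) (a : ℤ) : Module.Finite k (P.Fr d a) := by
  obtain ⟨E⟩ := P.Fr_equiv d a
  have : ∀ i, Module.Finite k (P.A (a - d i)) := fun i => P.fin _
  exact Module.Finite.equiv E.symm

theorem Fr_dim (d : ι → ℤ) (a : ℤ) :
    (Module.finrank k (P.Fr d a) : ℤ) = ∑ i, P.h (a - d i) := by
  obtain ⟨E⟩ := P.Fr_equiv d a
  have : ∀ i, Module.Finite k (P.A (a - d i)) := fun i => P.fin _
  rw [E.finrank_eq, Module.finrank_pi_fintype]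
  push_cast
  rfl

end Free

end Pl

end Pool.Agent.Lib.NOreP
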