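import Pool.Agent.Lib.NOreP.Eul

/-!
# NOreP/Fs: generated families, free summands, the Ore property
-/

set_option autoImplicit false

namespace Pool.Agent.Lib.NOreP

/-- pigeonhole for subspaces -/
theorem pig {k Mo : Type*} [Field k] [AddCommGroup Mo] [Module k Mo] {E E1 E2 : Submodule k Mo}
    (hE : Module.Finite k E) (h1 : E1 ≤ E) (h2 : E2 ≤ E)
    (h : Module.finrank k E < Module.finrank k E1 + Module.finrank k E2) :
    ∃ n ∈ E1, n ∈ E2 ∧ n ≠ 0 := by
  have f1 : Module.Finite k E1 := Submodule.finiteDimensional_of_le h1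
  have f2 : Module.Finite k E2 := Submodule.finiteDimensional_of_le h2
  by_contra hcon
  push Not at hcon
  have h3 : E1 ⊓ E2 = ⊥ := by
    rw [eq_bot_iff]
    rintro n ⟨hn1, hn2⟩
    exact hcon n hn1 hn2
  have h4 := Submodule.finrank_sup_add_finrank_inf_eq E1 E2
  rw [h3, finrank_bot] at h4
  have h5 := Submodule.finrank_mono (sup_le h1 h2)
  omega

namespace Pl

variable {σ : Type} [Fintype σ] {k R : Type*} [Field k] [Ring R] [Algebra k R] (P : Pl σ k R)
variable {Mo : Type*} [AddCommGroup Mo] [Module R Mo] [Module k Mo] [IsScalarTower k R Mo]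

/-- the family generated by a space in degree `e` -/
def Gn (Y : Submodule k Mo) (e a : ℤ) : Submodule k Mo :=
  Submodule.span k {n | ∃ y ∈ P.A (a - e), ∃ m ∈ Y, n = y • m}

theorem smul_mem_Gn {Y : Submodule k Mo} {e a : ℤ} {y : R} (hy : y ∈ P.A (a - e)) {m : Mo}
    (hm : m ∈ Y) : y • m ∈ P.Gn Y e a := Submodule.subset_span ⟨y, hy, m, hm, rfl⟩

theorem self_le_Gn {Y : Submodule k Mo} {e : ℤ} : Y ≤ P.Gn Y e e := by
  intro m hm
  have h1 := P.smul_mem_Gn (Y := Y) (e := e) (a := e) (y := 1) (by rw [sub_self]; exact P.one) hm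
  rwa [one_smul] at h1

theorem Gn_self_le {Y : Submodule k Mo} {e : ℤ} : P.Gn Y e e ≤ Y := by
  refine Submodule.span_le.2 ?_
  rintro _ ⟨y, hy, m, hm, rfl⟩
  rw [sub_self] at hy
  obtain ⟨c, rfl⟩ := P.scalar hy
  rw [smul_assoc, one_smul]
  exact Y.smul_mem c hm

/-- multiplication is compatible with scalars -/
theorem smul_smul_comm' (y : R) (c : k) (n : Mo) : y • c • n = c • y • n := by
  rw [← mulL_apply (k := k), map_smul]
  rfl

theorem smul_mem_Gn' {Y : Submodule k Mo} {e a b : ℤ} {y : R} (hy : y ∈ P.A b) {n : Mo}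
    (hn : n ∈ P.Gn Y e a) : y • n ∈ P.Gn Y e (b + a) := by
  refine Submodule.span_induction ?_ ?_ ?_ ?_ hn
  · rintro _ ⟨z, hz, m, hm, rfl⟩
    rw [← mul_smul]
    refine P.smul_mem_Gn ?_ hm
    have h1 := P.mul b (a - e) _ hy _ hz
    rwa [show b + a - e = b + (a - e) by ring]
  · rw [smul_zero]
    exact Submodule.zero_mem _
  · intro n m _ _ hn hm
    rw [smul_add]
    exact Submodule.add_mem _ hn hm
  · intro c n _ hn
    rw [smul_smul_comm']
    exact Submodule.smul_mem _ c hn

theorem Gn_stb (Y : Submodule k Mo) (e : ℤ) : P.Stb (P.Gn Y e) := by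
  intro a n hn i
  have h1 := P.smul_mem_Gn' (P.hx i) hn
  rwa [add_comm] at h1

theorem Gn_gen (Y : Submodule k Mo) (e : ℤ) {a : ℤ} (ha : e ≤ a) : P.G0 (P.Gn Y e) a := by
  intro n hn
  refine Submodule.span_induction ?_ ?_ ?_ ?_ hn
  · rintro _ ⟨z, hz, m, hm, rfl⟩
    rw [show a + 1 - e = a - e + 1 by ring] at hz
    obtain ⟨z', hz', h1⟩ := P.gen _ (by omega) z hz
    refine ⟨fun i => z' i • m, fun i => P.smul_mem_Gn (hz' i) hm, ?_⟩
    rw [h1, Finset.sum_smul]
    exact Finset.sum_congr rfl fun i _ => mul_smul _ _ _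
  · exact ⟨0, fun _ => Submodule.zero_mem _, by simp⟩
  · rintro n m _ _ ⟨z, hz, rfl⟩ ⟨z', hz', rfl⟩
    exact ⟨z + z', fun i => Submodule.add_mem _ (hz i) (hz' i), by
      simp [smul_add, Finset.sum_add_distrib]⟩
  · rintro c n _ ⟨z, hz, rfl⟩
    exact ⟨c • z, fun i => Submodule.smul_mem _ c (hz i), by
      simp only [Pi.smul_apply, smul_smul_comm', Finset.smul_sum]⟩

theorem Gn_le {Y : Submodule k Mo} {e : ℤ} {X : ℤ → Submodule k Mo} (hX : P.Stb X)
    (hY : Y ≤ X e) (a : ℤ) : P.Gn Y e a ≤ X a := by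
  refine Submodule.span_le.2 ?_
  rintro _ ⟨y, hy, m, hm, rfl⟩
  have h1 := hX.smul_mem (P := P) hy (hY hm)
  rwa [sub_add_cancel] at h1

/-- a part of a stable family below degree `e` lands in a family which contains everything in
degree `e` -/
theorem low_mem {X S : ℤ → Submodule k Mo} (hX : P.Stb X) (hS : P.Stb S) {e : ℤ}
    (h : ∀ n ∈ X (e - 1), ∀ i, P.x i • n ∈ S e) {b : ℤ} (hb : b < e) (s : ℕ) (hs : e ≤ b + s)
    {y : R} (hy : y ∈ P.A s) {n : Mo} (hn : n ∈ X b) : y • n ∈ S (b + s) := by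
  induction s generalizing y with
  | zero => exact absurd hs (by simpa using hb)
  | succ s ih =>
    push_cast at hs hy ⊢
    obtain ⟨z, hz, h1⟩ := P.gen s (Int.natCast_nonneg s) y hy
    rw [h1, Finset.sum_smul]
    refine Submodule.sum_mem _ fun i _ => ?_
    rw [mul_smul]
    rcases Nat.lt_or_ge s (e - b).toNat with h2 | h2
    · have h3 : b + ((s : ℤ) + 1) = e := by omega
      rw [h3]
      refine h _ ?_ i
      have h4 := hX.smul_mem (P := P) (hz i) hn
      rwa [show (s : ℤ) + b = e - 1 by omega] at h4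
    · have h4 := hS _ _ (ih (by omega) (hz i)) i
      rwa [show b + (s : ℤ) + 1 = b + ((s : ℤ) + 1) by ring] at h4

/-- **Free summand.** -/
theorem free_summand {X X' : ℤ → Submodule k Mo} {e : ℤ} {κ : Mo} (hX : P.Stb X)
    (hX' : P.Stb X') (hG : ∀ a, e ≤ a → P.G0 X a) (hH : ∀ a, e ≤ a → P.H1 X a)
    (hG' : ∀ a, e ≤ a → P.G0 X' a) (hsub : ∀ n ∈ X (e - 1), ∀ i, P.x i • n ∈ X' e)
    (hdec : ∀ n ∈ X e, ∃ c : k, n - c • κ ∈ X' e) (hκX : κ ∈ X e) (hκ : κ ∉ X' e) 
    (hle : ∀ a, e ≤ a → X' a ≤ X a) (t : ℕ) :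
    (∀ n ∈ X (e + t), ∃ y ∈ P.A t, n - y • κ ∈ X' (e + t)) ∧
      ∀ y ∈ P.A t, y • κ ∈ X' (e + t) → y = 0 := by
  have hl := P.l_pos
  have dec : ∀ t : ℕ, ∀ n ∈ X (e + t), ∃ y ∈ P.A t, n - y • κ ∈ X' (e + t) := by
    intro t
    induction t with
    | zero =>
      intro n hn
      simp only [Nat.cast_zero, add_zero] at hn ⊢
      obtain ⟨c, hc⟩ := hdec n hn
      exact ⟨c • 1, Submodule.smul_mem _ c P.one, by rwa [smul_assoc, one_smul]⟩
    | succ t ih =>
      intro n hn
      push_cast at hn ⊢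
      rw [← add_assoc] at hn ⊢
      obtain ⟨z, hz, rfl⟩ := hG (e + t) (by omega) n hn
      choose y hy hyz using fun i => ih (z i) (hz i)
      refine ⟨∑ i, P.x i * y i, Submodule.sum_mem _ fun i _ => ?_, ?_⟩
      · have h1 := P.mul 1 t _ (P.hx i) _ (hy i)
        rwa [add_comm] at h1
      · rw [Finset.sum_smul, ← Finset.sum_sub_distrib]
        refine Submodule.sum_mem _ fun i _ => ?_
        rw [mul_smul, ← smul_sub]
        exact hX' _ _ (hyz i) i
  refine ⟨dec t, ?_⟩
  induction t using Nat.strong_induction_on with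
  | _ t ih =>
    rcases t with _ | t
    · intro y hy h1
      simp only [Nat.cast_zero, add_zero] at hy h1
      obtain ⟨c, rfl⟩ := P.scalar hy
      rw [smul_assoc, one_smul] at h1
      by_cases hc : c = 0
      · rw [hc, zero_smul]
      · exfalso
        apply hκ
        have h2 := Submodule.smul_mem _ c⁻¹ h1
        rwa [smul_smul, inv_mul_cancel₀ hc, one_smul] at h2
    · intro y hy h1
      push_cast at hy h1
      rw [← add_assoc] at h1
      obtain ⟨z, hz, rfl⟩ := P.gen t (Int.natCast_nonneg t) y hy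
      obtain ⟨q, hq, h2⟩ := hG' (e + t) (by omega) _ h1
      have h3 : ∑ i, P.x i • (z i • κ - q i) = 0 := by
        simp only [smul_sub, Finset.sum_sub_distrib, ← mul_smul]
        rw [← Finset.sum_smul, h2, sub_self]
      have hzκ : ∀ i, z i • κ ∈ X (e + t) := fun i => by
        have h4 := hX.smul_mem (P := P) (hz i) hκX
        rwa [add_comm] at h4
      obtain ⟨m, hm, h4⟩ := hH (e + t) (by omega) _
        (fun i => Submodule.sub_mem _ (hzκ i) (hle _ (by omega) (hq i))) h3
      rcases lt_or_ge ((t : ℤ) - (P.l - 2)) 0 with h5 | h5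
      · have h6 : ∀ i, z i = 0 := by
          intro i
          refine ih t (by omega) _ (hz i) ?_
          have h7 : z i • κ = q i + ∑ j, P.M i j • m j := by
            rw [← h4 i]; abel
          rw [h7]
          refine Submodule.add_mem _ (hq i) (Submodule.sum_mem _ fun j _ => ?_)
          have h8 := P.low_mem hX hX' hsub (b := e + t - (P.l - 2)) (by omega)
            (P.l - 2).toNat (by omega) (y := P.M i j) (by
              rw [Int.toNat_of_nonneg (by omega)]
              exact P.hM i j) (hm j)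
          rwa [Int.toNat_of_nonneg (by omega), sub_add_cancel] at h8
        exact Finset.sum_eq_zero fun i _ => by rw [h6, mul_zero]
      · obtain ⟨s, hs⟩ := Int.eq_ofNat_of_zero_le h5
        have h6 : ∀ j, ∃ y ∈ P.A s, m j - y • κ ∈ X' (e + s) := fun j =>
          dec s (m j) (by
            have h7 := hm j
            rwa [show e + (t : ℤ) - (P.l - 2) = e + s by omega] at h7)
        choose y hy hym using h6
        have h7 : ∀ i, z i = ∑ j, P.M i j * y j := by
          intro i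
          have h8 := ih t (by omega) (z i - ∑ j, P.M i j * y j) (Submodule.sub_mem _ (hz i)
            (Submodule.sum_mem _ fun j _ => by
              have h9 := P.mul _ _ _ (P.hM i j) _ (hy j)
              rwa [show P.l - 2 + (s : ℤ) = t by omega] at h9)) (by
            have h9 : (z i - ∑ j, P.M i j * y j) • κ =
                q i + ∑ j, P.M i j • (m j - y j • κ) := by
              simp only [smul_sub, Finset.sum_sub_distrib]
              rw [← h4 i, sub_smul, Finset.sum_smul]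
              simp only [mul_smul]
              abel
            rw [h9]
            refine Submodule.add_mem _ (hq i) (Submodule.sum_mem _ fun j _ => ?_)
            have h10 := hX'.smul_mem (P := P) (P.hM i j) (hym j)
            rwa [show P.l - 2 + (e + (s : ℤ)) = e + t by omega] at h10)
          exact sub_eq_zero.1 h8
        simp only [h7, Finset.mul_sum, ← mul_assoc]
        rw [Finset.sum_comm]
        refine Finset.sum_eq_zero fun j _ => ?_
        rw [← Finset.sum_mul, P.rel1, zero_mul]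

/-- the Ore property -/
theorem ore {m m' : ℤ} {y y' : R} (hy : y ∈ P.A m) (hy' : y' ∈ P.A m') (h : y ≠ 0)
    (h' : y' ≠ 0) : ∃ q q' : ℤ, ∃ t ∈ P.A q, ∃ t' ∈ P.A q', q + m = q' + m' ∧ t ≠ 0 ∧
      t * y = t' * y' := by
  obtain ⟨n, hn⟩ := P.gro.ore m m'
  have hinj : ∀ (m : ℤ) (y : R), y ∈ P.A m → y ≠ 0 → ∀ n : ℤ, ∃ E : Submodule k R,
      (Module.finrank k E = Module.finrank k (P.A (n - m))) ∧ E ≤ P.A n ∧
        ∀ z ∈ E, ∃ t ∈ P.A (n - m), z = t * y := by
    intro m y hy h0 n
    have hi : Function.Injective ((LinearMap.mulRight k y) ∘ₗ (P.A (n - m)).subtype) := by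
      rw [← LinearMap.ker_eq_bot, LinearMap.ker_eq_bot']
      rintro ⟨t, ht⟩ h1
      have h2 : t * y = 0 := h1
      rcases P.dom _ _ _ ht _ hy h2 with h3 | h3
      · exact Subtype.ext h3
      · exact absurd h3 h0
    refine ⟨LinearMap.range ((LinearMap.mulRight k y) ∘ₗ (P.A (n - m)).subtype),
      (LinearEquiv.ofInjective _ hi).finrank_eq.symm, ?_, ?_⟩
    · rintro _ ⟨⟨t, ht⟩, rfl⟩
      have h1 := P.mul _ _ _ ht _ hy
      rwa [sub_add_cancel] at h1
    · rintro _ ⟨⟨t, ht⟩, rfl⟩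
      exact ⟨t, ht, rfl⟩
  obtain ⟨E1, d1, l1, r1⟩ := hinj m y hy h n
  obtain ⟨E2, d2, l2, r2⟩ := hinj m' y' hy' h' n
  have h1 := hn n le_rfl
  unfold Pl.h at h1
  obtain ⟨z, hz1, hz2, hz0⟩ := pig (P.fin n) l1 l2 (by rw [d1, d2]; omega)
  obtain ⟨t, ht, rfl⟩ := r1 z hz1
  obtain ⟨t', ht', h2⟩ := r2 _ hz2
  exact ⟨n - m, n - m', t, ht, t', ht', by ring, fun h3 => hz0 (by rw [h3, zero_mul]), h2⟩

end Pl

end Pool.Agent.Lib.NOreP
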