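import Pool.Agent.Lib.NOreP.SatF

/-!
# NOreP/Gen: all stable families are generated in bounded degrees
-/

set_option autoImplicit false

namespace Pool.Agent.Lib.NOreP

variable {σ : Type} [Fintype σ] {k R : Type*} [Field k] [Ring R] [Algebra k R]

namespace Pl

variable (P : Pl σ k R)

theorem xspan {y : R} (hy : y ∈ P.A 1) : ∃ c : σ → k, y = ∑ l, c l • P.x l := by
  obtain ⟨z, hz, hyz⟩ := P.gen 0 le_rfl y (by simpa using hy)
  choose c hc using fun l => P.scalar (hz l)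
  refine ⟨c, ?_⟩
  rw [hyz]
  refine Finset.sum_congr rfl fun l _ => ?_
  rw [hc, mul_smul_comm, mul_one]

end Pl

namespace Bi

variable {P : Pl σ k R} (B : Bi P)

/-- stable families -/
structure Stab (N : ℕ → ℤ → Submodule k R) : Prop where
  le : ∀ j a, N j a ≤ B.U j a
  stb : ∀ j, P.Stb (N j)
  vst : ∀ j a, ∀ n ∈ N j a, ∀ s, B.v s * n ∈ N (j + 1) a

/-- elements which are moved into `N` by the degree `(p, e p)` -/
def Ch (e : ℕ) (N : ℕ → ℤ → Submodule k R) (p j : ℕ) (a : ℤ) : Submodule k R where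
  carrier := {b | b ∈ B.U j a ∧ ∀ y ∈ B.U p ((e * p : ℕ) : ℤ), y * b ∈ N (p + j) ((e * p : ℕ) + a)}
  add_mem' := fun {b c} hb hc => ⟨Submodule.add_mem _ hb.1 hc.1, fun y hy => by
    rw [mul_add]
    exact Submodule.add_mem _ (hb.2 y hy) (hc.2 y hy)⟩
  zero_mem' := ⟨Submodule.zero_mem _, fun y _ => by
    rw [mul_zero]
    exact Submodule.zero_mem _⟩
  smul_mem' := fun c b hb => ⟨Submodule.smul_mem _ c hb.1, fun y hy => by
    rw [mul_smul_comm]
    exact Submodule.smul_mem _ c (hb.2 y hy)⟩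

/-- the saturation -/
def hat (e : ℕ) (N : ℕ → ℤ → Submodule k R) (j : ℕ) (a : ℤ) : Submodule k R := ⨆ p, B.Ch e N p j a

/-- products of spaces acting into a space -/
theorem mul_act {A1 A2 X : Submodule k R} {b : R} (h : ∀ z ∈ A1, ∀ t ∈ A2, z * (t * b) ∈ X)
    {y : R} (hy : y ∈ A1 * A2) : y * b ∈ X := by
  have h1 : A1 * A2 ≤ X.comap (LinearMap.mulRight k b) := by
    rw [Submodule.mul_le]
    intro z hz t ht
    rw [Submodule.mem_comap, LinearMap.mulRight_apply, mul_assoc]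
    exact h z hz t ht
  exact h1 hy

variable {B}

namespace Stab

variable {N : ℕ → ℤ → Submodule k R} (S : B.Stab N)
include S

theorem umul {i : ℕ} {b : ℤ} {y : R} (hy : y ∈ B.U i b) {j : ℕ} {a : ℤ} {n : R}
    (hn : n ∈ N j a) : y * n ∈ N (i + j) (b + a) := by
  induction i generalizing y with
  | zero =>
    rw [B.U0] at hy
    rw [zero_add]
    exact (S.stb j).smul_mem (P := P) hy hn
  | succ i ih =>
    obtain ⟨z, hz, rfl⟩ := B.genV i b y hy
    rw [Finset.sum_mul]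
    refine Submodule.sum_mem _ fun s _ => ?_
    rw [mul_assoc, show i + 1 + j = i + j + 1 by ring]
    exact S.vst _ _ _ (ih (hz s)) s

theorem Ch_mono (e : ℕ) (p q j : ℕ) (a : ℤ) : B.Ch e N p j a ≤ B.Ch e N (q + p) j a := by
  intro b hb
  refine ⟨hb.1, fun y hy => ?_⟩
  have h1 : y ∈ B.U q ((e * q : ℕ) : ℤ) * B.U p ((e * p : ℕ) : ℤ) := by
    refine B.genU q p (e * q) (e * p) ?_
    have h2 : ((e * q : ℕ) : ℤ) + ((e * p : ℕ) : ℤ) = ((e * (q + p) : ℕ) : ℤ) := by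
      push_cast; ring
    rwa [h2]
  refine mul_act (fun z hz t ht => ?_) h1
  have h3 := S.umul hz (hb.2 t ht)
  have h4 : ((e * q : ℕ) : ℤ) + (((e * p : ℕ) : ℤ) + a) = ((e * (q + p) : ℕ) : ℤ) + a := by
    push_cast; ring
  rwa [h4, show q + (p + j) = q + p + j by ring] at h3

theorem mem_hat {e j : ℕ} {a : ℤ} {b : R} : b ∈ B.hat e N j a ↔ ∃ p, b ∈ B.Ch e N p j a := by
  refine Submodule.mem_iSup_of_directed _ fun p q => ⟨q + p, S.Ch_mono e p q j a, ?_⟩
  rw [add_comm]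
  exact S.Ch_mono e q p j a

theorem le_hat (e j : ℕ) (a : ℤ) : N j a ≤ B.hat e N j a := by
  intro n hn
  exact S.mem_hat.2 ⟨0, S.le _ _ hn, fun y hy => S.umul hy hn⟩

theorem hat_le (e j : ℕ) (a : ℤ) : B.hat e N j a ≤ B.U j a := iSup_le fun _ _ hb => hb.1

theorem hat_vst (e : ℕ) {j : ℕ} {a : ℤ} {n : R} (hn : n ∈ B.hat e N j a) (s : Fin 2) :
    B.v s * n ∈ B.hat e N (j + 1) a := by
  obtain ⟨p, hp⟩ := S.mem_hat.1 hn
  refine S.mem_hat.2 ⟨p, B.vmul (B.hv s) hp.1, fun y hy => ?_⟩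
  rw [← mul_assoc]
  have h1 : y * B.v s ∈ B.U 1 ((0 : ℕ) : ℤ) * B.U p ((e * p : ℕ) : ℤ) := by
    refine B.genU 1 p 0 (e * p) ?_
    have h2 := B.mul p 1 _ 0 y hy _ (B.hv s)
    rwa [add_comm p 1, add_comm ((e * p : ℕ) : ℤ) 0] at h2
  refine mul_act (fun z hz t ht => ?_) h1
  have h3 := S.umul hz (hp.2 t ht)
  rwa [Nat.cast_zero, zero_add, show 1 + (p + j) = p + (j + 1) by ring] at h3

theorem hat_stb (e : ℕ) (j : ℕ) : P.Stb (B.hat e N j) := by
  intro a n hn i
  obtain ⟨p, hp⟩ := S.mem_hat.1 hn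
  refine S.mem_hat.2 ⟨p, B.Ustb j _ _ hp.1 i, fun y hy => ?_⟩
  rw [smul_eq_mul, ← mul_assoc]
  have hx := P.hx i
  rw [← B.U0] at hx
  have h1 : y * P.x i ∈ B.U 0 ((1 : ℕ) : ℤ) * B.U p ((e * p : ℕ) : ℤ) := by
    refine B.genU 0 p 1 (e * p) ?_
    have h2 := B.mul p 0 _ 1 y hy _ hx
    rwa [add_comm p 0, add_comm ((e * p : ℕ) : ℤ) 1] at h2
  refine mul_act (fun z hz t ht => ?_) h1
  have h3 := S.umul hz (hp.2 t ht)
  rwa [show 0 + (p + j) = p + j by ring,
    show ((1 : ℕ) : ℤ) + (((e * p : ℕ) : ℤ) + a) = ((e * p : ℕ) : ℤ) + (a + 1) by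
      push_cast; ring] at h3

theorem hat_satV (e : ℕ) {j : ℕ} {a : ℤ} {n : R} (hn : n ∈ B.U j a)
    (h : ∀ s, B.v s * n ∈ B.hat e N (j + 1) a) : n ∈ B.hat e N j a := by
  choose p hp using fun s => S.mem_hat.1 (h s)
  obtain ⟨q, hq⟩ : ∃ q, ∀ s, B.v s * n ∈ B.Ch e N q (j + 1) a := by
    refine ⟨p 1 + p 0, fun s => ?_⟩
    have h0 := S.Ch_mono e (p 0) (p 1) (j + 1) a (hp 0)
    have h1 := S.Ch_mono e (p 1) (p 0) (j + 1) a (hp 1)
    rw [add_comm] at h1
    fin_cases s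
    · exact h0
    · exact h1
  refine S.mem_hat.2 ⟨q + 1, hn, fun y hy => ?_⟩
  have h1 : y ∈ B.U q ((e * (q + 1) : ℕ) : ℤ) * B.U 1 ((0 : ℕ) : ℤ) := by
    refine B.genU q 1 (e * (q + 1)) 0 ?_
    rwa [Nat.cast_zero, add_zero]
  refine mul_act (fun z hz t ht => ?_) h1
  obtain ⟨c, rfl⟩ := B.vspan t (by simpa using ht)
  rw [Finset.sum_mul, Finset.mul_sum]
  refine Submodule.sum_mem _ fun s _ => ?_
  rw [smul_mul_assoc, mul_smul_comm]
  refine Submodule.smul_mem _ _ ?_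
  have h2 : z ∈ B.U 0 ((e : ℕ) : ℤ) * B.U q ((e * q : ℕ) : ℤ) := by
    refine B.genU 0 q e (e * q) ?_
    rw [zero_add, show (e : ℤ) + ((e * q : ℕ) : ℤ) = ((e * (q + 1) : ℕ) : ℤ) by push_cast; ring]
    exact hz
  refine mul_act (fun z' hz' t' ht' => ?_) h2
  have h3 := S.umul hz' ((hq s).2 t' ht')
  rwa [show 0 + (q + (j + 1)) = q + 1 + j by ring,
    show (e : ℤ) + (((e * q : ℕ) : ℤ) + a) = ((e * (q + 1) : ℕ) : ℤ) + a by
      push_cast; ring] at h3

theorem common {e j : ℕ} {a : ℤ} (T : Finset R) (hT : ∀ t ∈ T, t ∈ B.hat e N j a) :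
    ∃ p, ∀ t ∈ T, t ∈ B.Ch e N p j a := by
  classical
  induction T using Finset.induction_on with
  | empty => exact ⟨0, fun t ht => absurd ht (Finset.notMem_empty t)⟩
  | insert t T _ ih =>
    obtain ⟨p, hp⟩ := ih fun t' ht' => hT t' (Finset.mem_insert_of_mem ht')
    obtain ⟨q, hq⟩ := S.mem_hat.1 (hT t (Finset.mem_insert_self _ _))
    refine ⟨q + p, fun t' ht' => ?_⟩
    rcases Finset.mem_insert.1 ht' with rfl | h
    · rw [add_comm]
      exact S.Ch_mono e q p j a hq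
    · exact S.Ch_mono e p q j a (hp t' h)

theorem hat_satA {j : ℕ} {a : ℤ} {n : R} (hn : n ∈ B.U j a)
    (h : ∀ i, P.x i * n ∈ B.hat 1 N j (a + 1)) : n ∈ B.hat 1 N j a := by
  classical
  obtain ⟨q, hq⟩ := S.common (Finset.univ.image fun i => P.x i * n) (fun t ht => by
    obtain ⟨i, -, rfl⟩ := Finset.mem_image.1 ht
    exact h i)
  refine S.mem_hat.2 ⟨q + 1, hn, fun y hy => ?_⟩
  have h1 : y ∈ B.U (q + 1) ((q : ℕ) : ℤ) * B.U 0 ((1 : ℕ) : ℤ) := by
    refine B.genU (q + 1) 0 q 1 ?_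
    rw [add_zero, show (q : ℤ) + ((1 : ℕ) : ℤ) = ((1 * (q + 1) : ℕ) : ℤ) by push_cast; ring]
    exact hy
  refine mul_act (fun z hz t ht => ?_) h1
  obtain ⟨c, rfl⟩ := P.xspan (by rw [B.U0] at ht; simpa using ht)
  rw [Finset.sum_mul, Finset.mul_sum]
  refine Submodule.sum_mem _ fun i _ => ?_
  rw [smul_mul_assoc, mul_smul_comm]
  refine Submodule.smul_mem _ _ ?_
  have h2 : z ∈ B.U 1 ((0 : ℕ) : ℤ) * B.U q ((q : ℕ) : ℤ) := by
    refine B.genU 1 q 0 q ?_
    rw [add_comm 1 q, Nat.cast_zero, zero_add]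
    exact hz
  refine mul_act (fun z' hz' t' ht' => ?_) h2
  have h3 := S.umul hz' ((hq _ (Finset.mem_image_of_mem _ (Finset.mem_univ i))).2 t' (by
    rwa [one_mul]))
  rwa [show 1 + (q + j) = q + 1 + j by ring,
    show ((0 : ℕ) : ℤ) + (((1 * q : ℕ) : ℤ) + (a + 1)) = ((1 * (q + 1) : ℕ) : ℤ) + a by
      push_cast; ring] at h3

theorem hat_sat : B.Sat (B.hat 1 N) where
  le := S.hat_le 1
  vst _ _ _ hn s := S.hat_vst 1 hn s
  satV _ _ _ hn h := S.hat_satV 1 hn h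
  stb := S.hat_stb 1
  satA _ _ _ hn h := S.hat_satA hn h

theorem hat_satV0 : B.SatV (B.hat 0 N) where
  le := S.hat_le 0
  vst _ _ _ hn s := S.hat_vst 0 hn s
  satV _ _ _ hn h := S.hat_satV 0 hn h

/-- one power for one degree -/
theorem power (e j : ℕ) (a : ℤ) : ∃ p, B.hat e N j a ≤ B.Ch e N p j a := by
  have h1 := B.fin_U j a
  have h2 : Module.Finite k (B.hat e N j a) := Submodule.finiteDimensional_of_le (S.hat_le e j a)
  obtain ⟨T, hT⟩ := Module.Finite.iff_fg.1 h2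
  obtain ⟨p, hp⟩ := S.common T (fun t ht => by
    rw [← hT]
    exact Submodule.subset_span ht)
  refine ⟨p, ?_⟩
  rw [← hT]
  exact Submodule.span_le.2 hp

/-- one row -/
theorem row (hLN : P.LN) (j : ℕ) : ∃ s, ∀ a, s ≤ a → P.G0 (N j) a := by
  obtain ⟨C, h0, h1, h2⟩ := B.pres j
  obtain ⟨s0, hs0⟩ := P.Fr_noe hLN _ (P.Pre (fun _ => 0) C (N j)) (fun a => inf_le_left)
    (P.Pre_stb (S.stb j))
  refine ⟨s0, fun a ha n hn => ?_⟩
  obtain ⟨y, hy, rfl⟩ := h1 _ n (S.le _ _ hn)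
  obtain ⟨z, hz, rfl⟩ := hs0 a ha y (P.mem_Pre.2 ⟨hy, hn⟩)
  exact ⟨fun i => Pl.pr (k := k) C (z i), fun i => (P.mem_Pre.1 (hz i)).2, Pl.pr_sum _ _ _⟩

/-- one column -/
theorem column (a : ℤ) : ∃ J, ∀ j, J ≤ j → N (j + 1) a = B.VN N j a := by
  have SV := S.hat_satV0
  obtain ⟨j0, hj0⟩ := SV.col a
  obtain ⟨p, hp⟩ := S.power 0 (j0 + 1) a
  have key : ∀ i : ℕ, B.hat 0 N (j0 + 1 + i) a ≤ B.U i 0 * B.hat 0 N (j0 + 1) a := by
    intro i
    induction i with
    | zero =>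
      intro n hn
      have h1 : (1 : R) ∈ B.U 0 0 := by
        rw [B.U0]
        exact P.one
      have h2 := Submodule.mul_mem_mul h1 hn
      rwa [one_mul] at h2
    | succ i ih =>
      have h1 := hj0 (j0 + i) (by omega)
      rw [show j0 + 1 + (i + 1) = j0 + i + 2 by ring, h1]
      refine Submodule.span_le.2 ?_
      rintro _ ⟨s, m, hm, rfl⟩
      rw [show j0 + i + 1 = j0 + 1 + i by ring] at hm
      have h2 := ih hm
      have h3 : B.v s * m ∈ B.U 1 0 * (B.U i 0 * B.hat 0 N (j0 + 1) a) :=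
        Submodule.mul_mem_mul (B.hv s) h2
      rw [← mul_assoc] at h3
      have h5 : B.U 1 0 * B.U i 0 ≤ B.U (i + 1) 0 := by
        rw [Submodule.mul_le]
        intro y hy z hz
        have h4 := B.mul 1 i 0 0 y hy z hz
        rwa [add_comm 1 i, add_zero] at h4
      exact (mul_le_mul' h5 (le_refl (B.hat 0 N (j0 + 1) a))) h3
  have heq : ∀ j, j0 + 1 + p ≤ j → B.hat 0 N j a = N j a := by
    intro j hj
    refine le_antisymm ?_ (S.le_hat 0 j a)
    obtain ⟨q, rfl⟩ := Nat.exists_eq_add_of_le hj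
    rw [add_assoc]
    intro n hn
    have h1 := key (p + q) hn
    have h2 : B.U (p + q) 0 * B.hat 0 N (j0 + 1) a ≤ N (j0 + 1 + (p + q)) a := by
      rw [Submodule.mul_le]
      intro y hy z hz
      have h3 : y ∈ B.U q ((0 : ℕ) : ℤ) * B.U p ((0 : ℕ) : ℤ) := by
        refine B.genU q p 0 0 ?_
        rw [add_comm q p]
        simpa using hy
      refine mul_act (fun z' hz' t' ht' => ?_) h3
      have h4 := S.umul hz' ((hp hz).2 t' (by rwa [zero_mul]))
      rwa [show q + (p + (j0 + 1)) = j0 + 1 + (p + q) by ring,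
        show ((0 : ℕ) : ℤ) + (((0 * p : ℕ) : ℤ) + a) = a by push_cast; ring] at h4
    exact h2 h1
  refine ⟨j0 + 1 + p, fun j hj => ?_⟩
  obtain ⟨q, rfl⟩ := Nat.exists_eq_add_of_le hj
  have h1 := hj0 (j0 + p + q) (by omega)
  rw [show j0 + p + q + 2 = j0 + 1 + p + q + 1 by ring,
    show j0 + p + q + 1 = j0 + 1 + p + q by ring, heq _ (by omega)] at h1
  rw [h1]
  unfold VN
  rw [heq _ (by omega)]

/-- **All stable families are generated in bounded degrees.** -/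
theorem gen_all (hLN : P.LN) : ∃ m : ℕ, (∀ j, m ≤ j → ∀ a, N (j + 1) a = B.VN N j a) ∧
    ∀ j, ∀ a : ℤ, (m : ℤ) ≤ a → P.G0 (N j) a := by
  classical
  have SH := S.hat_sat
  obtain ⟨j2, hj2⟩ := SH.eventually hLN
  choose r C s hr h1 h2 h3 using SH.slice hLN
  set J := j2 + 1 with hJ
  have hJs : ∀ j, J ≤ j → ∀ a, B.hat 1 N (j + 1) a = B.VN (B.hat 1 N) j a := by
    intro j hj a
    obtain ⟨q, rfl⟩ := Nat.exists_eq_add_of_le hj
    have h4 := hj2 (j2 + q) (by omega) a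
    rwa [show j2 + q + 2 = J + q + 1 by omega, show j2 + q + 1 = J + q by omega] at h4
  -- a uniform bound for the rows of the saturation
  obtain ⟨s0, hs0⟩ : ∃ s0 : ℕ, ∀ j ≤ J, s j ≤ s0 := by
    refine ⟨∑ j ∈ Finset.range (J + 1), (s j).toNat, fun j hj => ?_⟩
    have h4 := Finset.single_le_sum (f := fun j => (s j).toNat) (fun _ _ => Nat.zero_le _)
      (Finset.mem_range.2 (Nat.lt_succ_of_le hj))
    have h5 := Int.self_le_toNat (s j)
    push_cast
    have h6 : (((s j).toNat : ℕ) : ℤ) ≤ ((∑ j ∈ Finset.range (J + 1), (s j).toNat : ℕ) : ℤ) := by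
      exact_mod_cast h4
    push_cast at h6
    linarith
  have hrow : ∀ j, ∀ a, (s0 : ℤ) ≤ a → P.G0 (B.hat 1 N j) a := by
    intro j
    induction j with
    | zero => exact fun a ha => (h3 0 a ((hs0 0 (Nat.zero_le _)).trans ha)).1
    | succ j ih =>
      intro a ha
      rcases Nat.lt_or_ge j J with h4 | h4
      · exact (h3 (j + 1) a ((hs0 (j + 1) h4).trans ha)).1
      · have h5 := SH.VN_G0 (ih a ha)
        rw [P.G0_iff] at h5 ⊢
        rw [hJs j h4, hJs j h4]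
        exact h5
  -- the saturation is generated in one degree
  have key0 : ∀ b : ℕ, B.hat 1 N J (s0 + b) ≤ B.U 0 b * B.hat 1 N J s0 := by
    intro b
    induction b with
    | zero =>
      intro n hn
      have h1 : (1 : R) ∈ B.U 0 ((0 : ℕ) : ℤ) := by
        rw [B.U0]
        exact P.one
      rw [Nat.cast_zero, add_zero] at hn
      have h2 := Submodule.mul_mem_mul h1 hn
      rwa [one_mul] at h2
    | succ b ih =>
      have h4 := (P.G0_iff).1 (hrow J (s0 + b) (by omega))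
      push_cast
      rw [← add_assoc]
      refine h4.trans (Submodule.span_le.2 ?_)
      rintro _ ⟨i, m, hm, rfl⟩
      have hx := P.hx i
      rw [← B.U0] at hx
      have h5 := Submodule.mul_mem_mul hx (ih hm)
      rw [← mul_assoc] at h5
      have h6 : B.U 0 1 * B.U 0 b ≤ B.U 0 ((b : ℤ) + 1) := by
        rw [Submodule.mul_le]
        intro y hy z hz
        have h7 := B.mul 0 0 1 b y hy z hz
        rwa [add_zero, add_comm 1 (b : ℤ)] at h7
      exact (mul_le_mul' h6 (le_refl (B.hat 1 N J s0))) h5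
  have key : ∀ i b : ℕ, B.hat 1 N (J + i) (s0 + b) ≤ B.U i b * B.hat 1 N J s0 := by
    intro i b
    induction i with
    | zero => exact key0 b
    | succ i ih =>
      rw [← add_assoc, hJs (J + i) (by omega)]
      refine Submodule.span_le.2 ?_
      rintro _ ⟨t, m, hm, rfl⟩
      have h5 := Submodule.mul_mem_mul (B.hv t) (ih hm)
      rw [← mul_assoc] at h5
      have h6 : B.U 1 0 * B.U i b ≤ B.U (i + 1) b := by
        rw [Submodule.mul_le]
        intro y hy z hz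
        have h7 := B.mul 1 i 0 b y hy z hz
        rwa [zero_add, add_comm 1 i] at h7
      exact (mul_le_mul' h6 (le_refl (B.hat 1 N J s0))) h5
  obtain ⟨p, hp⟩ := S.power 1 J s0
  have heq : ∀ j, J + p ≤ j → ∀ a : ℤ, (s0 : ℤ) + p ≤ a → B.hat 1 N j a = N j a := by
    intro j hj a ha
    refine le_antisymm ?_ (S.le_hat 1 j a)
    obtain ⟨q, rfl⟩ := Nat.exists_eq_add_of_le hj
    obtain ⟨c, hc⟩ := Int.eq_ofNat_of_zero_le (show 0 ≤ a - (s0 + p) by omega)
    obtain rfl : a = s0 + ((p + c : ℕ) : ℤ) := by push_cast; omega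
    rw [add_assoc]
    refine (key (p + q) (p + c)).trans ?_
    rw [Submodule.mul_le]
    intro y hy z hz
    have h4 : y ∈ B.U q ((c : ℕ) : ℤ) * B.U p ((p : ℕ) : ℤ) := by
      refine B.genU q p c p ?_
      rw [add_comm q p, show (c : ℤ) + (p : ℤ) = ((p + c : ℕ) : ℤ) by push_cast; ring]
      exact hy
    refine mul_act (fun z' hz' t' ht' => ?_) h4
    have h5 := S.umul hz' ((hp hz).2 t' (by rwa [one_mul]))
    rwa [show q + (p + J) = J + (p + q) by ring,
      show (c : ℤ) + (((1 * p : ℕ) : ℤ) + s0) = s0 + ((p + c : ℕ) : ℤ) by push_cast; ring] at h5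
  -- strips
  choose sr hsr using S.row hLN
  choose Jc hJc using S.column
  refine ⟨J + p + s0 + ∑ j ∈ Finset.range (J + p), (sr j).toNat +
    ∑ a ∈ Finset.range (s0 + p), Jc a, fun j hj a => ?_, fun j a ha => ?_⟩
  · rcases lt_or_ge a 0 with h4 | h4
    · have h5 : ∀ j, N j a = ⊥ := fun j => by
        rw [eq_bot_iff, ← B.U_neg j h4]
        exact S.le j a
      rw [h5]
      symm
      rw [eq_bot_iff]
      refine Submodule.span_le.2 ?_
      rintro _ ⟨t, m, hm, rfl⟩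
      rw [h5, Submodule.mem_bot] at hm
      rw [hm, mul_zero]
      exact Submodule.zero_mem _
    obtain ⟨c, rfl⟩ := Int.eq_ofNat_of_zero_le h4
    rcases Nat.lt_or_ge c (s0 + p) with h5 | h5
    · refine hJc _ j ?_
      have h6 := Finset.single_le_sum (f := fun a : ℕ => Jc a) (fun _ _ => Nat.zero_le _)
        (Finset.mem_range.2 h5)
      omega
    · have h6 := hJs j (by omega) c
      rw [heq (j + 1) (by omega) c (by omega)] at h6
      rw [h6]
      unfold VN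
      rw [heq j (by omega) c (by omega)]
  · rcases Nat.lt_or_ge j (J + p) with h5 | h5
    · refine hsr j a ?_
      have h6 := Finset.single_le_sum (f := fun j : ℕ => (sr j).toNat) (fun _ _ => Nat.zero_le _)
        (Finset.mem_range.2 h5)
      have h7 := Int.self_le_toNat (sr j)
      omega
    · have h6 := hrow j a (by omega)
      rw [P.G0_iff] at h6 ⊢
      rwa [heq j h5 a (by omega), heq j h5 (a + 1) (by omega)] at h6

end Stab

end Bi

end Pool.Agent.Lib.NOreP
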