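import Pool.Agent.Lib.NOreP.Gen
import Pool.Agent.Lib.NOreX.GS
import Pool.Agent.Lib.NOreP.Defs

/-!
# NOreP/Mk: the structures of a double extension of a regular algebra of dimension three
-/

set_option autoImplicit false

namespace Pool.Agent.Lib.NOreP

variable {k G : Type*} [Field k] [Ring G] [Algebra k G]

theorem zd_nat (A : ℕ → Submodule k G) (n : ℕ) : zd A (n : ℤ) = A n := by
  unfold zd
  rw [if_pos (Int.natCast_nonneg n), Int.toNat_natCast]

theorem zd_zero (A : ℕ → Submodule k G) : zd A 0 = A 0 := zd_nat A 0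

theorem zd_one (A : ℕ → Submodule k G) : zd A 1 = A 1 := zd_nat A 1

theorem zd_neg (A : ℕ → Submodule k G) {z : ℤ} (hz : z < 0) : zd A z = ⊥ := by
  unfold zd
  rw [if_neg (not_le.2 hz)]

theorem zd_cases (A : ℕ → Submodule k G) {z : ℤ} {y : G} (hy : y ∈ zd A z) :
    (z < 0 ∧ y = 0) ∨ ∃ n : ℕ, z = n ∧ y ∈ A n := by
  rcases lt_or_ge z 0 with h | h
  · left
    rw [zd_neg A h, Submodule.mem_bot] at hy
    exact ⟨h, hy⟩
  · right
    obtain ⟨n, rfl⟩ := Int.eq_ofNat_of_zero_le h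
    exact ⟨n, rfl, by rwa [zd_nat] at hy⟩

/-- the components of a product -/
theorem zd_mul {A B C : ℕ → Submodule k G} (h : ∀ m n, A m * B n ≤ C (m + n)) {m n : ℤ}
    {y z : G} (hy : y ∈ zd A m) (hz : z ∈ zd B n) : y * z ∈ zd C (m + n) := by
  rcases zd_cases A hy with ⟨-, rfl⟩ | ⟨m', rfl, hy'⟩
  · rw [zero_mul]
    exact Submodule.zero_mem _
  rcases zd_cases B hz with ⟨-, rfl⟩ | ⟨n', rfl, hz'⟩
  · rw [mul_zero]
    exact Submodule.zero_mem _
  have h1 : ((m' : ℤ) + (n' : ℤ)) = ((m' + n' : ℕ) : ℤ) := by push_cast; rfl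
  rw [h1, zd_nat]
  exact h m' n' (Submodule.mul_mem_mul hy' hz')

/-- elements of the product with the span of a finite family -/
theorem span_mul_mem {σ : Type*} [Fintype σ] {x : σ → G} {X : Submodule k G} {y : G}
    (hy : y ∈ Submodule.span k (Set.range x) * X) :
    ∃ z : σ → G, (∀ i, z i ∈ X) ∧ y = ∑ i, x i * z i := by
  classical
  refine Submodule.mul_induction_on hy ?_ ?_
  · intro m hm n hn
    obtain ⟨c, rfl⟩ := (Submodule.mem_span_range_iff_exists_fun k).1 hm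
    refine ⟨fun i => c i • n, fun i => Submodule.smul_mem _ _ hn, ?_⟩
    rw [Finset.sum_mul]
    exact Finset.sum_congr rfl fun i _ => by rw [smul_mul_assoc, mul_smul_comm]
  · rintro m n ⟨z, hz, rfl⟩ ⟨z', hz', rfl⟩
    refine ⟨z + z', fun i => Submodule.add_mem _ (hz i) (hz' i), ?_⟩
    simp only [Pi.add_apply, mul_add, Finset.sum_add_distrib]

namespace IsRegThree

variable {A : ℕ → Submodule k G} {r d : ℕ} {x : Fin r → G} {M : Fin r → Fin r → G}

theorem fg (h : IsRegThree A r d x M) (n : ℕ) : (A n).FG := by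
  induction n with
  | zero =>
    rw [h.zero, Submodule.one_eq_span]
    exact Submodule.fg_span_singleton 1
  | succ n ih =>
    rw [← h.mul n 1]
    refine ih.mul ?_
    rw [h.gen]
    exact Submodule.fg_span (Set.finite_range x)

theorem one_mem (h : IsRegThree A r d x M) : (1 : G) ∈ A 0 := by
  rw [h.zero]
  exact Submodule.one_le.1 le_rfl

theorem x_mem (h : IsRegThree A r d x M) (i : Fin r) : x i ∈ A 1 := by
  rw [h.gen]
  exact Submodule.subset_span ⟨i, rfl⟩

theorem finrank_zero (h : IsRegThree A r d x M) : Module.finrank k (A 0) = 1 := by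
  rw [h.zero, Submodule.one_eq_span]
  exact finrank_span_singleton h.one_ne

/-- the structure `Pl` of a regular algebra of dimension three -/
noncomputable def pl (h : IsRegThree A r d x M) (hn : IsNoethDomain A) : Pl (Fin r) k G where
  A := zd A
  x := x
  w := x
  M := M
  l := (d : ℤ) + 2
  typ := by
    rw [Fintype.card_fin]
    rcases h.typ with ⟨h1, h2⟩ | ⟨h1, h2⟩
    · left
      subst h1 h2
      exact ⟨rfl, rfl⟩
    · right
      subst h1 h2
      exact ⟨rfl, rfl⟩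
  neg a ha := zd_neg A ha
  fin a := by
    rcases lt_or_ge a 0 with h1 | h1
    · rw [zd_neg A h1]
      infer_instance
    · obtain ⟨n, rfl⟩ := Int.eq_ofNat_of_zero_le h1
      rw [zd_nat]
      exact Module.Finite.iff_fg.2 (h.fg n)
  zero := by
    rw [zd_zero]
    exact h.finrank_zero
  one := by
    rw [zd_zero]
    exact h.one_mem
  mul m n y hy z hz := zd_mul (fun m n => (h.mul m n).le) hy hz
  hx i := by
    rw [zd_one]
    exact h.x_mem i
  hw i := by
    rw [zd_one]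
    exact h.x_mem i
  hM i j := by
    rw [add_sub_cancel_right, zd_nat]
    exact h.mat i j
  gen a ha y hy := by
    obtain ⟨n, rfl⟩ := Int.eq_ofNat_of_zero_le ha
    have h1 : ((n : ℤ) + 1) = ((1 + n : ℕ) : ℤ) := by push_cast; ring
    rw [h1, zd_nat, ← h.mul 1 n, h.gen] at hy
    rw [zd_nat]
    exact span_mul_mem hy
  wspan y hy := by
    rw [zd_one, h.gen] at hy
    obtain ⟨c, hc⟩ := (Submodule.mem_span_range_iff_exists_fun k).1 hy
    exact ⟨c, hc.symm⟩
  dom m n y hy z hz hyz := by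
    rcases zd_cases A hy with ⟨-, rfl⟩ | ⟨m', rfl, hy'⟩
    · exact Or.inl rfl
    rcases zd_cases A hz with ⟨-, rfl⟩ | ⟨n', rfl, hz'⟩
    · exact Or.inr rfl
    exact hn.dom m' n' y hy' z hz' hyz
  rel1 := h.relL
  rel2 := h.relR
  ex1 a n hn h1 := by
    rw [add_sub_cancel_right]
    rcases lt_or_ge a 0 with ha | ha
    · refine ⟨0, fun j => Submodule.zero_mem _, fun i => ?_⟩
      have h2 := hn i
      rw [zd_neg A ha, Submodule.mem_bot] at h2
      rw [h2]
      exact (Finset.sum_eq_zero fun j _ => by rw [Pi.zero_apply, mul_zero]).symm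
    · obtain ⟨n', rfl⟩ := Int.eq_ofNat_of_zero_le ha
      exact h.exL1 n' n (fun i => by have h2 := hn i; rwa [zd_nat] at h2) h1
  ex2 a m hm h1 := by
    rcases lt_or_ge a 0 with ha | ha
    · refine ⟨0, Submodule.zero_mem _, fun i => ?_⟩
      have h2 := hm i
      rw [zd_neg A ha, Submodule.mem_bot] at h2
      rw [h2, mul_zero]
    · obtain ⟨n', rfl⟩ := Int.eq_ofNat_of_zero_le ha
      exact h.exL2 n' m (fun i => by have h2 := hm i; rwa [zd_nat] at h2) h1

end IsRegThree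

/-- elements of the product with the span of a finite family on the right -/
theorem mul_span_mem {σ : Type*} [Fintype σ] {x : σ → G} {X : Submodule k G} {y : G}
    (hy : y ∈ X * Submodule.span k (Set.range x)) :
    ∃ z : σ → G, (∀ i, z i ∈ X) ∧ y = ∑ i, z i * x i := by
  classical
  refine Submodule.mul_induction_on hy ?_ ?_
  · intro n hn m hm
    obtain ⟨c, rfl⟩ := (Submodule.mem_span_range_iff_exists_fun k).1 hm
    refine ⟨fun i => c i • n, fun i => Submodule.smul_mem _ _ hn, ?_⟩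
    rw [Finset.mul_sum]
    exact Finset.sum_congr rfl fun i _ => by rw [smul_mul_assoc, mul_smul_comm]
  · rintro m n ⟨z, hz, rfl⟩ ⟨z', hz', rfl⟩
    refine ⟨z + z', fun i => Submodule.add_mem _ (hz i) (hz' i), ?_⟩
    simp only [Pi.add_apply, add_mul, Finset.sum_add_distrib]

/-- the family indexed by the vectors with two entries -/
def fU (U : ℕ → ℕ → Submodule k G) (n : Fin 2 → ℕ) : Submodule k G := U (n 0) (n 1)

/-- no lower terms -/
def fL (_ : Fin 2 → ℕ) : Submodule k G := ⊥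

theorem dm_bot (U : ℕ → ℕ → Submodule k G) (n : Fin 2 → ℕ) :
    NOreX.dm (fU U) fL n = Module.finrank k (U (n 0) (n 1)) := by
  unfold NOreX.dm
  have h1 : Function.Injective (fL (k := k) (G := G) n).mkQ := by
    rw [← LinearMap.ker_eq_bot, Submodule.ker_mkQ]
    rfl
  exact (LinearEquiv.finrank_eq (Submodule.equivMapOfInjective _ h1 (fU U n))).symm

namespace IsDoubleExt

variable {U : ℕ → ℕ → Submodule k G} {r d : ℕ} {x : Fin r → G} {M : Fin r → Fin r → G}

theorem gs (h : IsDoubleExt U r d x M) : NOreX.GS (fU U) fL where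
  hLU _ := bot_le
  UU m n := (h.mul (m 0) (n 0) (m 1) (n 1)).le
  UL m n := by
    change fU U m * (⊥ : Submodule k G) ≤ ⊥
    rw [Submodule.mul_bot]
  LU m n := by
    change (⊥ : Submodule k G) * fU U n ≤ ⊥
    rw [Submodule.bot_mul]
  gen m n := (h.mul (m 0) (n 0) (m 1) (n 1)).ge.trans le_sup_left

theorem exists_ne (h : IsDoubleExt U r d x M) (a : ℕ) : ∃ y ∈ U 0 a, y ≠ 0 := by
  have hP := (h.reg.pl h.noe).x_ne
  have hr : 0 < r := by
    rcases h.reg.typ with ⟨h1, -⟩ | ⟨h1, -⟩ <;> omega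
  induction a with
  | zero => exact ⟨1, h.reg.one_mem, h.reg.one_ne⟩
  | succ a ih =>
    obtain ⟨y, hy, hy0⟩ := ih
    refine ⟨x ⟨0, hr⟩ * y, ?_, fun h1 => ?_⟩
    · rw [add_comm a 1, ← h.reg.mul 1 a]
      exact Submodule.mul_mem_mul (h.reg.x_mem _) hy
    · rcases h.noe.dom 1 a _ (h.reg.x_mem _) _ hy h1 with h2 | h2
      · exact hP ⟨0, hr⟩ h2
      · exact hy0 h2

theorem finA (h : IsDoubleExt U r d x M) (a : ℕ) : Module.Finite k (U 0 a) :=
  Module.Finite.iff_fg.2 (h.reg.fg a)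

theorem posA (h : IsDoubleExt U r d x M) (a : ℕ) : 0 < Module.finrank k (U 0 a) := by
  have h1 := h.finA a
  obtain ⟨y, hy, hy0⟩ := h.exists_ne a
  have h2 : Nontrivial (U 0 a) := ⟨⟨⟨y, hy⟩, 0, fun h3 => hy0 (congrArg Subtype.val h3)⟩⟩
  exact Module.finrank_pos

theorem pos (h : IsDoubleExt U r d x M) (j a : ℕ) : 0 < Module.finrank k (U j a) := by
  rw [h.dim j a]
  exact Nat.mul_pos (Nat.succ_pos j) (h.posA a)

theorem finU (h : IsDoubleExt U r d x M) (j a : ℕ) : Module.Finite k (U j a) :=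
  Module.finite_of_finrank_pos (h.pos j a)

theorem dm_eq (h : IsDoubleExt U r d x M) (n : Fin 2 → ℕ) :
    NOreX.dm (fU U) fL n = (n 0 + 1) * Module.finrank k (U 0 (n 1)) := by
  rw [dm_bot, h.dim]

theorem dm_pos (h : IsDoubleExt U r d x M) (n : Fin 2 → ℕ) : 0 < NOreX.dm (fU U) fL n := by
  rw [dm_bot]
  exact h.pos _ _

theorem e_zero (n : Fin 2 → ℕ) : (n + NOreX.e (0 : Fin 2)) 0 = n 0 + 1 := by
  simp [NOreX.e]

theorem e_one (n : Fin 2 → ℕ) : (n + NOreX.e (0 : Fin 2)) 1 = n 1 := by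
  simp [NOreX.e]

theorem dm_rel (h : IsDoubleExt U r d x M) (n : Fin 2 → ℕ) :
    NOreX.dm (fU U) fL (n + NOreX.e 0 + NOreX.e 0) + NOreX.dm (fU U) fL n =
      2 * NOreX.dm (fU U) fL (n + NOreX.e 0) := by
  rw [h.dm_eq, h.dm_eq, h.dm_eq, e_zero, e_zero, e_one, e_one]
  ring

theorem exists_dat (h : IsDoubleExt U r d x M) :
    ∃ v1 v2 u1 u2 : G, NOreX.Dat (fU U) fL (NOreX.e 0) v1 v2 u1 u2 := by
  have h1 : Module.finrank k (U 0 0) = 1 := h.reg.finrank_zero
  refine NOreX.exists_dat h.gs (NOreX.e 0) ?_ ?_ ?_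
  · have h2 := h.dm_eq (0 + NOreX.e 0)
    rw [e_zero, e_one] at h2
    rw [zero_add] at h2
    rw [h2, Pi.zero_apply, Pi.zero_apply, h1]
    norm_num
  · have h2 := h.dm_eq (0 + NOreX.e 0 + NOreX.e 0)
    rw [e_zero, e_zero, e_one, e_one] at h2
    rw [zero_add] at h2
    rw [h2, Pi.zero_apply, Pi.zero_apply, h1]
    norm_num
  · intro u hu w hw huw
    exact h.two u hu w hw huw

theorem rg (h : IsDoubleExt U r d x M) (n : Fin 2 → ℕ) :
    NOreX.Rg (fU U) fL (NOreX.e 0) n := by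
  obtain ⟨v1, v2, u1, u2, D⟩ := h.exists_dat
  have key : ∀ N : ℕ, ∀ n : Fin 2 → ℕ, n 0 = N → NOreX.Rg (fU U) fL (NOreX.e 0) n := by
    intro N
    induction N with
    | zero =>
      intro n hn
      refine NOreX.rg_of_dm h.gs (NOreX.e 0) n v1 v2 D.hv1 D.hv2 D.sv (h.dm_pos n) ?_
      rw [h.dm_eq, h.dm_eq, e_zero, e_one, hn]
      omega
    | succ N ih =>
      intro n hn
      have h1 : NOreX.e 0 ≤ n := by
        intro j
        by_cases hj : j = 0
        · rw [hj, hn]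
          simp [NOreX.e]
        · simp [NOreX.e, Pi.single_eq_of_ne hj]
      have h2 := tsub_add_cancel_of_le h1
      have h3 : (n - NOreX.e 0 : Fin 2 → ℕ) 0 = N := by
        rw [Pi.sub_apply, hn]
        simp [NOreX.e]
      have h4 := NOreX.rg_step h.gs (NOreX.e 0) (n - NOreX.e 0) v1 v2 u1 u2 D (h.dm_pos _)
        (h.dm_pos _) (h.dm_rel _) (ih _ h3)
      rw [h2] at h4
      exact h4
  exact key (n 0) n rfl

theorem fU_nat (j a : ℕ) : fU U ![j, a] = U j a := rfl

theorem fU_e (j a : ℕ) : fU U (![j, a] + NOreX.e 0) = U (j + 1) a := by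
  unfold fU
  rw [e_zero, e_one]
  rfl

theorem fU_one : fU U (NOreX.e 0) = U 1 0 := by
  have h1 := fU_e (U := U) 0 0
  rw [← h1]
  congr 1
  funext i
  fin_cases i <;> rfl

theorem ex_nat (h : IsDoubleExt U r d x M) {v1 v2 u1 u2 : G}
    (D : NOreX.Dat (fU U) fL (NOreX.e 0) v1 v2 u1 u2) (j a : ℕ) (b1 b2 : G)
    (h1 : b1 ∈ U (j + 1) a) (h2 : b2 ∈ U (j + 1) a) (h0 : v1 * b1 + v2 * b2 = 0) :
    ∃ z ∈ U j a, b1 = u1 * z ∧ b2 = u2 * z := by
  rw [← fU_e (U := U)] at h1 h2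
  obtain ⟨h3, -⟩ := NOreX.rt_of_rg h.gs (NOreX.e 0) ![j, a] v1 v2 u1 u2 D (h.dm_pos _)
    (h.dm_pos _) (h.dm_rel _) (h.rg _)
  obtain ⟨_, ⟨z, hz, rfl⟩, h5, h6⟩ := h3 ((fL (k := k) (G := G) (![j, a] + NOreX.e 0)).mkQ b1)
    (Submodule.mem_map_of_mem h1) ((fL (k := k) (G := G) (![j, a] + NOreX.e 0)).mkQ b2)
    (Submodule.mem_map_of_mem h2) (by
      rw [NOreX.mq_mk, NOreX.mq_mk, ← map_add, h0, map_zero])
  refine ⟨z, hz, ?_, ?_⟩
  · rw [NOreX.mq_mk, ← sub_eq_zero, ← map_sub, NOreX.mkQ_zero] at h5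
    exact (sub_eq_zero.1 ((Submodule.mem_bot k).1 h5)).symm
  · rw [NOreX.mq_mk, ← sub_eq_zero, ← map_sub, NOreX.mkQ_zero] at h6
    exact (sub_eq_zero.1 ((Submodule.mem_bot k).1 h6)).symm

theorem tor_nat (h : IsDoubleExt U r d x M) {v : G} (hv : v ∈ U 1 0) (hv0 : v ≠ 0) (j a : ℕ)
    (z : G) (hz : z ∈ U j a) (h0 : v * z = 0) : z = 0 := by
  have h1 := h.rg ![j, a] v (by rw [fU_one]; exact hv)
    (fun h2 => hv0 ((Submodule.mem_bot k).1 h2)) z hz (by rw [h0]; exact Submodule.zero_mem _)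
  exact (Submodule.mem_bot k).1 h1

theorem spn_range {v1 v2 : G} (hv1 : v1 ∈ fU U (NOreX.e 0)) (hv2 : v2 ∈ fU U (NOreX.e 0))
    (hs : NOreX.Spn (fU U) fL (NOreX.e 0) v1 v2) :
    U 1 0 = Submodule.span k (Set.range ![v1, v2]) := by
  rw [← fU_one (U := U)]
  apply le_antisymm
  · intro y hy
    obtain ⟨α, β, h1⟩ := hs y hy
    have h2 : y = α • v1 + β • v2 := sub_eq_zero.1 ((Submodule.mem_bot k).1 h1)
    rw [h2]
    refine Submodule.add_mem _ (Submodule.smul_mem _ _ (Submodule.subset_span ⟨0, rfl⟩))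
      (Submodule.smul_mem _ _ (Submodule.subset_span ⟨1, rfl⟩))
  · rw [Submodule.span_le]
    rintro _ ⟨i, rfl⟩
    fin_cases i
    · exact hv1
    · exact hv2

/-- the basis of the component of degree `(j, 0)` and the freeness over `U 0` -/
theorem bas (h : IsDoubleExt U r d x M) (j : ℕ) : ∃ C : Fin (j + 1) → G, (∀ β, C β ∈ U j 0) ∧
    (∀ a, ∀ y ∈ U j a, ∃ z : Fin (j + 1) → G, (∀ β, z β ∈ U 0 a) ∧ y = ∑ β, z β * C β) ∧
    ∀ (a : ℕ) (z : Fin (j + 1) → G), (∀ β, z β ∈ U 0 a) → ∑ β, z β * C β = 0 →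
      ∀ β, z β = 0 := by
  have hf := h.finU j 0
  have h1 : Module.finrank k (U j 0) = j + 1 := by
    rw [h.dim, h.reg.finrank_zero, mul_one]
  let b : Module.Basis (Fin (j + 1)) k (U j 0) := Module.finBasisOfFinrankEq k (U j 0) h1
  let C : Fin (j + 1) → G := fun β => b β
  have hC : ∀ β, C β ∈ U j 0 := fun β => (b β).2
  have hsp : U j 0 = Submodule.span k (Set.range C) := by
    apply le_antisymm
    · intro y hy
      have h2 := b.sum_repr ⟨y, hy⟩
      have h3 := congrArg Subtype.val h2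
      rw [Submodule.coe_sum] at h3
      have h4 : ((⟨y, hy⟩ : U j 0) : G) = y := rfl
      rw [h4] at h3
      rw [← h3]
      refine Submodule.sum_mem _ fun β _ => ?_
      rw [Submodule.coe_smul]
      exact Submodule.smul_mem _ _ (Submodule.subset_span ⟨β, rfl⟩)
    · rw [Submodule.span_le]
      rintro _ ⟨β, rfl⟩
      exact hC β
  have hsur : ∀ a, ∀ y ∈ U j a, ∃ z : Fin (j + 1) → G, (∀ β, z β ∈ U 0 a) ∧
      y = ∑ β, z β * C β := by
    intro a y hy
    have h2 := h.mul 0 j a 0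
    rw [zero_add, add_zero, hsp] at h2
    rw [← h2] at hy
    exact mul_span_mem hy
  refine ⟨C, hC, hsur, ?_⟩
  intro a z hz h0 β
  have hfa := h.finA a
  have hfj := h.finU j a
  have hmem : ∀ w : Fin (j + 1) → U 0 a, ∑ β, (w β : G) * C β ∈ U j a := by
    intro w
    refine Submodule.sum_mem _ fun β _ => ?_
    have h2 := h.mul 0 j a 0
    rw [zero_add, add_zero] at h2
    rw [← h2]
    exact Submodule.mul_mem_mul (w β).2 (hC β)
  let T : (Fin (j + 1) → U 0 a) →ₗ[k] U j a :=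
    { toFun := fun w => ⟨∑ β, (w β : G) * C β, hmem w⟩
      map_add' := by
        intro w w'
        apply Subtype.ext
        change ∑ β, ((w + w') β : G) * C β = ∑ β, (w β : G) * C β + ∑ β, (w' β : G) * C β
        rw [← Finset.sum_add_distrib]
        exact Finset.sum_congr rfl fun β _ => by
          rw [Pi.add_apply, Submodule.coe_add, add_mul]
      map_smul' := by
        intro c w
        apply Subtype.ext
        change ∑ β, ((c • w) β : G) * C β = c • ∑ β, (w β : G) * C β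
        rw [Finset.smul_sum]
        exact Finset.sum_congr rfl fun β _ => by
          rw [Pi.smul_apply, Submodule.coe_smul, smul_mul_assoc] }
  have hT : Function.Surjective T := by
    rintro ⟨y, hy⟩
    obtain ⟨z, hz, h2⟩ := hsur a y hy
    exact ⟨fun β => ⟨z β, hz β⟩, Subtype.ext h2.symm⟩
  have hdim : Module.finrank k (Fin (j + 1) → U 0 a) = Module.finrank k (U j a) := by
    rw [h.dim j a, Module.finrank_pi_fintype]
    simp
  have hinj : Function.Injective T :=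
    (LinearMap.injective_iff_surjective_of_finrank_eq_finrank hdim).2 hT
  have h3 : T (fun β => ⟨z β, hz β⟩) = 0 := Subtype.ext h0
  have h4 := hinj (h3.trans (map_zero T).symm)
  exact congrArg Subtype.val (congrFun h4 β)

theorem exists_bi (h : IsDoubleExt U r d x M) :
    ∃ B : Bi (h.reg.pl h.noe), ∀ j, B.U j = zd (U j) := by
  obtain ⟨v1, v2, u1, u2, D⟩ := h.exists_dat
  have hv1 : v1 ∈ U 1 0 := by
    rw [← fU_one (U := U)]
    exact D.hv1
  have hv2 : v2 ∈ U 1 0 := by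
    rw [← fU_one (U := U)]
    exact D.hv2
  have hu1 : u1 ∈ U 1 0 := by
    rw [← fU_one (U := U)]
    exact D.hu1
  have hu2 : u2 ∈ U 1 0 := by
    rw [← fU_one (U := U)]
    exact D.hu2
  have hsv := spn_range D.hv1 D.hv2 D.sv
  have hsu := spn_range D.hu1 D.hu2 D.su
  have hv0 : v1 ≠ 0 := fun h1 => D.iv.left (by rw [h1]; exact Submodule.zero_mem _)
  have hrel : v1 * u1 + v2 * u2 = 0 := (Submodule.mem_bot k).1 D.rel
  have hneg : ∀ (j : ℕ) {a : ℤ}, a < 0 → ∀ y ∈ zd (U j) a, y = 0 := by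
    intro j a ha y hy
    rwa [zd_neg _ ha, Submodule.mem_bot] at hy
  refine ⟨{
    U := fun j => zd (U j)
    v := ![v1, v2]
    u := ![u1, u2]
    U0 := fun a => rfl
    hv := ?_
    hu := ?_
    uspan := ?_
    vspan := ?_
    mul := fun i j a b y hy z hz => zd_mul (fun m n => (h.mul i j m n).le) hy hz
    genV := ?_
    genA := ?_
    relV := ?_
    exV := ?_
    torV := ?_
    genU := ?_
    bas := ?_ }, fun _ => rfl⟩
  · intro s
    rw [zd_zero]
    fin_cases s
    · exact hv1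
    · exact hv2
  · intro s
    rw [zd_zero]
    fin_cases s
    · exact hu1
    · exact hu2
  · intro y hy
    rw [zd_zero, hsu] at hy
    obtain ⟨c, hc⟩ := (Submodule.mem_span_range_iff_exists_fun k).1 hy
    exact ⟨c, hc.symm⟩
  · intro y hy
    rw [zd_zero, hsv] at hy
    obtain ⟨c, hc⟩ := (Submodule.mem_span_range_iff_exists_fun k).1 hy
    exact ⟨c, hc.symm⟩
  · intro j a y hy
    rcases zd_cases (U (j + 1)) hy with ⟨-, rfl⟩ | ⟨n, rfl, hy'⟩
    · exact ⟨0, fun s => Submodule.zero_mem _, by simp⟩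
    · have h1 := h.mul 1 j 0 n
      rw [hsv, add_comm 1 j, zero_add] at h1
      rw [← h1] at hy'
      rw [zd_nat]
      exact span_mul_mem hy'
  · intro j a ha y hy
    obtain ⟨n, rfl⟩ := Int.eq_ofNat_of_zero_le ha
    have h1 : ((n : ℤ) + 1) = ((1 + n : ℕ) : ℤ) := by push_cast; ring
    have h2 := h.mul 0 j 1 n
    rw [zero_add, h.reg.gen] at h2
    rw [h1, zd_nat, ← h2] at hy
    rw [zd_nat]
    exact span_mul_mem hy
  · rw [Fin.sum_univ_two]
    exact hrel
  · intro j a b hb h0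
    rcases lt_or_ge a 0 with ha | ha
    · refine ⟨0, Submodule.zero_mem _, fun s => ?_⟩
      rw [hneg _ ha _ (hb s), mul_zero]
    · obtain ⟨n, rfl⟩ := Int.eq_ofNat_of_zero_le ha
      have h1 := hb 0
      have h2 := hb 1
      rw [zd_nat] at h1 h2
      rw [Fin.sum_univ_two] at h0
      obtain ⟨z, hz, h3, h4⟩ := h.ex_nat D j n (b 0) (b 1) h1 h2 h0
      refine ⟨z, by rw [zd_nat]; exact hz, fun s => ?_⟩
      fin_cases s
      · exact h3
      · exact h4
  · intro j a z hz h0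
    rcases zd_cases (U j) hz with ⟨-, rfl⟩ | ⟨n, rfl, hz'⟩
    · rfl
    · exact h.tor_nat hv1 hv0 j n z hz' (h0 0)
  · intro i j a b
    have h1 : ((a : ℤ) + (b : ℤ)) = ((a + b : ℕ) : ℤ) := by push_cast; rfl
    change zd (U (i + j)) ((a : ℤ) + (b : ℤ)) ≤ zd (U i) (a : ℤ) * zd (U j) (b : ℤ)
    rw [h1, zd_nat, zd_nat, zd_nat]
    exact (h.mul i j a b).ge
  · intro j
    obtain ⟨C, hC, h1, h2⟩ := h.bas j
    refine ⟨C, fun β => by rw [zd_zero]; exact hC β, ?_, ?_⟩
    · intro a y hy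
      rcases zd_cases (U j) hy with ⟨-, rfl⟩ | ⟨n, rfl, hy'⟩
      · exact ⟨0, fun s => Submodule.zero_mem _, by simp⟩
      · obtain ⟨z, hz, h3⟩ := h1 n y hy'
        refine ⟨z, fun β => ?_, h3⟩
        change z β ∈ zd (U 0) (n : ℤ)
        rw [zd_nat]
        exact hz β
    · intro a z hz h0 β
      rcases lt_or_ge a 0 with ha | ha
      · exact hneg 0 ha _ (hz β)
      · obtain ⟨n, rfl⟩ := Int.eq_ofNat_of_zero_le ha
        refine h2 n z (fun β => ?_) h0 β
        have h3 : z β ∈ zd (U 0) (n : ℤ) := hz β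
        rwa [zd_nat] at h3

theorem ln (h : IsDoubleExt U r d x M) : (h.reg.pl h.noe).LN := by
  intro X hX hst
  obtain ⟨s, hs⟩ := h.noe.left (fun a => X (a : ℤ)) (fun a => by
    have h1 := hX (a : ℤ)
    have h2 : (h.reg.pl h.noe).A (a : ℤ) = U 0 a := zd_nat (U 0) a
    rwa [h2] at h1) (fun a => by
    rw [h.reg.gen]
    intro y hy
    obtain ⟨z, hz, rfl⟩ := span_mul_mem hy
    refine Submodule.sum_mem _ fun i _ => ?_
    have h1 := hst (a : ℤ) (z i) (hz i) i
    have h2 : ((a + 1 : ℕ) : ℤ) = (a : ℤ) + 1 := by push_cast; rfl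
    rw [h2]
    exact h1)
  refine ⟨s, fun a ha => ?_⟩
  obtain ⟨n, rfl⟩ := Int.eq_ofNat_of_zero_le (le_trans (Int.natCast_nonneg s) ha)
  intro y hy
  have h1 := hs n (by exact_mod_cast ha)
  have h2 : ((n + 1 : ℕ) : ℤ) = (n : ℤ) + 1 := by push_cast; rfl
  rw [h2, h.reg.gen] at h1
  exact span_mul_mem (h1 hy)

/-- **All stable families are generated in bounded degrees.** -/
theorem gen_nat (h : IsDoubleExt U r d x M) (N : ℕ → ℕ → Submodule k G)
    (hle : ∀ j a, N j a ≤ U j a) (hx : ∀ j a, U 0 1 * N j a ≤ N j (a + 1))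
    (hv : ∀ j a, U 1 0 * N j a ≤ N (j + 1) a) :
    ∃ m : ℕ, (∀ j a, m ≤ j → N (j + 1) a ≤ U 1 0 * N j a) ∧
      ∀ j a, m ≤ a → N j (a + 1) ≤ U 0 1 * N j a := by
  obtain ⟨B, hB⟩ := h.exists_bi
  have hS : B.Stab (fun j => zd (N j)) := by
    refine ⟨?_, ?_, ?_⟩
    · intro j a y hy
      rw [hB j]
      rcases zd_cases (N j) hy with ⟨-, rfl⟩ | ⟨n, rfl, hy'⟩
      · exact Submodule.zero_mem _
      · rw [zd_nat]
        exact hle j n hy'
    · intro j a y hy i
      rcases zd_cases (N j) hy with ⟨-, rfl⟩ | ⟨n, rfl, hy'⟩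
      · rw [smul_zero]
        exact Submodule.zero_mem _
      · have h2 : (n : ℤ) + 1 = ((n + 1 : ℕ) : ℤ) := by push_cast; rfl
        rw [h2, zd_nat]
        exact hx j n (Submodule.mul_mem_mul (h.reg.x_mem i) hy')
    · intro j a y hy s
      rcases zd_cases (N j) hy with ⟨-, rfl⟩ | ⟨n, rfl, hy'⟩
      · rw [mul_zero]
        exact Submodule.zero_mem _
      · rw [zd_nat]
        have h3 := B.hv s
        rw [hB 1, zd_zero] at h3
        exact hv j n (Submodule.mul_mem_mul h3 hy')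
  obtain ⟨m, h1, h2⟩ := hS.gen_all h.ln
  refine ⟨m, ?_, ?_⟩
  · intro j a hj y hy
    have h3 := h1 j hj (a : ℤ)
    rw [zd_nat] at h3
    rw [h3, B.mem_VN] at hy
    obtain ⟨b, hb, rfl⟩ := hy
    refine Submodule.sum_mem _ fun s _ => ?_
    have h4 := hb s
    rw [zd_nat] at h4
    have h5 := B.hv s
    rw [hB 1, zd_zero] at h5
    exact Submodule.mul_mem_mul h5 h4
  · intro j a ha y hy
    have h3 := h2 j (a : ℤ) (by exact_mod_cast ha) y (by
      have h4 : (a : ℤ) + 1 = ((a + 1 : ℕ) : ℤ) := by push_cast; rfl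
      rw [h4, zd_nat]
      exact hy)
    obtain ⟨z, hz, rfl⟩ := h3
    refine Submodule.sum_mem _ fun i _ => ?_
    have h4 := hz i
    rw [zd_nat] at h4
    exact Submodule.mul_mem_mul (h.reg.x_mem i) h4

end IsDoubleExt

end Pool.Agent.Lib.NOreP
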