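import Pool.Agent.Lib.NOreP.Mk

/-!
# NOreP/Noe: deformations of double extensions of regular algebras of dimension three are left
noetherian
-/

set_option autoImplicit false

namespace Pool.Agent.Lib.NOreP

variable {k G : Type*} [Field k] [Ring G] [Algebra k G] {R : Type*} [Ring R] [Algebra k R]
  {U : ℕ → ℕ → Submodule k G} {lt : ℕ × ℕ → ℕ × ℕ → Prop} {F : ℕ × ℕ → Submodule k R}
  {θ : ∀ n, F n →ₗ[k] G}

theorem lowP_le_iff {n : ℕ × ℕ} {X : Submodule k R} :
    lowP lt F n ≤ X ↔ ∀ m, lt m n → F m ≤ X := by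
  unfold lowP
  simp only [iSup_le_iff]

theorem mem_lowP [IsWellOrder (ℕ × ℕ) lt] (hmono : ∀ m n, lt m n → F m ≤ F n) {n : ℕ × ℕ}
    {x : R} (hx : x ∈ lowP lt F n) : x = 0 ∨ ∃ m, lt m n ∧ x ∈ F m := by
  let X : Submodule k R :=
    { carrier := {x | x = 0 ∨ ∃ m, lt m n ∧ x ∈ F m}
      add_mem' := by
        rintro a b (rfl | ⟨m, hm, ha⟩) hb
        · rw [zero_add]
          exact hb
        · rcases hb with rfl | ⟨m', hm', hb⟩
          · rw [add_zero]
            exact Or.inr ⟨m, hm, ha⟩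
          · rcases trichotomous_of lt m m' with h | h | h
            · exact Or.inr ⟨m', hm', (F m').add_mem (hmono _ _ h ha) hb⟩
            · rw [← h] at hb
              exact Or.inr ⟨m, hm, (F m).add_mem ha hb⟩
            · exact Or.inr ⟨m, hm, (F m).add_mem ha (hmono _ _ h hb)⟩
      zero_mem' := Or.inl rfl
      smul_mem' := by
        rintro c a (rfl | ⟨m, hm, ha⟩)
        · rw [smul_zero]
          exact Or.inl rfl
        · exact Or.inr ⟨m, hm, (F m).smul_mem c ha⟩ }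
  have h1 : lowP lt F n ≤ X := by
    rw [lowP_le_iff]
    intro m hm y hy
    exact Or.inr ⟨m, hm, hy⟩
  exact h1 hx

variable (θ) in
/-- the symbols of the elements of a subspace -/
def sym (A : Submodule k R) (j a : ℕ) : Submodule k G :=
  (A.comap (F (j, a)).subtype).map (θ (j, a))

theorem mem_sym {A : Submodule k R} {j a : ℕ} {g : G} :
    g ∈ sym θ A j a ↔ ∃ y : F (j, a), (y : R) ∈ A ∧ θ (j, a) y = g := by
  unfold sym
  rw [Submodule.mem_map]
  exact ⟨fun ⟨y, hy, h⟩ => ⟨y, hy, h⟩, fun ⟨y, hy, h⟩ => ⟨y, hy, h⟩⟩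

theorem sym_mono {A B : Submodule k R} (h : A ≤ B) (j a : ℕ) : sym θ A j a ≤ sym θ B j a := by
  intro g hg
  obtain ⟨y, hy, h1⟩ := mem_sym.1 hg
  exact mem_sym.2 ⟨y, h hy, h1⟩

/-- finitely many elements have all the symbols of a given degree -/
theorem sym_fin (A : Submodule k R) (j a : ℕ) (hf : Module.Finite k (sym θ A j a)) :
    ∃ S : Set R, S.Finite ∧ (∀ y ∈ S, y ∈ A ∧ y ∈ F (j, a)) ∧
      sym θ A j a ≤ sym θ (Submodule.span k S) j a := by
  obtain ⟨T, hT⟩ := Module.Finite.iff_fg.1 hf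
  have h1 : ∀ g : T, ∃ y : F (j, a), (y : R) ∈ A ∧ θ (j, a) y = g := fun g => by
    refine mem_sym.1 ?_
    rw [← hT]
    exact Submodule.subset_span g.2
  choose f hf1 hf2 using h1
  refine ⟨Set.range (fun g : T => (f g : R)), Set.finite_range _, ?_, ?_⟩
  · rintro _ ⟨g, rfl⟩
    exact ⟨hf1 g, (f g).2⟩
  · rw [← hT, Submodule.span_le]
    intro g hg
    refine mem_sym.2 ⟨f ⟨g, hg⟩, Submodule.subset_span ⟨⟨g, hg⟩, rfl⟩, hf2 ⟨g, hg⟩⟩

namespace IsDeformation

theorem sym_le (h : IsDeformation U lt F θ) (A : Submodule k R) (j a : ℕ) :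
    sym θ A j a ≤ U j a := by
  intro g hg
  obtain ⟨y, -, rfl⟩ := mem_sym.1 hg
  have h1 := h.range (j, a)
  rw [← h1]
  exact ⟨y, rfl⟩

theorem sym_mul (h : IsDeformation U lt F θ) (A : Ideal R) (i b j a : ℕ) :
    U i b * sym θ (A.restrictScalars k) j a ≤ sym θ (A.restrictScalars k) (i + j) (b + a) := by
  rw [Submodule.mul_le]
  intro g hg g' hg'
  obtain ⟨z, hz, rfl⟩ := mem_sym.1 hg'
  have h1 := h.range (i, b)
  rw [← h1] at hg
  obtain ⟨y, rfl⟩ := hg
  exact mem_sym.2 ⟨⟨(y : R) * z, h.mul (i, b) (j, a) y y.2 z z.2⟩, A.mul_mem_left _ hz,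
    h.symb (i, b) (j, a) y z _ rfl⟩

theorem noeth [IsWellOrder (ℕ × ℕ) lt] (h : IsDeformation U lt F θ)
    (hfin : ∀ j a, Module.Finite k (U j a))
    (hgen : ∀ N : ℕ → ℕ → Submodule k G, (∀ j a, N j a ≤ U j a) →
      (∀ j a, U 0 1 * N j a ≤ N j (a + 1)) → (∀ j a, U 1 0 * N j a ≤ N (j + 1) a) →
      ∃ m : ℕ, (∀ j a, m ≤ j → N (j + 1) a ≤ U 1 0 * N j a) ∧
        ∀ j a, m ≤ a → N j (a + 1) ≤ U 0 1 * N j a) : IsNoetherianRing R := by
  rw [isNoetherianRing_iff_ideal_fg]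
  intro A
  let A' : Submodule k R := A.restrictScalars k
  have hs1 : ∀ (B : Ideal R) (j a : ℕ), U 0 1 * sym θ (B.restrictScalars k) j a ≤
      sym θ (B.restrictScalars k) j (a + 1) := by
    intro B j a
    have h1 := h.sym_mul B 0 1 j a
    rwa [zero_add, add_comm 1 a] at h1
  have hs2 : ∀ (B : Ideal R) (j a : ℕ), U 1 0 * sym θ (B.restrictScalars k) j a ≤
      sym θ (B.restrictScalars k) (j + 1) a := by
    intro B j a
    have h1 := h.sym_mul B 1 0 j a
    rwa [zero_add, add_comm 1 j] at h1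
  obtain ⟨m, hm1, hm2⟩ := hgen (sym θ A') (h.sym_le A') (hs1 A) (hs2 A)
  have hS : ∀ n : ℕ × ℕ, ∃ S : Set R, S.Finite ∧ (∀ y ∈ S, y ∈ A' ∧ y ∈ F (n.1, n.2)) ∧
      sym θ A' n.1 n.2 ≤ sym θ (Submodule.span k S) n.1 n.2 := fun n => by
    have h1 := hfin n.1 n.2
    exact sym_fin A' n.1 n.2 (Submodule.finiteDimensional_of_le (h.sym_le A' n.1 n.2))
  choose S hS0 hS1 hS2 using hS
  let box : Set (ℕ × ℕ) := Set.Iic (m, m)
  have hbox : box.Finite := Set.finite_Iic _
  let J : Ideal R := Ideal.span (⋃ n ∈ box, S n)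
  have hJfg : J.FG := Submodule.fg_span (hbox.biUnion fun n _ => hS0 n)
  have hJA : J ≤ A := by
    refine Ideal.span_le.2 ?_
    intro x hx
    rw [Set.mem_iUnion₂] at hx
    obtain ⟨n, _, hx⟩ := hx
    exact (hS1 n x hx).1
  let J' : Submodule k R := J.restrictScalars k
  have mulr : ∀ {X Y Z : Submodule k G}, Y ≤ Z → X * Y ≤ X * Z := fun {X Y Z} h1 =>
    mul_le_mul' (le_refl X) h1
  have key : ∀ s j a : ℕ, j + a = s → sym θ A' j a ≤ sym θ J' j a := by
    intro s
    induction s with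
    | zero =>
      intro j a hja
      have hb : (j, a) ∈ box := by
        refine Set.mem_Iic.2 (Prod.mk_le_mk.2 ⟨?_, ?_⟩) <;> omega
      refine (hS2 (j, a)).trans (sym_mono ?_ j a)
      rw [Submodule.span_le]
      intro x hx
      exact Ideal.subset_span (Set.mem_iUnion₂.2 ⟨(j, a), hb, hx⟩)
    | succ s ih =>
      intro j a hja
      by_cases hb : (j, a) ∈ box
      · refine (hS2 (j, a)).trans (sym_mono ?_ j a)
        rw [Submodule.span_le]
        intro x hx
        exact Ideal.subset_span (Set.mem_iUnion₂.2 ⟨(j, a), hb, hx⟩)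
      · have h1 : m < j ∨ m < a := by
          by_contra h2
          push Not at h2
          exact hb (Set.mem_Iic.2 (Prod.mk_le_mk.2 h2))
        rcases h1 with h1 | h1
        · obtain ⟨j', rfl⟩ : ∃ j', j = j' + 1 := ⟨j - 1, by omega⟩
          refine (hm1 j' a (by omega)).trans ?_
          exact (mulr (ih j' a (by omega))).trans (hs2 J j' a)
        · obtain ⟨a', rfl⟩ : ∃ a', a = a' + 1 := ⟨a - 1, by omega⟩
          refine (hm2 j a' (by omega)).trans ?_
          exact (mulr (ih j a' (by omega))).trans (hs1 J j a')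
  have hfin' : ∀ n : ℕ × ℕ, ∀ y ∈ F n, y ∈ A' → y ∈ J' := by
    intro n
    induction n using (IsWellFounded.wf (r := lt)).induction with
    | _ n ih =>
      intro y hy hyA
      have h1 : θ n ⟨y, hy⟩ ∈ sym θ A' n.1 n.2 := mem_sym.2 ⟨⟨y, hy⟩, hyA, rfl⟩
      obtain ⟨z, hz, h2⟩ := mem_sym.1 (key _ n.1 n.2 rfl h1)
      have h3 : θ n (⟨y, hy⟩ - z) = 0 := by
        rw [map_sub]
        exact sub_eq_zero.2 h2.symm
      have h4 := (h.ker n _).1 h3
      have h5 : y - z ∈ A' := A'.sub_mem hyA (hJA hz)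
      have h6 : y - z ∈ J' := by
        rcases mem_lowP h.mono h4 with h7 | ⟨m', hm', h7⟩
        · have h8 : y - (z : R) = 0 := h7
          rw [h8]
          exact J'.zero_mem
        · exact ih m' hm' _ h7 h5
      have h7 := J'.add_mem h6 hz
      rwa [sub_add_cancel] at h7
  have hAJ : A = J := by
    refine le_antisymm ?_ hJA
    intro x hx
    obtain ⟨n, hn⟩ := h.exh x
    exact hfin' n x hn hx
  rw [hAJ]
  exact hJfg

end IsDeformation

end Pool.Agent.Lib.NOreP
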