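import Pool.Agent.Lib.NOreP.Reg

/-!
# NOreP/NoeF: finite generation, finite presentation and ranks of subfamilies of free families
-/

set_option autoImplicit false

namespace Pool.Agent.Lib.NOreP

namespace Pl

variable {σ : Type} [Fintype σ] {k R : Type*} [Field k] [Ring R] [Algebra k R] (P : Pl σ k R)
variable {Mo : Type*} [AddCommGroup Mo] [Module R Mo] [Module k Mo] [IsScalarTower k R Mo]

/-- graded left ideals are finitely generated -/
def LN : Prop := ∀ X : ℤ → Submodule k R, (∀ a, X a ≤ P.A a) → P.Stb X → ∃ s, ∀ a, s ≤ a → P.G0 X a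

/-- eventual generation in extensions -/
theorem ext_gen {Mo' : Type*} [AddCommGroup Mo'] [Module R Mo'] [Module k Mo']
    [IsScalarTower k R Mo'] (π : Mo →ₗ[R] Mo') {N N0 : ℤ → Submodule k Mo}
    {N1 : ℤ → Submodule k Mo'} (h0 : ∀ a n, n ∈ N0 a ↔ n ∈ N a ∧ π n = 0)
    (h1 : ∀ a n, n ∈ N1 a ↔ ∃ m ∈ N a, π m = n) {a : ℤ} (hN : P.Stb N) (g0 : P.G0 N0 a)
    (g1 : P.G0 N1 a) : P.G0 N a := by
  intro n hn
  obtain ⟨z, hz, hnz⟩ := g1 (π n) ((h1 _ _).2 ⟨n, hn, rfl⟩)
  choose y hy hyz using fun i => (h1 _ _).1 (hz i)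
  have h2 : n - ∑ i, P.x i • y i ∈ N0 (a + 1) := by
    refine (h0 _ _).2 ⟨Submodule.sub_mem _ hn (Submodule.sum_mem _ fun i _ => hN _ _ (hy i) i), ?_⟩
    rw [map_sub, map_sum]
    simp only [map_smul, hyz]
    rw [hnz, sub_self]
  obtain ⟨w, hw, h3⟩ := g0 _ h2
  refine ⟨fun i => y i + w i, fun i => Submodule.add_mem _ (hy i) ((h0 _ _).1 (hw i)).1, ?_⟩
  simp only [smul_add, Finset.sum_add_distrib]
  rw [← h3]
  abel

/-- subfamilies of free families are finitely generated -/
theorem Fr_noe (hLN : P.LN) {ι : Type} [Fintype ι] (c : ι → ℤ) (X : ℤ → Submodule k (ι → R))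
    (hX : ∀ a, X a ≤ P.Fr c a) (hs : P.Stb X) : ∃ s, ∀ a, s ≤ a → P.G0 X a := by
  classical
  have key : ∀ T : Finset ι, ∀ X : ℤ → Submodule k (ι → R), (∀ a, X a ≤ P.Fr c a) → P.Stb X →
      (∀ a, ∀ n ∈ X a, ∀ i, i ∉ T → n i = 0) → ∃ s, ∀ a, s ≤ a → P.G0 X a := by
    intro T
    induction T using Finset.induction_on with
    | empty =>
      intro X _ _ h
      refine ⟨0, fun a _ n hn => ⟨0, fun _ => Submodule.zero_mem _, ?_⟩⟩
      have h1 : n = 0 := funext fun i => h _ n hn i (Finset.notMem_empty i)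
      rw [h1]
      simp
    | insert i T hi ih =>
      intro X hX hs h
      let π : (ι → R) →ₗ[R] R := LinearMap.proj i
      let X0 : ℤ → Submodule k (ι → R) := fun a =>
        X a ⊓ LinearMap.ker (π.restrictScalars k)
      let X1 : ℤ → Submodule k R := fun a => (X a).map (π.restrictScalars k)
      have m0 : ∀ a n, n ∈ X0 a ↔ n ∈ X a ∧ π n = 0 := fun a n => Iff.rfl
      have m1 : ∀ a n, n ∈ X1 a ↔ ∃ m ∈ X a, π m = n := fun a n => Iff.rfl
      obtain ⟨s0, hs0⟩ := ih X0 (fun a => inf_le_left.trans (hX a)) (fun a n hn i' => by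
        rw [m0] at hn ⊢
        exact ⟨hs _ _ hn.1 i', by rw [map_smul, hn.2, smul_zero]⟩) (fun a n hn i' hi' => by
        rw [m0] at hn
        by_cases h2 : i' = i
        · rw [h2]
          exact hn.2
        · exact h a n hn.1 i' (fun h3 => (Finset.mem_insert.1 h3).elim h2 hi'))
      obtain ⟨s1, hs1⟩ := hLN (fun a => X1 (a + c i)) (fun a n hn => by
        obtain ⟨m, hm, rfl⟩ := (m1 _ _).1 hn
        have h2 := hX _ hm i
        rwa [add_sub_cancel_right] at h2) (fun a n hn i' => by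
        obtain ⟨m, hm, rfl⟩ := (m1 _ _).1 hn
        refine (m1 _ _).2 ⟨P.x i' • m, ?_, map_smul _ _ _⟩
        have h2 := hs _ _ hm i'
        rwa [show a + c i + 1 = a + 1 + c i by ring] at h2)
      refine ⟨max s0 (s1 + c i), fun a ha => ?_⟩
      refine P.ext_gen π m0 m1 hs (hs0 a (le_trans (le_max_left _ _) ha)) ?_
      intro n hn
      have h3 : s1 ≤ a - c i := by have := le_trans (le_max_right _ _) ha; omega
      obtain ⟨z, hz, h4⟩ := hs1 _ h3 n (by
        change n ∈ X1 (a - c i + 1 + c i)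
        rwa [show a - c i + 1 + c i = a + 1 by ring])
      refine ⟨z, fun i' => ?_, h4⟩
      have h5 : z i' ∈ X1 (a - c i + c i) := hz i'
      rwa [sub_add_cancel] at h5
  exact key Finset.univ X hX hs (fun a n _ i hi => absurd (Finset.mem_univ i) hi)

/-- finite generation implies finite presentation -/
theorem fin_pres (hLN : P.LN) {N : ℤ → Submodule k Mo} (hN : P.Stb N)
    (hneg : ∀ a, a < 0 → N a = ⊥) (hf : ∀ a, Module.Finite k (N a))
    (hg : ∃ s, ∀ a, s ≤ a → P.G0 N a) : ∃ s, ∀ a, s ≤ a → P.G0 N a ∧ P.H1 N a := by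
  obtain ⟨s, hs⟩ := hg
  obtain ⟨ι, _, c, g, hc, hg, hcov⟩ := P.cover hf hneg (s.toNat + 1)
  have hgN : ∀ a, ∀ y ∈ P.Fr c a, pr (k := k) g y ∈ N a := by
    intro a y hy
    rw [pr_apply]
    refine Submodule.sum_mem _ fun i _ => ?_
    have h5 := hN.smul_mem (P := P) (hy i) (hg i)
    rwa [sub_add_cancel] at h5
  have hs' : ∀ t : ℕ, ∀ m ∈ N (s.toNat + t), ∃ y ∈ P.Fr c (s.toNat + t), pr (k := k) g y = m := by
    intro t
    induction t with
    | zero =>
      intro m hm
      exact hcov _ (by push_cast; omega) m hm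
    | succ t ih =>
      intro m hm
      push_cast at hm ⊢
      rw [← add_assoc] at hm ⊢
      obtain ⟨z, hz, rfl⟩ := hs _ (by have := Int.self_le_toNat s; omega) m hm
      choose y hy hyz using fun i => ih (z i) (by exact_mod_cast hz i)
      refine ⟨∑ i, P.x i • y i, Submodule.sum_mem _ fun i _ => P.Fr_stb c _ _ (hy i) i, ?_⟩
      rw [pr_sum]
      simp only [hyz]
  have hsu : ∀ a, ∀ m ∈ N a, ∃ y ∈ P.Fr c a, pr (k := k) g y = m := by
    intro a m hm
    rcases lt_or_ge a (s.toNat : ℤ) with h5 | h5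
    · exact hcov a (by push_cast; omega) m hm
    · obtain ⟨t, ht⟩ := Int.eq_ofNat_of_zero_le (show 0 ≤ a - s.toNat by omega)
      obtain rfl : a = s.toNat + t := by omega
      exact hs' t m hm
  obtain ⟨s1, hs1⟩ := P.Fr_noe hLN c (P.Kr c g) (fun a => inf_le_left) P.Kr_stb
  refine ⟨max s s1, fun a ha => ⟨hs a (le_trans (le_max_left _ _) ha), ?_⟩⟩
  intro n hn hrel
  choose y hy hyn using fun i => hsu _ _ (hn i)
  obtain ⟨z, hz, hyz⟩ := hs1 a (le_trans (le_max_right _ _) ha) (∑ i, P.x i • y i) ((P.mem_Kr).2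
    ⟨Submodule.sum_mem _ fun i _ => P.Fr_stb c _ _ (hy i) i, by
      rw [pr_sum]
      simp only [hyn]
      exact hrel⟩)
  obtain ⟨m, hm, hym⟩ := P.Fr_H1 c a (fun i => y i - z i)
    (fun i => Submodule.sub_mem _ (hy i) ((P.mem_Kr).1 (hz i)).1) (by
      simp only [smul_sub, Finset.sum_sub_distrib]
      rw [hyz, sub_self])
  refine ⟨fun j => pr (k := k) g (m j), fun j => hgN _ _ (hm j), fun i => ?_⟩
  rw [← pr_sum, ← hym i, map_sub, ((P.mem_Kr).1 (hz i)).2, sub_zero, hyn]

/-- **Ranks**: a subfamily of a free family with generators in degree zero -/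
theorem rank_bounds {ι : Type} [Fintype ι] (X : ℤ → Submodule k (ι → R))
    (hX : ∀ a, X a ≤ P.Fr (fun _ => 0) a) (hs : P.Stb X) :
    ∃ r C : ℤ, r ≤ Fintype.card ι ∧ (∀ a, dm X a ≤ r * P.h a) ∧
      ∀ a, 0 ≤ a → r * P.h a ≤ dm X a + C * (a + 1) := by
  classical
  have hXf : ∀ a, Module.Finite k (X a) := fun a => by
    have := P.Fr_fin (fun _ : ι => 0) a
    exact Submodule.finiteDimensional_of_le (hX a)
  -- a maximal set of coordinates without elements of `X`
  let Good : Finset ι → Prop := fun J => ∀ a, ∀ n ∈ X a, (∀ i, i ∉ J → n i = 0) → n = 0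
  have hG0 : Good ∅ := fun a n _ h => funext fun i => h i (Finset.notMem_empty i)
  obtain ⟨J, hJ, hmax⟩ : ∃ J, Good J ∧ ∀ i, i ∉ J → ¬ Good (insert i J) := by
    by_contra hcon
    push Not at hcon
    have h1 : ∀ n : ℕ, ∃ J, Good J ∧ n ≤ J.card := by
      intro n
      induction n with
      | zero => exact ⟨∅, hG0, Nat.zero_le _⟩
      | succ n ih =>
        obtain ⟨J, hJ, hn⟩ := ih
        obtain ⟨i, hi, hg⟩ := hcon J hJ
        exact ⟨insert i J, hg, by rw [Finset.card_insert_of_notMem hi]; omega⟩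
    obtain ⟨J, -, h2⟩ := h1 (Fintype.card ι + 1)
    have h3 := Finset.card_le_univ J
    omega
  have hex : ∀ i : {i // i ∉ J}, ∃ d : ℤ, ∃ n ∈ X d, (∀ i', i' ∉ J → i' ≠ i.1 → n i' = 0) ∧
      n i.1 ≠ 0 := by
    intro i
    have h1 := hmax i.1 i.2
    simp only [Good] at h1
    push Not at h1
    obtain ⟨d, n, hn, h2, h3⟩ := h1
    have h4 : ∀ i', i' ∉ J → i' ≠ i.1 → n i' = 0 := fun i' h5 h6 =>
      h2 i' (fun h7 => (Finset.mem_insert.1 h7).elim h6 h5)
    refine ⟨d, n, hn, h4, fun h5 => h3 (hJ d n hn fun i' h6 => ?_)⟩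
    by_cases h7 : i' = i.1
    · rw [h7, h5]
    · exact h4 i' h6 h7
  choose d n hn hn0 hn1 using hex
  have hd : ∀ i, 0 ≤ d i := by
    intro i
    by_contra h1
    have h2 := hX _ (hn i) i.1
    rw [sub_zero, P.neg _ (by omega), Submodule.mem_bot] at h2
    exact hn1 i h2
  refine ⟨Fintype.card {i // i ∉ J}, ∑ i, d i, ?_, fun a => ?_, fun a ha => ?_⟩
  · exact_mod_cast Fintype.card_subtype_le _
  · -- upper bound
    have := P.fin a
    let ψ : X a →ₗ[k] ({i // i ∉ J} → P.A a) :=
      { toFun := fun m i => ⟨m.1 i.1, by have h1 := hX a m.2 i.1; rwa [sub_zero] at h1⟩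
        map_add' := fun _ _ => rfl
        map_smul' := fun _ _ => rfl }
    have hψ : Function.Injective ψ := by
      rw [← LinearMap.ker_eq_bot, LinearMap.ker_eq_bot']
      intro m hm
      exact Subtype.ext (hJ a _ m.2 fun i hi => congrArg Subtype.val (congrFun hm ⟨i, hi⟩))
    have h1 := LinearMap.finrank_le_finrank_of_injective hψ
    rw [Module.finrank_pi_fintype, Finset.sum_const, Finset.card_univ, smul_eq_mul] at h1
    unfold dm h
    exact_mod_cast h1
  · -- lower bound
    have := fun i => P.fin (a - d i)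
    let ψ : (∀ i, P.A (a - d i)) →ₗ[k] (ι → R) :=
      { toFun := fun y => ∑ i, (y i : R) • n i
        map_add' := fun y z => by
          simp only [Pi.add_apply, Submodule.coe_add, add_smul, Finset.sum_add_distrib]
        map_smul' := fun c y => by
          simp only [Pi.smul_apply, Submodule.coe_smul, smul_assoc, Finset.smul_sum,
            RingHom.id_apply] }
    have hψ : Function.Injective ψ := by
      rw [← LinearMap.ker_eq_bot, LinearMap.ker_eq_bot']
      intro y hy
      funext i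
      have h1 := congrFun hy i.1
      change (∑ i', (y i' : R) • n i') i.1 = 0 at h1
      rw [Finset.sum_apply, Finset.sum_eq_single i] at h1
      · have h2 := hX _ (hn i) i.1
        rcases P.dom _ _ _ (y i).2 _ h2 h1 with h3 | h3
        · exact Subtype.ext h3
        · exact absurd h3 (hn1 i)
      · intro i' _ hi'
        rw [Pi.smul_apply, hn0 i' i.1 i.2 (fun h2 => hi' (Subtype.ext h2.symm)), smul_zero]
      · intro h2
        exact absurd (Finset.mem_univ _) h2
    have h1 : LinearMap.range ψ ≤ X a := by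
      rintro _ ⟨y, rfl⟩
      refine Submodule.sum_mem _ fun i _ => ?_
      have h2 := hs.smul_mem (P := P) (y i).2 (hn i)
      rwa [sub_add_cancel] at h2
    have h2 := Submodule.finrank_mono h1
    rw [(LinearEquiv.ofInjective ψ hψ).finrank_eq.symm, Module.finrank_pi_fintype] at h2
    have h3 : ∀ i, P.h a - P.h (a - d i) ≤ d i * (a + 1) := by
      intro i
      obtain ⟨c, hc⟩ := Int.eq_ofNat_of_zero_le (hd i)
      rw [hc]
      exact P.gro.shift c a (by omega)
    have h4 := Finset.sum_le_sum (fun i (_ : i ∈ Finset.univ) => h3 i)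
    rw [Finset.sum_sub_distrib, Finset.sum_const, Finset.card_univ, ← Finset.sum_mul,
      nsmul_eq_mul] at h4
    have h5 : ∑ i, P.h (a - d i) ≤ dm X a := by
      unfold h dm
      exact_mod_cast h2
    linarith

end Pl

end Pool.Agent.Lib.NOreP
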