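import Mathlib

/-!
# NOreP/Num: numerical functions of regular algebras of dimension three
-/

set_option autoImplicit false

namespace Pool.Agent.Lib.NOreP

/-- the operator of the Koszul complex -/
def Th (r l : ℤ) (f : ℤ → ℤ) (a : ℤ) : ℤ :=
  f a - r * f (a - 1) + r * f (a - (l - 1)) - f (a - l)

/-- the third difference with step two -/
def D3 (f : ℤ → ℤ) (a : ℤ) : ℤ := f (a + 6) - 3 * f (a + 4) + 3 * f (a + 2) - f a

/-- the two types of regular algebras -/
def Typ (r l : ℤ) : Prop := (r = 3 ∧ l = 3) ∨ (r = 2 ∧ l = 4)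

theorem D3_zero {r l : ℤ} (hrl : Typ r l) {f : ℤ → ℤ} {ρ : ℤ}
    (h : ∀ a, ρ < a → Th r l f a = 0) : ∀ a, ρ - l < a → D3 f a = 0 := by
  intro a ha
  rcases hrl with ⟨rfl, rfl⟩ | ⟨rfl, rfl⟩
  · have h3 := h (a + 3) (by omega)
    have h4 := h (a + 4) (by omega)
    have h5 := h (a + 5) (by omega)
    have h6 := h (a + 6) (by omega)
    unfold Th at h3 h4 h5 h6
    unfold D3
    ring_nf at h3 h4 h5 h6 ⊢
    linarith
  · have h4 := h (a + 4) (by omega)
    have h5 := h (a + 5) (by omega)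
    have h6 := h (a + 6) (by omega)
    unfold Th at h4 h5 h6
    unfold D3
    ring_nf at h4 h5 h6 ⊢
    linarith

/-- the growth of the Hilbert function -/
structure Gro (l : ℤ) (h : ℤ → ℤ) : Prop where
  neg : ∀ a, a < 0 → h a = 0
  low : ∀ a, 0 ≤ a → a + 1 ≤ 2 * (h a - h (a - 1))
  upp : ∀ a, 0 ≤ a → h a - h (a - 1) ≤ a + 1
  thr : ∀ a, -l < a → D3 h a = 0

theorem gro_of_theta {r l : ℤ} (hrl : Typ r l) {h : ℤ → ℤ} (h0 : ∀ a, a < 0 → h a = 0)
    (hT : ∀ a, Th r l h a = if a = 0 then 1 else 0) : Gro l h := by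
  have hD : ∀ a, -l < a → D3 h a = 0 := by
    intro a ha
    refine D3_zero hrl (ρ := 0) (fun b hb => ?_) a (by omega)
    rw [hT, if_neg (by omega)]
  rcases hrl with ⟨rfl, rfl⟩ | ⟨rfl, rfl⟩
  · have key : ∀ n : ℕ, 2 * h n = (n + 1) * (n + 2) := by
      intro n
      induction n using Nat.strong_induction_on with
      | _ n ih =>
        have h1 := hT n
        unfold Th at h1
        rcases n with _ | _ | _ | n
        · norm_num at h1 ⊢
          rw [h0 (-1) (by norm_num), h0 (-2) (by norm_num), h0 (-3) (by norm_num)] at h1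
          linarith
        · have i0 := ih 0 (by norm_num)
          norm_num at h1 i0 ⊢
          rw [h0 (-1) (by norm_num), h0 (-2) (by norm_num)] at h1
          linarith
        · have i0 := ih 0 (by norm_num)
          have i1 := ih 1 (by norm_num)
          norm_num at h1 i0 i1 ⊢
          rw [h0 (-1) (by norm_num)] at h1
          linarith
        · have i0 := ih n (by omega)
          have i1 := ih (n + 1) (by omega)
          have i2 := ih (n + 2) (by omega)
          push_cast at h1 i0 i1 i2 ⊢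
          rw [if_neg (by omega), show (n : ℤ) + 1 + 1 + 1 - 1 = n + 2 by ring,
            show (n : ℤ) + 1 + 1 + 1 - 2 = n + 1 by ring,
            show (n : ℤ) + 1 + 1 + 1 - 3 = n by ring] at h1
          linarith
    have key2 : ∀ a : ℤ, -1 ≤ a → 2 * h a = (a + 1) * (a + 2) := by
      intro a ha
      rcases lt_or_ge a 0 with h1 | h1
      · rw [h0 a h1, show a = -1 by omega]
        norm_num
      · obtain ⟨n, rfl⟩ := Int.eq_ofNat_of_zero_le h1
        exact key n
    refine ⟨h0, fun a ha => ?_, fun a ha => ?_, hD⟩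
    · have h1 := key2 a (by omega)
      have h2 := key2 (a - 1) (by omega)
      ring_nf at h1 h2 ⊢
      linarith
    · have h1 := key2 a (by omega)
      have h2 := key2 (a - 1) (by omega)
      ring_nf at h1 h2 ⊢
      linarith
  · have key : ∀ n : ℕ, (h (2 * n - 2) = n ^ 2 ∧ h (2 * n - 1) = n * (n + 1)) ∧
        h (2 * n) = (n + 1) ^ 2 ∧ h (2 * n + 1) = (n + 1) * (n + 2) := by
      intro n
      induction n with
      | zero =>
        have h1 := hT 0
        have h2 := hT 1
        unfold Th at h1 h2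
        have e1 := h0 (-1) (by norm_num)
        have e2 := h0 (-2) (by norm_num)
        have e3 := h0 (-3) (by norm_num)
        have e4 := h0 (-4) (by norm_num)
        norm_num at h1 h2 ⊢
        rw [e1, e3, e4] at h1
        rw [e2, e3] at h2
        refine ⟨⟨e2, e1⟩, ?_, ?_⟩ <;> linarith
      | succ n ih =>
        have h1 := hT (2 * n + 2)
        have h2 := hT (2 * n + 3)
        unfold Th at h1 h2
        obtain ⟨⟨i0, i1⟩, i2, i3⟩ := ih
        rw [if_neg (by omega), show 2 * (n : ℤ) + 2 - 1 = 2 * n + 1 by ring,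
          show 2 * (n : ℤ) + 2 - (4 - 1) = 2 * n - 1 by ring,
          show 2 * (n : ℤ) + 2 - 4 = 2 * n - 2 by ring, i0, i1, i3] at h1
        rw [if_neg (by omega), show 2 * (n : ℤ) + 3 - 1 = 2 * n + 2 by ring,
          show 2 * (n : ℤ) + 3 - (4 - 1) = 2 * n by ring,
          show 2 * (n : ℤ) + 3 - 4 = 2 * n - 1 by ring, i1, i2] at h2
        push_cast
        rw [show 2 * ((n : ℤ) + 1) - 2 = 2 * n by ring,
          show 2 * ((n : ℤ) + 1) - 1 = 2 * n + 1 by ring,
          show 2 * ((n : ℤ) + 1) + 1 = 2 * n + 3 by ring,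
          show 2 * ((n : ℤ) + 1) = 2 * n + 2 by ring]
        have h3 : h (2 * n + 2) = (n + 1 + 1) ^ 2 := by linarith
        rw [h3] at h2
        refine ⟨⟨i2, by rw [i3]; ring⟩, h3, by linarith⟩
    refine ⟨h0, fun a ha => ?_, fun a ha => ?_, hD⟩
    · rcases Int.even_or_odd' a with ⟨n, rfl | rfl⟩
      · obtain ⟨m, rfl⟩ := Int.eq_ofNat_of_zero_le (show 0 ≤ n by omega)
        obtain ⟨⟨i0, i1⟩, i2, i3⟩ := key m
        rw [i1, i2]
        nlinarith
      · obtain ⟨m, rfl⟩ := Int.eq_ofNat_of_zero_le (show 0 ≤ n by omega)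
        obtain ⟨⟨i0, i1⟩, i2, i3⟩ := key m
        rw [add_sub_cancel_right, i3, i2]
        nlinarith
    · rcases Int.even_or_odd' a with ⟨n, rfl | rfl⟩
      · obtain ⟨m, rfl⟩ := Int.eq_ofNat_of_zero_le (show 0 ≤ n by omega)
        obtain ⟨⟨i0, i1⟩, i2, i3⟩ := key m
        rw [i1, i2]
        nlinarith
      · obtain ⟨m, rfl⟩ := Int.eq_ofNat_of_zero_le (show 0 ≤ n by omega)
        obtain ⟨⟨i0, i1⟩, i2, i3⟩ := key m
        rw [add_sub_cancel_right, i3, i2]
        nlinarith

namespace Gro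

variable {l : ℤ} {h : ℤ → ℤ} (H : Gro l h)
include H

theorem mono1 (a : ℤ) : h (a - 1) ≤ h a := by
  rcases lt_or_ge a 0 with h1 | h1
  · rw [H.neg a h1, H.neg (a - 1) (by omega)]
  · have h2 := H.low a h1
    omega

theorem mono {a b : ℤ} (hab : a ≤ b) : h a ≤ h b := by
  obtain ⟨n, hn⟩ := Int.eq_ofNat_of_zero_le (show 0 ≤ b - a by omega)
  obtain rfl : b = a + n := by omega
  clear hn hab
  induction n with
  | zero => simp
  | succ n ih =>
    have h1 := H.mono1 (a + (n + 1 : ℕ))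
    push_cast at h1 ⊢
    rw [show a + ((n : ℤ) + 1) - 1 = a + n by ring] at h1
    exact ih.trans h1

theorem nonneg (a : ℤ) : 0 ≤ h a := by
  rcases lt_or_ge a 0 with h1 | h1
  · rw [H.neg a h1]
  · have h2 := H.mono (show -1 ≤ a by omega)
    rwa [H.neg (-1) (by norm_num)] at h2

/-- quadratic growth from below -/
theorem quad (a : ℤ) (ha : -1 ≤ a) : (a + 1) * (a + 2) ≤ 4 * h a := by
  obtain ⟨n, hn⟩ := Int.eq_ofNat_of_zero_le (show 0 ≤ a + 1 by omega)
  obtain rfl : a = n - 1 := by omega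
  clear hn ha
  induction n with
  | zero => simp [H.neg (-1)]
  | succ n ih =>
    have h1 := H.low n (Int.natCast_nonneg n)
    push_cast at ih ⊢
    rw [show (n : ℤ) + 1 - 1 = n by ring]
    nlinarith

theorem quadU (a : ℤ) (ha : -1 ≤ a) : 2 * h a ≤ (a + 1) * (a + 2) := by
  obtain ⟨n, hn⟩ := Int.eq_ofNat_of_zero_le (show 0 ≤ a + 1 by omega)
  obtain rfl : a = n - 1 := by omega
  clear hn ha
  induction n with
  | zero => simp [H.neg (-1)]
  | succ n ih =>
    have h1 := H.upp n (Int.natCast_nonneg n)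
    push_cast at ih ⊢
    rw [show (n : ℤ) + 1 - 1 = n by ring]
    nlinarith

/-- shifts -/
theorem shift (c : ℕ) (a : ℤ) (ha : -1 ≤ a) : h a - h (a - c) ≤ c * (a + 1) := by
  induction c with
  | zero => simp
  | succ c ih =>
    have h1 : h (a - c) - h (a - (c + 1 : ℕ)) ≤ a + 1 := by
      rcases lt_or_ge (a - c) 0 with h2 | h2
      · rw [H.neg _ h2, H.neg _ (by push_cast; omega)]
        omega
      · have h3 := H.upp (a - c) h2
        rw [show a - (c : ℤ) - 1 = a - (c + 1 : ℕ) by push_cast; ring] at h3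
        omega
    push_cast at h1 ⊢
    nlinarith

/-- the Ore property, numerically -/
theorem ore (c c' : ℤ) : ∃ n0, ∀ n, n0 ≤ n → h n < h (n - c) + h (n - c') := by
  obtain ⟨d, hd⟩ : ∃ d : ℕ, c ≤ d ∧ c' ≤ d :=
    ⟨c.toNat + c'.toNat, by have := Int.self_le_toNat c; have := Int.self_le_toNat c'; push_cast; omega⟩
  refine ⟨4 * d * (d + 2) + d + 4, fun n hn => ?_⟩
  have h1 := H.mono (show n - d ≤ n - c by omega)
  have h2 := H.mono (show n - d ≤ n - c' by omega)
  have h0 : (0 : ℤ) ≤ 4 * d * (d + 2) := by positivity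
  have h3 := H.shift d n (by omega)
  have h4 := H.quad (n - d) (by omega)
  by_contra h5
  obtain ⟨m, rfl⟩ : ∃ m, n = m + d := ⟨n - d, by ring⟩
  rw [add_sub_cancel_right] at h1 h2 h3 h4
  have h6 : (m + 1) * (m + 2) ≤ 4 * (d * (m + d + 1)) := by linarith
  have h7 : (4 * d * (d + 2) + 5) * (m + 2) ≤ (m + 1) * (m + 2) :=
    mul_le_mul_of_nonneg_right (by linarith) (by linarith)
  have hd0 : (0 : ℤ) ≤ d := Int.natCast_nonneg d
  have hm0 : (0 : ℤ) ≤ m := by linarith
  have h8 : (0 : ℤ) ≤ d * d * m := by positivity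
  have h9 : (0 : ℤ) ≤ d * m := by positivity
  nlinarith

/-- no bounded difference -/
theorem unb (τ : ℤ) : ∃ n0, ∀ n, n0 ≤ n → τ + h (n - 1) < h n := by
  refine ⟨2 * τ.natAbs, fun n hn => ?_⟩
  have h1 := H.low n (by omega)
  omega

/-- superlinear -/
theorem sup (C : ℤ) : ∃ n0, 0 ≤ n0 ∧ ∀ n, n0 ≤ n → C * (n + 1) < h n := by
  refine ⟨4 * C.natAbs, by positivity, fun n hn => ?_⟩
  have h1 := H.quad n (by omega)
  have h2 : C ≤ C.natAbs := Int.le_natAbs
  nlinarith

end Gro

end Pool.Agent.Lib.NOreP
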