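import Pool.Agent.Lib.NOreP.Num

/-!
# NOreP/NumC: convex families of Hilbert functions
-/

set_option autoImplicit false

namespace Pool.Agent.Lib.NOreP

/-- a convex sequence with a linear upper bound is eventually affine -/
theorem cvx {f : ℕ → ℤ} {j0 : ℕ} (hc : ∀ j, j0 ≤ j → 0 ≤ f (j + 2) - 2 * f (j + 1) + f j)
    {A B : ℤ} (hb : ∀ j, f j ≤ A * j + B) :
    ∃ j1, j0 ≤ j1 ∧ ∀ j, j1 ≤ j → f (j + 2) - 2 * f (j + 1) + f j = 0 := by
  have hmono : ∀ j, j0 ≤ j → ∀ n, f (j + 1) - f j ≤ f (j + n + 1) - f (j + n) := by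
    intro j hj n
    induction n with
    | zero => simp
    | succ n ih =>
      have h1 := hc (j + n) (by omega)
      rw [show j + (n + 1) = j + n + 1 by ring]
      rw [show j + n + 2 = j + n + 1 + 1 by ring] at h1
      linarith
  have hlow : ∀ j, j0 ≤ j → ∀ n : ℕ, f j + n * (f (j + 1) - f j) ≤ f (j + n) := by
    intro j hj n
    induction n with
    | zero => simp
    | succ n ih =>
      have h1 := hmono j hj n
      rw [show j + (n + 1) = j + n + 1 by ring]
      push_cast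
      linarith
  have hbd : ∀ j, j0 ≤ j → f (j + 1) - f j ≤ A := by
    intro j hj
    by_contra h1
    push Not at h1
    have h2 := hlow j hj ((A * j + B - f j).natAbs + 1)
    have h3 := hb (j + ((A * j + B - f j).natAbs + 1))
    have h4 : A * j + B - f j ≤ (A * j + B - f j).natAbs := Int.le_natAbs
    push_cast at h2 h3 h4
    set N : ℤ := |A * j + B - f j|
    have h5 : (N + 1) * (A + 1) ≤ (N + 1) * (f (j + 1) - f j) :=
      mul_le_mul_of_nonneg_left h1 (by positivity)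
    nlinarith
  -- a bounded monotone sequence of integers
  by_contra hcon
  push Not at hcon
  have hgrow : ∀ n : ℕ, ∃ j, j0 ≤ j ∧ f (j0 + 1) - f j0 + n ≤ f (j + 1) - f j := by
    intro n
    induction n with
    | zero => exact ⟨j0, le_rfl, by simp⟩
    | succ n ih =>
      obtain ⟨j, hj, h1⟩ := ih
      obtain ⟨j', hj', h2⟩ := hcon j hj
      refine ⟨j' + 1, by omega, ?_⟩
      have h3 := hc j' (by omega)
      have h4 := hmono j hj (j' - j)
      rw [Nat.add_sub_cancel' hj'] at h4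
      have h5 : 0 < f (j' + 2) - 2 * f (j' + 1) + f j' := lt_of_le_of_ne h3 (Ne.symm h2)
      rw [show j' + 1 + 1 = j' + 2 by ring]
      push_cast
      linarith
  obtain ⟨j, hj, h1⟩ := hgrow (A - (f (j0 + 1) - f j0)).natAbs.succ
  have h2 := hbd j hj
  have h3 : A - (f (j0 + 1) - f j0) ≤ (A - (f (j0 + 1) - f j0)).natAbs := Int.le_natAbs
  push_cast at h1 h3
  linarith

/-- a sequence between zero and a linear function whose third differences vanish eventually -/
theorem lin_of_third {F : ℕ → ℤ} {n0 : ℕ}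
    (h3 : ∀ b, n0 ≤ b → F (b + 3) - 3 * F (b + 2) + 3 * F (b + 1) - F b = 0)
    {C : ℤ} (h0 : ∀ b, n0 ≤ b → 0 ≤ F b) (hC : ∀ b, F b ≤ C * (b + 1)) :
    ∃ Λ : ℤ, 0 ≤ Λ ∧ ∀ b, n0 ≤ b → F (b + 1) - F b = Λ := by
  set c := F (n0 + 2) - 2 * F (n0 + 1) + F n0 with hc
  set q := F (n0 + 1) - F n0 with hq
  have key : ∀ n : ℕ, 2 * F (n0 + n) = 2 * F n0 + 2 * n * q + c * (n * (n - 1)) := by
    intro n
    induction n using Nat.strong_induction_on with
    | _ n ih =>
      rcases n with _ | _ | _ | n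
      · simp
      · simp [hq]; ring
      · push_cast
        rw [show n0 + (0 + 1 + 1) = n0 + 2 by ring]
        linarith
      · have i0 := ih n (by omega)
        have i1 := ih (n + 1) (by omega)
        have i2 := ih (n + 2) (by omega)
        have h1 := h3 (n0 + n) (by omega)
        rw [show n0 + n + 3 = n0 + (n + 1 + 1 + 1) by ring,
          show n0 + n + 2 = n0 + (n + 2) by ring, show n0 + n + 1 = n0 + (n + 1) by ring] at h1
        push_cast at i0 i1 i2 ⊢
        linarith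
  have hc0 : c = 0 := by
    rcases lt_trichotomy c 0 with h1 | h1 | h1
    · exfalso
      have h2 := key (2 * (F n0).natAbs + 2 * q.natAbs + 2)
      have h4 := h0 (n0 + (2 * (F n0).natAbs + 2 * q.natAbs + 2)) (by omega)
      have h5 : F n0 ≤ (F n0).natAbs := Int.le_natAbs
      have h6 : q ≤ q.natAbs := Int.le_natAbs
      push_cast at h2 h4 h5 h6
      set f := |F n0|
      set p := |q|
      have hf : 0 ≤ f := abs_nonneg _
      have hp : 0 ≤ p := abs_nonneg _
      set N : ℤ := 2 * f + 2 * p + 2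
      have h7 : c * (N * (N - 1)) ≤ -(N * (N - 1)) := by
        have : 0 ≤ N * (N - 1) := mul_nonneg (by positivity) (by simp only [N]; linarith)
        nlinarith
      have h8 : N * q ≤ N * p := mul_le_mul_of_nonneg_left h6 (by positivity)
      have h9 : N * (N - 1) = N * (2 * f + 2 * p + 1) := by simp only [N]; ring
      have h10 : 2 * f ≤ N * (2 * f) := by
        have : 1 ≤ N := by simp only [N]; linarith
        nlinarith
      have h11 : 0 < N := by simp only [N]; linarith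
      nlinarith
    · exact h1
    · exfalso
      have hq' : -(q.natAbs : ℤ) ≤ q := by
        have := neg_abs_le q
        push_cast
        exact this
      have h2 := key (2 * C.natAbs * (n0 + 1) + 2 * C.natAbs + 2 * q.natAbs + 2)
      have h4 := hC (n0 + (2 * C.natAbs * (n0 + 1) + 2 * C.natAbs + 2 * q.natAbs + 2))
      have h5 : C ≤ C.natAbs := Int.le_natAbs
      have h6 := h0 n0 le_rfl
      push_cast at h2 h4 h5 hq'
      set D := |C|
      set p := |q|
      have hD : 0 ≤ D := abs_nonneg _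
      have hp : 0 ≤ p := abs_nonneg _
      have hn : (0 : ℤ) ≤ n0 := Int.natCast_nonneg _
      set N : ℤ := 2 * D * (n0 + 1) + 2 * D + 2 * p + 2 with hN
      have hN0 : 0 < N := by positivity
      have h7 : N * (N - 1) ≤ c * (N * (N - 1)) := by
        have : 0 ≤ N * (N - 1) := mul_nonneg hN0.le (by
          have : 0 ≤ 2 * D * (n0 + 1) := by positivity
          linarith)
        nlinarith
      have h8 : -(N * p) ≤ N * q := by nlinarith
      have h9 : C * ((n0 : ℤ) + N + 1) ≤ D * (n0 + N + 1) :=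
        mul_le_mul_of_nonneg_right h5 (by positivity)
      have h10 : N * (N - 1) = N * (2 * D * (n0 + 1) + 2 * D + 2 * p + 1) := by
        rw [hN]; ring
      have h11 : 2 * D * (n0 + 1) ≤ N * (2 * D * (n0 + 1)) := by
        have : 1 ≤ N := by linarith
        have : 0 ≤ 2 * D * (n0 + 1) := by positivity
        nlinarith
      have h12 : C * ((n0 : ℤ) + N + 1) = C * (n0 + N + 1) := rfl
      nlinarith
  have key2 : ∀ n : ℕ, F (n0 + n) = F n0 + n * q := by
    intro n
    have h1 := key n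
    rw [hc0] at h1
    linarith
  refine ⟨q, ?_, fun b hb => ?_⟩
  · by_contra h1
    push Not at h1
    have h2 := key2 ((F n0).natAbs + 1)
    have h4 := h0 (n0 + ((F n0).natAbs + 1)) (by omega)
    have h5 : F n0 ≤ (F n0).natAbs := Int.le_natAbs
    push_cast at h2 h5
    nlinarith [abs_nonneg (F n0)]
  · obtain ⟨n, rfl⟩ := Nat.exists_eq_add_of_le hb
    have h1 := key2 n
    have h2 := key2 (n + 1)
    rw [show n0 + (n + 1) = n0 + n + 1 by ring] at h2
    rw [h1, h2]
    push_cast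
    ring

/-- second difference in the first variable -/
def S2 (H : ℕ → ℤ → ℤ) (j : ℕ) (a : ℤ) : ℤ := H (j + 2) a - 2 * H (j + 1) a + H j a

/-- a convex family of Hilbert functions -/
structure Conv (h : ℤ → ℤ) (H : ℕ → ℤ → ℤ) (r C n0 : ℕ → ℤ) : Prop where
  neg : ∀ j a, a < 0 → H j a = 0
  le : ∀ j a, H j a ≤ r j * h a
  ge : ∀ j a, 0 ≤ a → r j * h a ≤ H j a + C j * (a + 1)
  rle : ∀ j : ℕ, r j ≤ j + 1
  thr : ∀ j a, n0 j ≤ a → D3 (H j) a = 0
  cv : ∀ j a, 0 ≤ S2 H j a

namespace Conv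

variable {l : ℤ} {h : ℤ → ℤ} {H : ℕ → ℤ → ℤ} {r C n0 : ℕ → ℤ}

theorem rank_cvx (Gh : Gro l h) (K : Conv h H r C n0) (j : ℕ) :
    0 ≤ r (j + 2) - 2 * r (j + 1) + r j := by
  by_contra h1
  push Not at h1
  obtain ⟨a, ha, h2⟩ := Gh.sup (2 * C (j + 1))
  have h3 := h2 a le_rfl
  have h4 := K.cv j a
  unfold S2 at h4
  have h5 := K.le (j + 2) a
  have h6 := K.le j a
  have h7 := K.ge (j + 1) a ha
  have h8 := Gh.nonneg a
  nlinarith

theorem rank_aff (Gh : Gro l h) (K : Conv h H r C n0) :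
    ∃ j0, ∀ j, j0 ≤ j → r (j + 2) - 2 * r (j + 1) + r j = 0 := by
  obtain ⟨j1, -, h1⟩ := cvx (f := r) (j0 := 0) (fun j _ => K.rank_cvx Gh j) (A := 1) (B := 1)
    (fun j => by have := K.rle j; linarith)
  exact ⟨j1, h1⟩

theorem slope (hl : 0 < l) (Gh : Gro l h) (K : Conv h H r C n0) (j : ℕ) (ε : ℤ) (hε : 0 ≤ ε)
    (hε' : ε ≤ 1) : ∃ (Λ : ℤ) (n : ℕ), 0 ≤ Λ ∧ ∀ b : ℕ, n ≤ b →
      (r j * h (2 * b + ε + 2) - H j (2 * b + ε + 2)) - (r j * h (2 * b + ε) - H j (2 * b + ε)) =
        Λ := by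
  obtain ⟨Λ, h1, h2⟩ := lin_of_third
    (F := fun b => r j * h (2 * b + ε) - H j (2 * b + ε)) (n0 := (n0 j).toNat)
    (fun b hb => by
      have h3 := K.thr j (2 * b + ε) (by
        have := Int.self_le_toNat (n0 j)
        omega)
      have h4 := Gh.thr (2 * b + ε) (by omega)
      unfold D3 at h3 h4
      push_cast
      rw [show 2 * ((b : ℤ) + 3) + ε = 2 * b + ε + 6 by ring,
        show 2 * ((b : ℤ) + 2) + ε = 2 * b + ε + 4 by ring,
        show 2 * ((b : ℤ) + 1) + ε = 2 * b + ε + 2 by ring]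
      have h5 := congrArg (fun z => r j * z) h4
      simp only [mul_zero] at h5
      linarith) (C := 2 * |C j|)
    (fun b _ => sub_nonneg.2 (K.le j _))
    (fun b => by
      have h3 := K.ge j (2 * b + ε) (by omega)
      have h4 : C j * (2 * b + ε + 1) ≤ |C j| * (2 * b + ε + 1) :=
        mul_le_mul_of_nonneg_right (le_abs_self _) (by omega)
      have h5 : |C j| * (2 * b + ε + 1) ≤ |C j| * (2 * b + 2) :=
        mul_le_mul_of_nonneg_left (by omega) (abs_nonneg _)
      linarith)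
  refine ⟨Λ, (n0 j).toNat, h1, fun b hb => ?_⟩
  have h3 := h2 b hb
  push_cast at h3
  rw [show 2 * ((b : ℤ) + 1) + ε = 2 * b + ε + 2 by ring] at h3
  exact h3

theorem bounded_half (hl : 0 < l) (Gh : Gro l h) (K : Conv h H r C n0) (ε : ℤ) (hε : 0 ≤ ε)
    (hε' : ε ≤ 1) : ∃ j1, ∀ j, j1 ≤ j → ∃ n : ℕ, ∀ b : ℕ, n ≤ b →
      S2 H j (2 * b + ε + 2) = S2 H j (2 * b + ε) := by
  obtain ⟨j0, hj0⟩ := K.rank_aff Gh
  choose Λ n hΛ hn using fun j => K.slope hl Gh j ε hε hε'
  have key : ∀ j, j0 ≤ j → ∀ b : ℕ, max (n j) (max (n (j + 1)) (n (j + 2))) ≤ b →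
      S2 H j (2 * b + ε + 2) = S2 H j (2 * b + ε) + (2 * Λ (j + 1) - Λ (j + 2) - Λ j) := by
    intro j hj b hb
    have h0 := hn j b (by omega)
    have h1 := hn (j + 1) b (by omega)
    have h2 := hn (j + 2) b (by omega)
    have h3 := hj0 j hj
    unfold S2
    have h4 := congrArg (fun z => z * (h (2 * b + ε + 2) - h (2 * b + ε))) h3
    simp only [zero_mul] at h4
    linarith
  have hcc : ∀ j, j0 ≤ j → 0 ≤ -Λ (j + 2) - 2 * (-Λ (j + 1)) + -Λ j := by
    intro j hj
    by_contra h1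
    push Not at h1
    set N := max (n j) (max (n (j + 1)) (n (j + 2)))
    have h2 : ∀ m : ℕ, S2 H j (2 * ((N + m : ℕ) : ℤ) + ε) ≤ S2 H j (2 * N + ε) - m := by
      intro m
      induction m with
      | zero => simp
      | succ m ih =>
        have h3 := key j hj (N + m) (by omega)
        have h4 : (2 * ((N + (m + 1) : ℕ) : ℤ) + ε) = 2 * ((N + m : ℕ) : ℤ) + ε + 2 := by
          push_cast; ring
        rw [h4, h3]
        push_cast at ih ⊢
        linarith
    have h3 := h2 ((S2 H j (2 * N + ε)).natAbs + 1)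
    have h4 := K.cv j (2 * ((N + ((S2 H j (2 * N + ε)).natAbs + 1) : ℕ) : ℤ) + ε)
    have h5 : S2 H j (2 * N + ε) ≤ (S2 H j (2 * N + ε)).natAbs := Int.le_natAbs
    push_cast at h3 h4 h5
    linarith
  obtain ⟨j1, hj1, h1⟩ := cvx (f := fun j => -Λ j) hcc (A := 0) (B := 0) (fun j => by
    have := hΛ j
    linarith)
  refine ⟨j1, fun j hj => ⟨max (n j) (max (n (j + 1)) (n (j + 2))), fun b hb => ?_⟩⟩
  rw [key j (by omega) b hb]
  have h2 := h1 j hj
  linarith

/-- **The second differences are eventually bounded.** -/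
theorem bounded (hl : 0 < l) (Gh : Gro l h) (K : Conv h H r C n0) :
    ∃ j1, ∀ j, j1 ≤ j → ∃ τ : ℤ, ∀ a, S2 H j a ≤ τ := by
  obtain ⟨j1, h1⟩ := K.bounded_half hl Gh 0 le_rfl (by norm_num)
  obtain ⟨j2, h2⟩ := K.bounded_half hl Gh 1 (by norm_num) le_rfl
  refine ⟨max j1 j2, fun j hj => ?_⟩
  obtain ⟨n1, h3⟩ := h1 j (by omega)
  obtain ⟨n2, h4⟩ := h2 j (by omega)
  have hnn : ∀ a, 0 ≤ S2 H j a := K.cv j
  refine ⟨∑ a ∈ Finset.Icc (0 : ℤ) (2 * (n1 + n2) + 3), S2 H j a, fun a => ?_⟩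
  rcases lt_or_ge a 0 with h5 | h5
  · have h6 : S2 H j a = 0 := by
      unfold S2
      rw [K.neg _ _ h5, K.neg _ _ h5, K.neg _ _ h5]
      norm_num
    rw [h6]
    exact Finset.sum_nonneg fun a _ => hnn a
  obtain ⟨m, rfl⟩ := Int.eq_ofNat_of_zero_le h5
  clear h5
  induction m using Nat.strong_induction_on with
  | _ m ih =>
    rcases Nat.lt_or_ge (2 * (n1 + n2) + 3) m with h6 | h6
    · have h7 := ih (m - 2) (by omega)
      have h8 : S2 H j m = S2 H j ((m - 2 : ℕ) : ℤ) := by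
        rcases Nat.even_or_odd' m with ⟨b, rfl | rfl⟩
        · have h9 := h3 (b - 1) (by omega)
          rw [show (2 * ((b - 1 : ℕ) : ℤ) + 0 + 2) = ((2 * b : ℕ) : ℤ) by omega,
            show (2 * ((b - 1 : ℕ) : ℤ) + 0) = ((2 * b - 2 : ℕ) : ℤ) by omega] at h9
          exact h9
        · have h9 := h4 (b - 1) (by omega)
          rw [show (2 * ((b - 1 : ℕ) : ℤ) + 1 + 2) = ((2 * b + 1 : ℕ) : ℤ) by omega,
            show (2 * ((b - 1 : ℕ) : ℤ) + 1) = ((2 * b + 1 - 2 : ℕ) : ℤ) by omega] at h9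
          exact h9
      rw [h8]
      exact h7
    · exact Finset.single_le_sum (f := fun a => S2 H j a) (fun a _ => hnn a)
        (Finset.mem_Icc.2 ⟨by omega, by omega⟩)

/-- for a fixed degree the second differences vanish eventually -/
theorem pointwise (Gh : Gro l h) (K : Conv h H r C n0) (a : ℤ) :
    ∃ J, ∀ j, J ≤ j → S2 H j a = 0 := by
  obtain ⟨J, -, h1⟩ := cvx (f := fun j => H j a) (j0 := 0) (fun j _ => K.cv j a) (A := h a)
    (B := h a) (fun j => by
      have h2 := K.le j a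
      have h3 := mul_le_mul_of_nonneg_right (K.rle j) (Gh.nonneg a)
      linarith)
  exact ⟨J, h1⟩

/-- **Conclusion**: uniform regularity implies that the second differences vanish. -/
theorem final (Gh : Gro l h) (K : Conv h H r C n0) {j1 : ℕ} {β : ℤ}
    (hβ : ∀ j, j1 ≤ j → ∀ a, β ≤ a → D3 (H j) a = 0) :
    ∃ j2, ∀ j, j2 ≤ j → ∀ a, S2 H j a = 0 := by
  choose J hJ using K.pointwise Gh
  obtain ⟨j2, h1⟩ : ∃ j2, ∀ a ∈ Finset.Icc (0 : ℤ) (|β| + 6), J a ≤ j2 :=
    ⟨_, fun a ha => Finset.single_le_sum (f := J) (fun _ _ => Nat.zero_le _) ha⟩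
  refine ⟨max j1 j2, fun j hj a => ?_⟩
  rcases lt_or_ge a 0 with h5 | h5
  · unfold S2
    rw [K.neg _ _ h5, K.neg _ _ h5, K.neg _ _ h5]
    norm_num
  obtain ⟨m, rfl⟩ := Int.eq_ofNat_of_zero_le h5
  clear h5
  induction m using Nat.strong_induction_on with
  | _ m ih =>
    have hb := le_abs_self β
    rcases le_or_gt ((m : ℕ) : ℤ) (|β| + 6) with h6 | h6
    · exact hJ _ _ (le_trans (h1 _ (Finset.mem_Icc.2 ⟨Int.natCast_nonneg _, h6⟩)) (by omega))
    · have hpos := abs_nonneg β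
      have e0 := ih (m - 6) (by omega)
      have e2 := ih (m - 4) (by omega)
      have e4 := ih (m - 2) (by omega)
      have d0 := hβ j (by omega) ((m : ℤ) - 6) (by omega)
      have d1 := hβ (j + 1) (by omega) ((m : ℤ) - 6) (by omega)
      have d2 := hβ (j + 2) (by omega) ((m : ℤ) - 6) (by omega)
      unfold D3 at d0 d1 d2
      rw [show (m : ℤ) - 6 + 6 = m by ring, show (m : ℤ) - 6 + 4 = m - 2 by ring,
        show (m : ℤ) - 6 + 2 = m - 4 by ring] at d0 d1 d2
      rw [show ((m - 6 : ℕ) : ℤ) = (m : ℤ) - 6 by omega] at e0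
      rw [show ((m - 4 : ℕ) : ℤ) = (m : ℤ) - 4 by omega] at e2
      rw [show ((m - 2 : ℕ) : ℤ) = (m : ℤ) - 2 by omega] at e4
      change S2 H j (m : ℤ) = 0
      unfold S2 at e0 e2 e4 ⊢
      linarith

end Conv

end Pool.Agent.Lib.NOreP
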