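import Pool.Agent.Lib.NOreP.Defs

/-!
# NOreP/Op: the opposite algebras
-/

set_option autoImplicit false

namespace Pool.Agent.Lib.NOreP

open MulOpposite

variable {k G : Type*} [Field k] [Ring G] [Algebra k G]

/-- the opposite subspace -/
def opS {R : Type*} [Ring R] [Algebra k R] (X : Submodule k R) : Submodule k Rᵐᵒᵖ :=
  X.map (↑(opLinearEquiv k : R ≃ₗ[k] Rᵐᵒᵖ) : R →ₗ[k] Rᵐᵒᵖ)

section

variable {R : Type*} [Ring R] [Algebra k R]

theorem mem_opS {X : Submodule k R} {y : Rᵐᵒᵖ} : y ∈ opS X ↔ unop y ∈ X := by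
  constructor
  · rintro ⟨z, hz, rfl⟩
    exact hz
  · intro hy
    exact ⟨unop y, hy, rfl⟩

theorem opS_mul (X Y : Submodule k R) : opS X * opS Y = opS (Y * X) :=
  (Submodule.map_op_mul Y X).symm

theorem opS_mono {X Y : Submodule k R} (h : X ≤ Y) : opS X ≤ opS Y := Submodule.map_mono h

theorem finrank_opS (X : Submodule k R) : Module.finrank k (opS X) = Module.finrank k X :=
  LinearEquiv.finrank_map_eq (opLinearEquiv k : R ≃ₗ[k] Rᵐᵒᵖ) X

/-- the subspace of the algebra of a subspace of the opposite algebra -/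
def unS (X : Submodule k Rᵐᵒᵖ) : Submodule k R :=
  X.comap (↑(opLinearEquiv k : R ≃ₗ[k] Rᵐᵒᵖ) : R →ₗ[k] Rᵐᵒᵖ)

theorem mem_unS {X : Submodule k Rᵐᵒᵖ} {y : R} : y ∈ unS X ↔ op y ∈ X := Iff.rfl

theorem opS_unS (X : Submodule k Rᵐᵒᵖ) : opS (unS X) = X := by
  ext y
  rw [mem_opS, mem_unS, op_unop]

theorem unS_opS (X : Submodule k R) : unS (opS X) = X := by
  ext y
  rw [mem_unS, mem_opS, unop_op]

theorem opS_le {X Y : Submodule k R} : opS X ≤ opS Y ↔ X ≤ Y := by
  constructor
  · intro h y hy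
    exact mem_opS.1 (h (mem_opS.2 hy : op y ∈ opS X))
  · exact opS_mono

end

/-- the components of the opposite algebra -/
def opA (A : ℕ → Submodule k G) (n : ℕ) : Submodule k Gᵐᵒᵖ := opS (A n)

theorem zd_opA (A : ℕ → Submodule k G) {z : ℤ} {y : Gᵐᵒᵖ} :
    y ∈ zd (opA A) z ↔ unop y ∈ zd A z := by
  unfold zd
  split_ifs with h
  · exact mem_opS
  · rw [Submodule.mem_bot, Submodule.mem_bot]
    exact (unop_eq_zero_iff y).symm

variable {U : ℕ → ℕ → Submodule k G} {A : ℕ → Submodule k G} {r d : ℕ} {x : Fin r → G}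
  {M : Fin r → Fin r → G}

theorem IsRegThree.opp (h : IsRegThree A r d x M) :
    IsRegThree (opA A) r d (fun i => op (x i)) (fun i j => op (M j i)) where
  typ := h.typ
  one_ne h1 := h.one_ne (congrArg unop h1)
  zero := by
    unfold opA
    rw [h.zero]
    ext y
    rw [mem_opS, Submodule.mem_one, Submodule.mem_one]
    constructor
    · rintro ⟨c, hc⟩
      exact ⟨c, by rw [MulOpposite.algebraMap_apply, hc, op_unop]⟩
    · rintro ⟨c, hc⟩
      exact ⟨c, by rw [← hc, MulOpposite.algebraMap_apply, unop_op]⟩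
  mul m n := by
    unfold opA
    rw [opS_mul, h.mul, add_comm]
  gen := by
    unfold opA opS
    rw [h.gen, Submodule.map_span]
    congr 1
    ext y
    constructor
    · rintro ⟨_, ⟨i, rfl⟩, rfl⟩
      exact ⟨i, rfl⟩
    · rintro ⟨i, rfl⟩
      exact ⟨_, ⟨i, rfl⟩, rfl⟩
  mat i j := mem_opS.2 (h.mat j i)
  relL j := by
    have h1 := congrArg op (h.relR j)
    rw [op_zero, Finset.op_sum] at h1
    exact h1
  relR i := by
    have h1 := congrArg op (h.relL i)
    rw [op_zero, Finset.op_sum] at h1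
    exact h1
  exL1 a n hn h0 := by
    obtain ⟨m, hm, h1⟩ := h.exR1 a (fun i => unop (n i)) (fun i => mem_opS.1 (hn i)) (by
      have h2 := congrArg unop h0
      rw [unop_zero, Finset.unop_sum] at h2
      exact h2)
    refine ⟨fun j => op (m j), fun j => (zd_opA A).2 (hm j), fun i => ?_⟩
    have h2 := congrArg op (h1 i)
    rw [op_unop, Finset.op_sum] at h2
    exact h2
  exL2 a m hm h0 := by
    obtain ⟨e, he, h1⟩ := h.exR2 a (fun i => unop (m i)) (fun i => mem_opS.1 (hm i)) (fun j => by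
      have h2 := congrArg unop (h0 j)
      rw [unop_zero, Finset.unop_sum] at h2
      exact h2)
    refine ⟨op e, (zd_opA A).2 he, fun j => ?_⟩
    have h2 := congrArg op (h1 j)
    rw [op_unop] at h2
    exact h2
  exR1 a n hn h0 := by
    obtain ⟨m, hm, h1⟩ := h.exL1 a (fun i => unop (n i)) (fun i => mem_opS.1 (hn i)) (by
      have h2 := congrArg unop h0
      rw [unop_zero, Finset.unop_sum] at h2
      exact h2)
    refine ⟨fun j => op (m j), fun j => (zd_opA A).2 (hm j), fun i => ?_⟩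
    have h2 := congrArg op (h1 i)
    rw [op_unop, Finset.op_sum] at h2
    exact h2
  exR2 a m hm h0 := by
    obtain ⟨e, he, h1⟩ := h.exL2 a (fun i => unop (m i)) (fun i => mem_opS.1 (hm i)) (fun j => by
      have h2 := congrArg unop (h0 j)
      rw [unop_zero, Finset.unop_sum] at h2
      exact h2)
    refine ⟨op e, (zd_opA A).2 he, fun j => ?_⟩
    have h2 := congrArg op (h1 j)
    rw [op_unop] at h2
    exact h2

theorem IsNoethDomain.opp (h : IsNoethDomain A) : IsNoethDomain (opA A) where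
  dom m n y hy z hz hyz := by
    have h1 := h.dom n m (unop z) (mem_opS.1 hz) (unop y) (mem_opS.1 hy) (by
      rw [← unop_mul, hyz, unop_zero])
    rcases h1 with h1 | h1
    · right
      rw [← op_unop z, h1, op_zero]
    · left
      rw [← op_unop y, h1, op_zero]
  left X hX hs := by
    obtain ⟨s, h1⟩ := h.right (fun a => unS (X a)) (fun a => by
      rw [← opS_le, opS_unS]
      exact hX a) (fun a => by
      rw [← opS_le, ← opS_mul, opS_unS, opS_unS]
      exact hs a)
    refine ⟨s, fun a ha => ?_⟩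
    have h2 := h1 a ha
    rw [← opS_le, ← opS_mul, opS_unS, opS_unS] at h2
    exact h2
  right X hX hs := by
    obtain ⟨s, h1⟩ := h.left (fun a => unS (X a)) (fun a => by
      rw [← opS_le, opS_unS]
      exact hX a) (fun a => by
      rw [← opS_le, ← opS_mul, opS_unS, opS_unS]
      exact hs a)
    refine ⟨s, fun a ha => ?_⟩
    have h2 := h1 a ha
    rw [← opS_le, ← opS_mul, opS_unS, opS_unS] at h2
    exact h2

theorem IsDoubleExt.opp (h : IsDoubleExt U r d x M) :
    IsDoubleExt (fun j a => opS (U j a)) r d (fun i => op (x i)) (fun i j => op (M j i)) where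
  reg := h.reg.opp
  noe := h.noe.opp
  mul i j a b := by
    rw [opS_mul, h.mul, add_comm i j, add_comm a b]
  dim j a := by
    rw [finrank_opS, finrank_opS, h.dim]
  two u hu w hw huw := by
    have h1 := h.two (unop w) (mem_opS.1 hw) (unop u) (mem_opS.1 hu) (by
      rw [← unop_mul, huw, unop_zero])
    rcases h1 with h1 | h1
    · right
      rw [← op_unop w, h1, op_zero]
    · left
      rw [← op_unop u, h1, op_zero]

variable {R : Type*} [Ring R] [Algebra k R] {lt : ℕ × ℕ → ℕ × ℕ → Prop}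
  {F : ℕ × ℕ → Submodule k R} {θ : ∀ n, F n →ₗ[k] G}

theorem lowP_op (n : ℕ × ℕ) : lowP lt (fun n => opS (F n)) n = opS (lowP lt F n) := by
  unfold lowP opS
  simp only [Submodule.map_iSup]

/-- the symbol maps of the opposite algebra -/
def opθ (θ : ∀ n, F n →ₗ[k] G) (n : ℕ × ℕ) : opS (F n) →ₗ[k] Gᵐᵒᵖ :=
  (↑(opLinearEquiv k : G ≃ₗ[k] Gᵐᵒᵖ) : G →ₗ[k] Gᵐᵒᵖ) ∘ₗ θ n ∘ₗ
    ((↑(opLinearEquiv k : R ≃ₗ[k] Rᵐᵒᵖ).symm : Rᵐᵒᵖ →ₗ[k] R).restrict
      (p := opS (F n)) (q := F n) fun _ hy => mem_opS.1 hy)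

theorem opθ_apply (n : ℕ × ℕ) (y : opS (F n)) :
    opθ θ n y = op (θ n ⟨unop y, mem_opS.1 y.2⟩) := rfl

theorem θ_congr {n n' : ℕ × ℕ} (h : n = n') (y : F n) (y' : F n') (hy : (y : R) = y') :
    θ n y = θ n' y' := by
  subst h
  have h1 : y = y' := Subtype.ext hy
  rw [h1]

theorem IsDeformation.opp (h : IsDeformation U lt F θ) :
    IsDeformation (fun j a => opS (U j a)) lt (fun n => opS (F n)) (opθ θ) where
  mono m n hmn := opS_mono (h.mono m n hmn)
  exh y := by
    obtain ⟨n, hn⟩ := h.exh (unop y)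
    exact ⟨n, mem_opS.2 hn⟩
  mul m n y hy z hz := by
    have h1 := h.mul n m (unop z) (mem_opS.1 hz) (unop y) (mem_opS.1 hy)
    rw [add_comm m n]
    exact mem_opS.2 h1
  range n := by
    rw [← h.range n]
    ext g
    rw [mem_opS]
    constructor
    · rintro ⟨y, rfl⟩
      exact ⟨⟨unop y, mem_opS.1 y.2⟩, rfl⟩
    · rintro ⟨y, hy⟩
      refine ⟨⟨op (y : R), mem_opS.2 y.2⟩, ?_⟩
      rw [opθ_apply]
      have h1 : θ n ⟨unop (op (y : R)), y.2⟩ = unop g := hy
      rw [h1, op_unop]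
  ker n y := by
    rw [lowP_op, mem_opS, opθ_apply, op_eq_zero_iff]
    exact h.ker n _
  symb m n y z w hw := by
    rw [opθ_apply, opθ_apply, opθ_apply, ← op_mul]
    congr 1
    have h0 : ∀ v : Rᵐᵒᵖ, v ∈ opS (F (m + n)) → unop v ∈ F (n + m) := fun v hv => by
      rw [add_comm n m]
      exact mem_opS.1 hv
    have h1 : (unop (w : Rᵐᵒᵖ)) ∈ F (n + m) := h0 w w.2
    have h2 := h.symb n m ⟨unop z, mem_opS.1 z.2⟩ ⟨unop y, mem_opS.1 y.2⟩ ⟨unop w, h1⟩ (by
      have h3 := congrArg unop hw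
      rw [unop_mul] at h3
      exact h3)
    rw [← h2]
    exact θ_congr (add_comm m n) _ _ rfl

end Pool.Agent.Lib.NOreP
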