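import Pool.Agent.Lib.NOreP.Dst

/-!
# NOreP/Reg: uniform regularity passes to saturated families with bounded quotient
-/

set_option autoImplicit false

namespace Pool.Agent.Lib.NOreP

namespace Pl

variable {σ : Type} [Fintype σ] {k R : Type*} [Field k] [Ring R] [Algebra k R] (P : Pl σ k R)
variable {Mo : Type*} [AddCommGroup Mo] [Module R Mo] [Module k Mo] [IsScalarTower k R Mo]

/-- no generators in the top degree -/
theorem top_gen {N N' : ℤ → Submodule k Mo} (hN : P.Stb N) (hle : ∀ a, N' a ≤ N a)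
    (hf : ∀ a, Module.Finite k (N a)) {e : ℤ} (hG' : ∀ a, e ≤ a → P.G0 N' a)
    {τ : ℤ} (hbd : ∀ a, dm N a ≤ dm N' a + τ)
    (hG : ∀ a, e + 1 ≤ a → P.G0 N a) (hH : ∀ a, e + 1 ≤ a → P.H1 N a) : P.G0 N e := by
  classical
  have := hf (e + 1)
  have := hf e
  let f1 : (σ → N e) →ₗ[k] Mo :=
    ∑ i, (mulL Mo (P.x i)) ∘ₗ (N e).subtype ∘ₗ LinearMap.proj i
  have e1 : ∀ n : σ → N e, f1 n = ∑ i, P.x i • (n i : Mo) := by
    intro n
    simp only [f1, LinearMap.sum_apply, LinearMap.comp_apply, LinearMap.proj_apply,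
      Submodule.subtype_apply, mulL_apply]
  intro κ hκN
  by_contra hcon
  have hκ : κ ∉ LinearMap.range f1 := by
    rintro ⟨z, hz⟩
    exact hcon ⟨fun i => (z i : Mo), fun i => (z i).2, by rw [← hz, e1]⟩
  obtain ⟨f, hfκ, hfle⟩ := Submodule.exists_le_ker_of_notMem hκ
  let Y : Submodule k Mo := N (e + 1) ⊓ LinearMap.ker f
  let X' := P.Gn Y (e + 1)
  have hsub : ∀ n ∈ N (e + 1 - 1), ∀ i, P.x i • n ∈ X' (e + 1) := by
    intro n hn i
    rw [add_sub_cancel_right] at hn
    refine P.self_le_Gn ⟨hN _ _ hn i, hfle ⟨fun i' => if i' = i then ⟨n, hn⟩ else 0, ?_⟩⟩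
    rw [e1, Finset.sum_eq_single i]
    · rw [if_pos rfl]
    · intro i' _ hi'
      rw [if_neg hi']
      simp
    · intro h
      exact absurd (Finset.mem_univ _) h
  have hX'N : ∀ a, X' a ≤ N a := fun a => P.Gn_le hN inf_le_left a
  have FS := P.free_summand (X := N) (X' := X') (e := e + 1) (κ := κ) hN (P.Gn_stb _ _) hG hH
    (fun a ha => P.Gn_gen _ _ ha) hsub (fun n hn => ⟨f n / f κ, P.self_le_Gn ⟨Submodule.sub_mem _
      hn (Submodule.smul_mem _ _ hκN), LinearMap.mem_ker.2 (by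
        rw [map_sub, map_smul, smul_eq_mul, div_mul_cancel₀ _ hfκ, sub_self])⟩⟩) hκN
    (fun h => hfκ (LinearMap.mem_ker.1 (P.Gn_self_le h).2)) (fun a _ => hX'N a)
  have hN'X : ∀ t : ℕ, N' (e + 1 + t) ≤ X' (e + 1 + t) := by
    intro t
    induction t with
    | zero =>
      intro n hn
      simp only [Nat.cast_zero, add_zero] at hn ⊢
      obtain ⟨z, hz, rfl⟩ := hG' e le_rfl n hn
      exact Submodule.sum_mem _ fun i _ => hsub _ (by
        rw [add_sub_cancel_right]
        exact hle _ (hz i)) i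
    | succ t ih =>
      intro n hn
      push_cast at hn ⊢
      rw [← add_assoc] at hn ⊢
      obtain ⟨z, hz, rfl⟩ := hG' _ (by omega) n hn
      exact Submodule.sum_mem _ fun i _ => P.Gn_stb _ _ _ _ (ih (hz i)) i
  obtain ⟨n0, hn0, hsup⟩ := P.gro.sup |τ|
  obtain ⟨t, rfl⟩ := Int.eq_ofNat_of_zero_le hn0
  have h1 := hsup t le_rfl
  have h2 := hbd (e + 1 + t)
  have := hf (e + 1 + t)
  let ψ : P.A t →ₗ[k] Mo := (LinearMap.toSpanSingleton R Mo κ).restrictScalars k ∘ₗ (P.A t).subtype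
  have hψ : ∀ y : P.A t, ψ y = (y : R) • κ := fun _ => rfl
  have hψi : Function.Injective ψ := by
    rw [← LinearMap.ker_eq_bot, LinearMap.ker_eq_bot']
    intro y hy
    rw [hψ] at hy
    exact Subtype.ext ((FS t).2 _ y.2 (by rw [hy]; exact Submodule.zero_mem _))
  have h3 : P.h t ≤ τ := by
    by_contra h4
    push Not at h4
    unfold dm at h2
    obtain ⟨n, hn1, hn2, hn0⟩ := pig (hf (e + 1 + t)) (E1 := LinearMap.range ψ)
      (E2 := N' (e + 1 + t)) (by
        rintro _ ⟨y, rfl⟩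
        rw [hψ]
        have h5 := hN.smul_mem (P := P) y.2 hκN
        rwa [add_comm] at h5) (hle _) (by
        rw [(LinearEquiv.ofInjective ψ hψi).finrank_eq.symm]
        unfold h at h4
        omega)
    obtain ⟨y, rfl⟩ := hn1
    rw [hψ] at hn2 hn0
    exact hn0 (by rw [(FS t).2 _ y.2 (hN'X t hn2), zero_smul])
  have h4 := le_abs_self τ
  have h5 := abs_nonneg τ
  have h6 : (0 : ℤ) ≤ t := Int.natCast_nonneg t
  nlinarith

/-- no relations in the top degree -/
theorem top_rel {N N' : ℤ → Submodule k Mo} (hN : P.Stb N) (hN' : P.Stb N')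
    (hle : ∀ a, N' a ≤ N a) (hneg : ∀ a, a < 0 → N a = ⊥) (hf : ∀ a, Module.Finite k (N a))
    (h2 : ∀ a, P.H2 N a) {e : ℤ} (he : 0 ≤ e) (hG' : ∀ a, e ≤ a → P.G0 N' a)
    (hH' : ∀ a, e ≤ a → P.H1 N' a) {τ : ℤ} (hbd : ∀ a, dm N a ≤ dm N' a + τ)
    (hG : ∀ a, e ≤ a → P.G0 N a) (hH : ∀ a, e + 1 ≤ a → P.H1 N a) : P.H1 N e := by
  classical
  intro n hn hrel
  by_contra hcon
  have hl := P.l_pos
  obtain ⟨ι, _, c, g, hc, hg, hcov⟩ := P.cover hf hneg (e + 1).toNat
  have hc' : ∀ i, c i ≤ e := fun i => by have := hc i; omega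
  have hgN : ∀ a, ∀ y ∈ P.Fr c a, pr (k := k) g y ∈ N a := by
    intro a y hy
    rw [pr_apply]
    refine Submodule.sum_mem _ fun i _ => ?_
    have h5 := hN.smul_mem (P := P) (hy i) (hg i)
    rwa [sub_add_cancel] at h5
  have hs' : ∀ t : ℕ, ∀ m ∈ N (e + t), ∃ y ∈ P.Fr c (e + t), pr (k := k) g y = m := by
    intro t
    induction t with
    | zero =>
      intro m hm
      exact hcov _ (by push_cast; omega) m hm
    | succ t ih =>
      intro m hm
      push_cast at hm ⊢
      rw [← add_assoc] at hm ⊢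
      obtain ⟨z, hz, rfl⟩ := hG _ (by omega) m hm
      choose y hy hyz using fun i => ih (z i) (hz i)
      refine ⟨∑ i, P.x i • y i, Submodule.sum_mem _ fun i _ => P.Fr_stb c _ _ (hy i) i, ?_⟩
      rw [pr_sum]
      simp only [hyz]
  have hs : ∀ a, ∀ m ∈ N a, ∃ y ∈ P.Fr c a, pr (k := k) g y = m := by
    intro a m hm
    rcases lt_or_ge a e with h5 | h5
    · exact hcov a (by omega) m hm
    · obtain ⟨t, ht⟩ := Int.eq_ofNat_of_zero_le (show 0 ≤ a - e by omega)
      obtain rfl : a = e + t := by omega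
      exact hs' t m hm
  have hKH := P.Kr_H1 hgN hs h2
  have hKG : ∀ a, e + 1 ≤ a → P.G0 (P.Kr c g) a := fun a ha =>
    P.Kr_G0 hgN hs (fun i => (hc' i).trans (by omega)) (hH a ha)
  have hKs : P.Stb (P.Kr c g) := P.Kr_stb
  have hFf := fun a => P.Fr_fin c a
  have hKf : ∀ a, Module.Finite k (P.Kr c g a) := fun a =>
    Submodule.finiteDimensional_of_le (inf_le_left (b := LinearMap.ker (pr (k := k) g)))
  -- the top relation
  choose y hy hyn using fun i => hs _ _ (hn i)
  set κ : ι → R := ∑ i, P.x i • y i with hκdef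
  have hκK : κ ∈ P.Kr c g (e + 1) := by
    rw [mem_Kr]
    refine ⟨Submodule.sum_mem _ fun i _ => P.Fr_stb c _ _ (hy i) i, ?_⟩
    rw [hκdef, pr_sum]
    simp only [hyn]
    exact hrel
  let f1 : (σ → P.Kr c g e) →ₗ[k] (ι → R) :=
    ∑ i, (mulL (ι → R) (P.x i)) ∘ₗ (P.Kr c g e).subtype ∘ₗ LinearMap.proj i
  have e1 : ∀ n : σ → P.Kr c g e, f1 n = ∑ i, P.x i • (n i : ι → R) := by
    intro n
    simp only [f1, LinearMap.sum_apply, LinearMap.comp_apply, LinearMap.proj_apply,
      Submodule.subtype_apply, mulL_apply]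
  have hκ : κ ∉ LinearMap.range f1 := by
    rintro ⟨z, hz⟩
    apply hcon
    rw [e1] at hz
    obtain ⟨m, hm, hym⟩ := P.Fr_H1 c e (fun i => y i - (z i : ι → R))
      (fun i => Submodule.sub_mem _ (hy i) ((P.mem_Kr).1 (z i).2).1) (by
        simp only [smul_sub, Finset.sum_sub_distrib]
        rw [hz, ← hκdef, sub_self])
    refine ⟨fun j => pr (k := k) g (m j), fun j => hgN _ _ (hm j), fun i => ?_⟩
    rw [← pr_sum, ← hym i, map_sub, ((P.mem_Kr).1 (z i).2).2, sub_zero, hyn]
  obtain ⟨f, hfκ, hfle⟩ := Submodule.exists_le_ker_of_notMem hκ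
  let Y : Submodule k (ι → R) := P.Kr c g (e + 1) ⊓ LinearMap.ker f
  let X' := P.Gn Y (e + 1)
  have hX's : P.Stb X' := P.Gn_stb _ _
  have hsub : ∀ n ∈ P.Kr c g (e + 1 - 1), ∀ i, P.x i • n ∈ X' (e + 1) := by
    intro n hn i
    rw [add_sub_cancel_right] at hn
    refine P.self_le_Gn ⟨hKs _ _ hn i, hfle ⟨fun i' => if i' = i then ⟨n, hn⟩ else 0, ?_⟩⟩
    rw [e1, Finset.sum_eq_single i]
    · rw [if_pos rfl]
    · intro i' _ hi'
      rw [if_neg hi']
      simp
    · intro h
      exact absurd (Finset.mem_univ _) h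
  have FS := P.free_summand (X := P.Kr c g) (X' := X') (e := e + 1) (κ := κ) hKs hX's hKG
    (fun a _ => hKH a) (fun a ha => P.Gn_gen _ _ ha) hsub
    (fun n hn => ⟨f n / f κ, P.self_le_Gn ⟨Submodule.sub_mem _
      hn (Submodule.smul_mem _ _ hκK), LinearMap.mem_ker.2 (by
        rw [map_sub, map_smul, smul_eq_mul, div_mul_cancel₀ _ hfκ, sub_self])⟩⟩) hκK
    (fun h => hfκ (LinearMap.mem_ker.1 (P.Gn_self_le h).2))
    (fun a _ => P.Gn_le hKs inf_le_left a)
  have hX'K : ∀ a, X' a ≤ P.Kr c g a := fun a => P.Gn_le hKs inf_le_left a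
  -- the preimage of `N'`
  have hPs : P.Stb (P.Pre c g N') := P.Pre_stb hN'
  let S := P.Gn (P.Pre c g N' e) e
  have hSs : P.Stb S := P.Gn_stb _ _
  have hSP : ∀ a, S a ≤ P.Pre c g N' a := fun a => P.Gn_le hPs le_rfl a
  have hPS : ∀ n ∈ P.Pre c g N' (e - 1), ∀ i, P.x i • n ∈ S e := by
    intro n hn i
    refine P.self_le_Gn ?_
    have h5 := hPs _ _ hn i
    rwa [sub_add_cancel] at h5
  have hL : ∀ t : ℕ, ∀ m ∈ N' (e + t), ∃ s ∈ S (e + t), pr (k := k) g s = m := by
    intro t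
    induction t with
    | zero =>
      intro m hm
      simp only [Nat.cast_zero, add_zero] at hm ⊢
      obtain ⟨y, hy, rfl⟩ := hs _ m (hle _ hm)
      exact ⟨y, P.self_le_Gn ((P.mem_Pre).2 ⟨hy, hm⟩), rfl⟩
    | succ t ih =>
      intro m hm
      push_cast at hm ⊢
      rw [← add_assoc] at hm ⊢
      obtain ⟨z, hz, rfl⟩ := hG' _ (by omega) m hm
      choose s hs hsz using fun i => ih (z i) (hz i)
      refine ⟨∑ i, P.x i • s i, Submodule.sum_mem _ fun i _ => hSs _ _ (hs i) i, ?_⟩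
      rw [pr_sum]
      simp only [hsz]
  have hstep : ∀ b, e ≤ b → ∀ s ∈ S (b + 1), s ∈ P.Kr c g (b + 1) →
      ∃ r : σ → ι → R, (∀ i, r i ∈ S b ∧ r i ∈ P.Kr c g b) ∧ s = ∑ i, P.x i • r i := by
    intro b hb s hs' hsK
    obtain ⟨z, hz, rfl⟩ := P.Gn_gen _ _ hb s hs'
    obtain ⟨m, hm, hzm⟩ := hH' b hb (fun i => pr (k := k) g (z i))
      (fun i => ((P.mem_Pre).1 (hSP _ (hz i))).2) (by
        rw [← pr_sum]
        exact ((P.mem_Kr).1 hsK).2)
    have hlift : ∀ j, ∃ f ∈ P.Fr c (b - (P.l - 2)), pr (k := k) g f = m j ∧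
        ∀ i, P.M i j • f ∈ S b := by
      intro j
      rcases lt_or_ge (b - (P.l - 2)) e with h5 | h5
      · obtain ⟨f, hf, hfm⟩ := hs _ _ (hle _ (hm j))
        refine ⟨f, hf, hfm, fun i => ?_⟩
        have h6 := P.low_mem hPs hSs hPS h5 (P.l - 2).toNat (by omega) (y := P.M i j) (by
          rw [Int.toNat_of_nonneg (by omega)]
          exact P.hM i j) (n := f) ((P.mem_Pre).2 ⟨hf, by rw [hfm]; exact hm j⟩)
        rwa [Int.toNat_of_nonneg (by omega), sub_add_cancel] at h6
      · obtain ⟨t, ht⟩ := Int.eq_ofNat_of_zero_le (show 0 ≤ b - (P.l - 2) - e by omega)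
        have ht' : b - (P.l - 2) = e + t := by omega
        obtain ⟨f, hf, hfm⟩ := hL t (m j) (by
          rw [← ht']
          exact hm j)
        rw [← ht'] at hf
        refine ⟨f, ((P.mem_Pre).1 (hSP _ hf)).1, hfm, fun i => ?_⟩
        have h6 := hSs.smul_mem (P := P) (P.hM i j) hf
        rwa [show P.l - 2 + (b - (P.l - 2)) = b by ring] at h6
    choose f hf hfm hMf using hlift
    refine ⟨fun i => z i - ∑ j, P.M i j • f j, fun i => ⟨Submodule.sub_mem _ (hz i)
      (Submodule.sum_mem _ fun j _ => hMf j i), (P.mem_Kr).2 ⟨Submodule.sub_mem _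
      ((P.mem_Pre).1 (hSP _ (hz i))).1 (Submodule.sum_mem _ fun j _ => ?_), ?_⟩⟩, ?_⟩
    · exact ((P.mem_Pre).1 (hSP _ (hMf j i))).1
    · rw [map_sub, pr_sum, hzm i]
      simp only [hfm, sub_self]
    · simp only [smul_sub, Finset.sum_sub_distrib, Finset.smul_sum, ← mul_smul]
      have h4 : ∑ i, ∑ j, (P.x i * P.M i j) • f j = 0 := by
        rw [Finset.sum_comm]
        refine Finset.sum_eq_zero fun j _ => ?_
        rw [← Finset.sum_smul, P.rel1, zero_smul]
      rw [h4, sub_zero]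
  have hQ : ∀ t : ℕ, ∀ s ∈ S (e + 1 + t), s ∈ P.Kr c g (e + 1 + t) → s ∈ X' (e + 1 + t) := by
    intro t
    induction t with
    | zero =>
      intro s hs hsK
      simp only [Nat.cast_zero, add_zero] at hs hsK ⊢
      obtain ⟨r, hr, rfl⟩ := hstep e le_rfl s hs hsK
      exact Submodule.sum_mem _ fun i _ => hsub _ (by
        rw [add_sub_cancel_right]
        exact (hr i).2) i
    | succ t ih =>
      intro s hs hsK
      push_cast at hs hsK ⊢
      rw [← add_assoc] at hs hsK ⊢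
      obtain ⟨r, hr, rfl⟩ := hstep _ (by omega) s hs hsK
      exact Submodule.sum_mem _ fun i _ => hX's _ _ (ih _ (hr i).1 (hr i).2) i
  -- the complement of the free part
  let Z : ℤ → Submodule k (ι → R) := fun a => S a ⊔ X' a
  have hZs : P.Stb Z := by
    intro a n hn i
    obtain ⟨s, hs, q, hq, rfl⟩ := Submodule.mem_sup.1 hn
    rw [smul_add]
    exact Submodule.add_mem _ (Submodule.mem_sup_left (hSs _ _ hs i))
      (Submodule.mem_sup_right (hX's _ _ hq i))
  have hZF : ∀ a, Z a ≤ P.Fr c a := fun a => sup_le ((hSP a).trans inf_le_left)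
    ((hX'K a).trans inf_le_left)
  have hZ0 : ∀ t : ℕ, ∀ y ∈ P.A t, y • κ ∈ Z (e + 1 + t) → y = 0 := by
    intro t y hy h5
    obtain ⟨s, hs, q, hq, h6⟩ := Submodule.mem_sup.1 h5
    refine (FS t).2 y hy ?_
    rw [← h6]
    refine Submodule.add_mem _ (hQ t s hs ?_) hq
    have h7 : s = y • κ - q := by rw [← h6]; abel
    rw [h7]
    refine Submodule.sub_mem _ ?_ (hX'K _ hq)
    have h8 := hKs.smul_mem (P := P) hy hκK
    rwa [add_comm] at h8
  have hcount : ∀ i : ι, ∃ b : ℤ, ∃ y' ∈ P.A b, y' ≠ 0 ∧ Pi.single i y' ∈ Z (b + c i) := by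
    intro i
    obtain ⟨n0, hn0⟩ := P.gro.unb τ
    set b : ℤ := max n0 (e + 1 - c i) with hb
    have h5 := hn0 b (le_max_left _ _)
    have h6 : e + 1 - c i ≤ b := le_max_right _ _
    obtain ⟨t, ht⟩ := Int.eq_ofNat_of_zero_le (show 0 ≤ b + c i - (e + 1) by omega)
    have ht' : b + c i = e + 1 + t := by omega
    have h7 := P.pres_dim hle hgN hs (b + c i)
    have h8 := hbd (b + c i)
    unfold dm at h8
    -- the preimage is contained in `Z + A κ`
    let ψ : P.A t →ₗ[k] (ι → R) :=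
      (LinearMap.toSpanSingleton R (ι → R) κ).restrictScalars k ∘ₗ (P.A t).subtype
    have hψ : ∀ y : P.A t, ψ y = (y : R) • κ := fun _ => rfl
    have h9 : P.Pre c g N' (b + c i) ≤ Z (b + c i) ⊔ LinearMap.range ψ := by
      intro y hy
      obtain ⟨t', htt⟩ := Int.eq_ofNat_of_zero_le (show 0 ≤ b + c i - e by omega)
      have ht'' : b + c i = e + t' := by omega
      obtain ⟨s, hs, hsy⟩ := hL t' (pr (k := k) g y) (by
        rw [← ht'']
        exact ((P.mem_Pre).1 hy).2)
      rw [← ht''] at hs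
      have h10 : y - s ∈ P.Kr c g (e + 1 + t) := by
        rw [← ht', mem_Kr]
        exact ⟨Submodule.sub_mem _ ((P.mem_Pre).1 hy).1 ((P.mem_Pre).1 (hSP _ hs)).1, by
          rw [map_sub, hsy, sub_self]⟩
      obtain ⟨z, hz, hzq⟩ := (FS t).1 _ h10
      have h11 : y = (s + (y - s - z • κ)) + z • κ := by abel
      rw [h11]
      refine Submodule.add_mem _ (Submodule.mem_sup_left (Submodule.add_mem _
        (Submodule.mem_sup_left hs) (Submodule.mem_sup_right ?_)))
        (Submodule.mem_sup_right ⟨⟨z, hz⟩, rfl⟩)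
      rw [ht']
      exact hzq
    have hFfin := P.Fr_fin c (b + c i)
    have hZfin : Module.Finite k (Z (b + c i)) := Submodule.finiteDimensional_of_le (hZF _)
    have hAfin := P.fin t
    have h10 := Submodule.finrank_mono h9
    have h11 := Submodule.finrank_add_le_finrank_add_finrank (Z (b + c i)) (LinearMap.range ψ)
    have h12 := LinearMap.finrank_range_le ψ
    have h13 : P.h t ≤ P.h (b - 1) := P.gro.mono (by have := hc' i; omega)
    have hsi : Function.Injective ((LinearMap.single k (fun _ : ι => R) i) ∘ₗ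
        (P.A b).subtype) := fun p q hpq => Subtype.ext (Pi.single_injective (M := fun _ => R) i hpq)
    unfold h at h5 h13
    obtain ⟨n, hn1, hn2, hn3⟩ := pig (P.Fr_fin c (b + c i))
      (E1 := LinearMap.range ((LinearMap.single k (fun _ : ι => R) i) ∘ₗ (P.A b).subtype))
      (E2 := Z (b + c i)) (by
        rintro _ ⟨y, rfl⟩
        intro i'
        by_cases h14 : i' = i
        · subst h14
          rw [add_sub_cancel_right]
          change (Pi.single i' (y : R) : ι → R) i' ∈ _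
          rw [Pi.single_eq_same]
          exact y.2
        · change (Pi.single i (y : R) : ι → R) i' ∈ _
          rw [Pi.single_eq_of_ne h14]
          exact Submodule.zero_mem _) (hZF _) (by
        rw [(LinearEquiv.ofInjective _ hsi).finrank_eq.symm]
        omega)
    obtain ⟨y, rfl⟩ := hn1
    exact ⟨b, y, y.2, fun h14 => hn3 (by
      change (Pi.single i (y : R) : ι → R) = 0
      rw [h14, Pi.single_zero]), hn2⟩
  choose b y' hy' hy'0 hy'Z using hcount
  have hore : ∀ T : Finset ι, ∃ t : ℕ, ∃ z ∈ P.A t, z ≠ 0 ∧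
      ∀ i ∈ T, Pi.single i (z * κ i) ∈ Z (e + 1 + t) := by
    intro T
    induction T using Finset.induction_on with
    | empty => exact ⟨0, 1, P.one, P.one_ne, fun i hi => absurd hi (Finset.notMem_empty i)⟩
    | insert i T hi ih =>
      obtain ⟨t, z, hz, hz0, hT⟩ := ih
      have hκi : κ i ∈ P.A (e + 1 - c i) := ((P.mem_Kr).1 hκK).1 i
      by_cases h5 : z * κ i = 0
      · refine ⟨t, z, hz, hz0, fun i' hi' => ?_⟩
        rcases Finset.mem_insert.1 hi' with rfl | h6
        · rw [h5, Pi.single_zero]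
          exact Submodule.zero_mem _
        · exact hT i' h6
      · obtain ⟨q, q', u, hu, u', hu', hq, hu0, huu⟩ := P.ore (P.mul _ _ _ hz _ hκi) (hy' i) h5
          (hy'0 i)
        have hq0 : 0 ≤ q := by
          by_contra h6
          rw [P.neg q (by omega), Submodule.mem_bot] at hu
          exact hu0 hu
        obtain ⟨p, rfl⟩ := Int.eq_ofNat_of_zero_le hq0
        refine ⟨p + t, u * z, by
          push_cast
          exact P.mul _ _ _ hu _ hz, fun h6 => ?_, fun i' hi' => ?_⟩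
        · rcases P.dom _ _ _ hu _ hz h6 with h7 | h7
          · exact hu0 h7
          · exact hz0 h7
        · rcases Finset.mem_insert.1 hi' with rfl | h6
          · have h7 := hZs.smul_mem (P := P) hu' (hy'Z i')
            rw [← Pi.single_smul, smul_eq_mul, ← huu, ← mul_assoc] at h7
            rwa [show q' + (b i' + c i') = e + 1 + ((p + t : ℕ) : ℤ) by push_cast; omega] at h7
          · have h7 := hZs.smul_mem (P := P) hu (hT i' h6)
            rw [← Pi.single_smul, smul_eq_mul, ← mul_assoc] at h7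
            rwa [show (p : ℤ) + (e + 1 + t) = e + 1 + ((p + t : ℕ) : ℤ) by push_cast; ring] at h7
  obtain ⟨t, z, hz, hz0, hT⟩ := hore Finset.univ
  apply hz0
  refine hZ0 t z hz ?_
  have h5 : z • κ = ∑ i, Pi.single i (z * κ i) := by
    rw [Finset.univ_sum_single]
    rfl
  rw [h5]
  exact Submodule.sum_mem _ fun i _ => hT i (Finset.mem_univ i)

/-- **Uniform regularity**: if `N' ≤ N` has a bounded quotient, `N'` is generated and related in
degrees at most `ρ`, and `N` is saturated and finitely presented, then `N` is generated and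
related in degrees at most `ρ`. -/
theorem reg_step {N N' : ℤ → Submodule k Mo} (hN : P.Stb N) (hN' : P.Stb N')
    (hle : ∀ a, N' a ≤ N a) (hneg : ∀ a, a < 0 → N a = ⊥) (hf : ∀ a, Module.Finite k (N a))
    (h2 : ∀ a, P.H2 N a) {ρ : ℤ} (hρ : 0 ≤ ρ) (hG' : ∀ a, ρ ≤ a → P.G0 N' a)
    (hH' : ∀ a, ρ ≤ a → P.H1 N' a) {τ : ℤ} (hbd : ∀ a, dm N a ≤ dm N' a + τ)
    (hfg : ∃ s, ∀ a, s ≤ a → P.G0 N a ∧ P.H1 N a) : ∀ a, ρ ≤ a → P.G0 N a ∧ P.H1 N a := by
  obtain ⟨s, hs⟩ := hfg
  have key : ∀ t : ℕ, ∀ a, ρ ≤ a → s - t ≤ a → P.G0 N a ∧ P.H1 N a := by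
    intro t
    induction t with
    | zero =>
      intro a _ ha
      exact hs a (by simpa using ha)
    | succ t ih =>
      intro a ha hat
      push_cast at hat
      have hG : P.G0 N a := P.top_gen hN hle hf (fun b hb => hG' b (by omega)) hbd
        (fun b hb => (ih b (by omega) (by omega)).1) (fun b hb => (ih b (by omega) (by omega)).2)
      refine ⟨hG, P.top_rel hN hN' hle hneg hf h2 (by omega) (fun b hb => hG' b (by omega))
        (fun b hb => hH' b (by omega)) hbd (fun b hb => ?_)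
        (fun b hb => (ih b (by omega) (by omega)).2)⟩
      rcases eq_or_lt_of_le hb with rfl | h5
      · exact hG
      · exact (ih b (by omega) (by omega)).1
  intro a ha
  exact key (s - a).toNat a ha (by have := Int.self_le_toNat (s - a); omega)

end Pl

end Pool.Agent.Lib.NOreP
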