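import Pool.Agent.Lib.NOreP.Bi

/-!
# NOreP/SatF: saturated families are generated in bounded degrees
-/

set_option autoImplicit false

namespace Pool.Agent.Lib.NOreP

variable {σ : Type} [Fintype σ] {k R : Type*} [Field k] [Ring R] [Algebra k R]

namespace Bi

variable {P : Pl σ k R} {B : Bi P}

open Pl

namespace SatV

variable {N : ℕ → ℤ → Submodule k R} (S : B.SatV N)
include S

theorem dm_VN (j : ℕ) (a : ℤ) :
    dm (B.VN N (j + 1)) a = 2 * dm (N (j + 1)) a - dm (N j) a := by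
  have := S.fin (j + 1) a
  have := S.fin j a
  let f : (Fin 2 → N (j + 1) a) →ₗ[k] R :=
    ∑ s, (mulL R (B.v s)) ∘ₗ (N (j + 1) a).subtype ∘ₗ LinearMap.proj s
  let inc : (Fin 2 → N (j + 1) a) →ₗ[k] (Fin 2 → R) :=
    LinearMap.pi fun i => (N (j + 1) a).subtype ∘ₗ LinearMap.proj i
  let g : N j a →ₗ[k] (Fin 2 → R) := LinearMap.pi fun s => (mulL R (B.u s)) ∘ₗ (N j a).subtype
  have e1 : ∀ b : Fin 2 → N (j + 1) a, f b = ∑ s, B.v s * (b s : R) := by
    intro n
    simp only [f, LinearMap.sum_apply, LinearMap.comp_apply, LinearMap.proj_apply,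
      Submodule.subtype_apply, mulL_apply, smul_eq_mul]
  have e2 : ∀ (z : N j a) (s : Fin 2), g z s = B.u s * (z : R) := fun _ _ => rfl
  have hinc : Function.Injective inc := by
    intro p q hpq
    funext i
    exact Subtype.ext (congrFun hpq i)
  have r1 : LinearMap.range f = B.VN N (j + 1) a := by
    ext n
    rw [B.mem_VN]
    constructor
    · rintro ⟨b, rfl⟩
      exact ⟨fun s => b s, fun s => (b s).2, e1 b⟩
    · rintro ⟨b, hb, rfl⟩
      exact ⟨fun s => ⟨b s, hb s⟩, e1 _⟩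
  have r2 : LinearMap.range g = (LinearMap.ker f).map inc := by
    apply le_antisymm
    · rintro _ ⟨z, rfl⟩
      refine ⟨fun s => ⟨B.u s * z, S.V1 (B.hu s) z.2⟩, ?_, rfl⟩
      rw [SetLike.mem_coe, LinearMap.mem_ker, e1]
      simp only [← mul_assoc]
      rw [← Finset.sum_mul, B.relV, zero_mul]
    · rintro _ ⟨b, hb, rfl⟩
      rw [SetLike.mem_coe, LinearMap.mem_ker, e1] at hb
      obtain ⟨z, hz, hbz⟩ := B.exV j a (fun s => (b s : R)) (fun s => S.le _ _ (b s).2) hb
      refine ⟨⟨z, S.satV _ _ z hz fun s => ?_⟩, ?_⟩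
      · obtain ⟨e, he⟩ := B.uspan _ (B.hv s)
        rw [he, Finset.sum_mul]
        refine Submodule.sum_mem _ fun s' _ => ?_
        rw [smul_mul_assoc, ← hbz s']
        exact Submodule.smul_mem _ _ (b s').2
      · funext s
        rw [e2]
        exact (hbz s).symm
  have k2 : LinearMap.ker g = ⊥ := by
    rw [LinearMap.ker_eq_bot']
    intro z hz
    refine Subtype.ext (B.torV j a z (S.le _ _ z.2) fun s => ?_)
    obtain ⟨e, he⟩ := B.uspan _ (B.hv s)
    rw [he, Finset.sum_mul]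
    refine Finset.sum_eq_zero fun s' _ => ?_
    rw [smul_mul_assoc, ← e2, hz]
    simp
  have d1 := LinearMap.finrank_range_add_finrank_ker f
  have d2 := LinearMap.finrank_range_add_finrank_ker g
  rw [r1, Module.finrank_pi_fintype] at d1
  rw [r2, (Submodule.equivMapOfInjective inc hinc _).symm.finrank_eq, k2, finrank_bot] at d2
  simp only [Finset.sum_const, Finset.card_univ, smul_eq_mul, Fintype.card_fin] at d1
  unfold dm
  zify at d1 d2
  linarith

/-- one column of a family -/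
theorem col (a : ℤ) : ∃ j0, ∀ j, j0 ≤ j → N (j + 2) a = B.VN N (j + 1) a := by
  have hU : ∀ j, dm (N j) a ≤ (j + 1) * P.h a := by
    intro j
    obtain ⟨C, h0, h1, h2⟩ := B.pres j
    have := P.Fr_fin (fun _ : Fin (j + 1) => 0) a
    have h3 : N j a ≤ (P.Fr (fun _ : Fin (j + 1) => 0) a).map (pr (k := k) C) := by
      intro m hm
      exact h1 a m (S.le _ _ hm)
    have h4 := Submodule.finrank_mono h3
    have h5 := Submodule.finrank_map_le (pr (k := k) C) (P.Fr (fun _ : Fin (j + 1) => 0) a)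
    have h6 := P.Fr_dim (fun _ : Fin (j + 1) => 0) a
    simp only [sub_zero, Finset.sum_const, Finset.card_univ, Fintype.card_fin,
      nsmul_eq_mul] at h6
    unfold dm
    push_cast at h6
    linarith [show (Module.finrank k (N j a) : ℤ) ≤
      Module.finrank k (P.Fr (fun _ : Fin (j + 1) => 0) a) by exact_mod_cast h4.trans h5]
  have hle : ∀ j, dm (B.VN N (j + 1)) a ≤ dm (N (j + 2)) a := by
    intro j
    have := S.fin (j + 2) a
    unfold dm
    exact_mod_cast Submodule.finrank_mono (S.VNle (j + 1) a)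
  obtain ⟨j0, -, hj0⟩ := cvx (f := fun j => dm (N j) a) (j0 := 0) (fun j _ => by
    have h1 := hle j
    rw [S.dm_VN] at h1
    linarith) (A := P.h a) (B := P.h a) (fun j => by
    have := hU j
    linarith)
  refine ⟨j0, fun j hj => ?_⟩
  have h1 := hj0 j hj
  have h2 := S.dm_VN j a
  have := S.fin (j + 2) a
  refine (Submodule.eq_of_le_of_finrank_eq (S.VNle (j + 1) a) ?_).symm
  have h5 : dm (B.VN N (j + 1)) a = dm (N (j + 1 + 1)) a := by
    rw [h2]
    linarith
  unfold dm at h5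
  exact_mod_cast h5

end SatV

namespace Sat

variable {N : ℕ → ℤ → Submodule k R} (S : B.Sat N)
include S

/-- ranks and finite presentation of one slice -/
theorem slice (hLN : P.LN) (j : ℕ) : ∃ r C s : ℤ, r ≤ j + 1 ∧ (∀ a, dm (N j) a ≤ r * P.h a) ∧
    (∀ a, 0 ≤ a → r * P.h a ≤ dm (N j) a + C * (a + 1)) ∧
    ∀ a, s ≤ a → P.G0 (N j) a ∧ P.H1 (N j) a := by
  obtain ⟨C, h0, h1, h2⟩ := B.pres j
  let X := P.Pre (fun _ => 0) C (N j)
  have hX : ∀ a, X a ≤ P.Fr (fun _ => 0) a := fun a => inf_le_left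
  have hXs : P.Stb X := P.Pre_stb (S.stb j)
  have hdm : ∀ a, dm X a = dm (N j) a := by
    intro a
    have h3 : (N j a) = (X a).map (pr (k := k) C) := by
      ext m
      rw [Submodule.mem_map]
      constructor
      · intro hm
        obtain ⟨y, hy, rfl⟩ := h1 a m (S.le _ _ hm)
        exact ⟨y, P.mem_Pre.2 ⟨hy, hm⟩, rfl⟩
      · rintro ⟨y, hy, rfl⟩
        exact (P.mem_Pre.1 hy).2
    let e : X a →ₗ[k] R := (pr (k := k) C) ∘ₗ (X a).subtype
    have he : Function.Injective e := by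
      rw [← LinearMap.ker_eq_bot, LinearMap.ker_eq_bot']
      intro y hy
      exact Subtype.ext (h2 a y (hX a y.2) hy)
    have h4 : LinearMap.range e = N j a := by
      rw [h3, LinearMap.range_comp, Submodule.range_subtype]
    unfold dm
    rw [(LinearEquiv.ofInjective e he).finrank_eq, h4]
  obtain ⟨r, C', hr, hr1, hr2⟩ := P.rank_bounds X hX hXs
  obtain ⟨s0, hs0⟩ := P.Fr_noe hLN _ X hX hXs
  obtain ⟨s, hs⟩ := P.fin_pres hLN (S.stb j) (fun a ha => S.neg j ha) (S.fin j)
    ⟨s0, fun a ha n hn => by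
      obtain ⟨y, hy, rfl⟩ := h1 _ n (S.le _ _ hn)
      obtain ⟨z, hz, rfl⟩ := hs0 a ha y (P.mem_Pre.2 ⟨hy, hn⟩)
      exact ⟨fun i => pr (k := k) C (z i), fun i => (P.mem_Pre.1 (hz i)).2, pr_sum _ _ _⟩⟩
  rw [Fintype.card_fin] at hr
  push_cast at hr
  exact ⟨r, C', s, hr, fun a => by rw [← hdm]; exact hr1 a,
    fun a ha => by rw [← hdm]; exact hr2 a ha, hs⟩

theorem th_zero {j : ℕ} {ρ : ℤ} (h : ∀ a, ρ ≤ a → P.G0 (N j) a ∧ P.H1 (N j) a) :
    ∀ a, ρ - P.l < a → D3 (dm (N j)) a = 0 := by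
  refine D3_zero P.typ fun a ha => ?_
  have h1 := h (a - 1) (by omega)
  exact P.euler (S.stb j) (S.fin j) h1.1 h1.2 (S.H2 j _) (S.H3 j _)

/-- **Saturated families are generated in bounded degrees.** -/
theorem eventually (hLN : P.LN) : ∃ j2, ∀ j, j2 ≤ j → ∀ a, N (j + 2) a = B.VN N (j + 1) a := by
  choose r C s hr h1 h2 h3 using S.slice hLN
  have K : Conv P.h (fun j => dm (N j)) r C (fun j => s j - P.l + 1) :=
    { neg := fun j a ha => by
        unfold dm
        rw [S.neg j ha, finrank_bot]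
        rfl
      le := h1
      ge := h2
      rle := hr
      thr := fun j a ha => S.th_zero (h3 j) a (by omega)
      cv := fun j a => by
        unfold S2
        have h4 := S.dm_VN j a
        have := S.fin (j + 2) a
        have h5 : dm (B.VN N (j + 1)) a ≤ dm (N (j + 2)) a := by
          unfold dm
          exact_mod_cast Submodule.finrank_mono (S.VNle (j + 1) a)
        linarith }
  have hS2 : ∀ j a, S2 (fun j => dm (N j)) j a = dm (N (j + 2)) a - dm (B.VN N (j + 1)) a := by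
    intro j a
    unfold S2
    rw [S.dm_VN j a]
    ring
  have hl := P.l_pos
  obtain ⟨j1, hj1⟩ := K.bounded (by omega) P.gro
  set ρ := max 0 (max (s j1) (s (j1 + 1))) with hρ
  have hreg : ∀ t : ℕ, (∀ a, ρ ≤ a → P.G0 (N (j1 + t)) a ∧ P.H1 (N (j1 + t)) a) ∧
      ∀ a, ρ ≤ a → P.G0 (N (j1 + t + 1)) a ∧ P.H1 (N (j1 + t + 1)) a := by
    intro t
    induction t with
    | zero =>
      exact ⟨fun a ha => h3 j1 a (by omega), fun a ha => h3 (j1 + 1) a (by omega)⟩
    | succ t ih =>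
      refine ⟨ih.2, ?_⟩
      obtain ⟨τ, hτ⟩ := hj1 (j1 + t) (by omega)
      refine P.reg_step (N := N (j1 + t + 2)) (N' := B.VN N (j1 + t + 1)) (S.stb _)
        (S.VN_stb _) (S.VNle _) (fun a ha => S.neg _ ha) (S.fin _) (S.H2 _) (by omega)
        (fun a ha => S.VN_G0 (ih.2 a ha).1) (fun a ha => S.VN_H1 (ih.1 a ha).1 (ih.2 a ha).2)
        (τ := τ) (fun a => ?_) ⟨s (j1 + t + 2), h3 _⟩
      have h4 := hτ a
      rw [hS2] at h4
      linarith
  obtain ⟨j2, hj2⟩ := K.final P.gro (j1 := j1) (β := ρ - P.l + 1) (fun j hj a ha => by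
    obtain ⟨t, rfl⟩ := Nat.exists_eq_add_of_le hj
    exact S.th_zero (hreg t).1 a (by omega))
  refine ⟨j2, fun j hj a => ?_⟩
  have h4 := hj2 j hj a
  rw [hS2] at h4
  have := S.fin (j + 2) a
  refine (Submodule.eq_of_le_of_finrank_eq (S.VNle (j + 1) a) ?_).symm
  have h5 : dm (N (j + 1 + 1)) a = dm (B.VN N (j + 1)) a := sub_eq_zero.1 h4
  unfold dm at h5
  exact_mod_cast h5.symm

end Sat

end Bi

end Pool.Agent.Lib.NOreP
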